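import Pool.Agent.H921PC.Final

set_option autoImplicit false
set_option linter.unusedSectionVars false

/-!
Reduction modulo `p`: the inequality for a pair of polynomial solutions, and the bound at a
singular point obtained from a combination vanishing there.
-/

namespace Pool.Agent.W280.PC

open Polynomial Finset H921PC

section Field

variable {K : Type*} [Field K] (p : ℕ) [hp : Fact p.Prime] [CharP K p]

/-- the degree inequality, with the two solutions -/
theorem core' [Finite K] {P Q R S f g : K[X]} {n : ℕ} (hn : 2 ≤ n) (hP : P.natDegree ≤ n)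
    (hQ : Q.natDegree ≤ n - 1) (hR : R.natDegree ≤ n - 2) (hS : S ≠ 0)
    (hloc : ∀ π : K[X], Irreducible π → ∃ t : ℕ, 1 ≤ t ∧ t < p ∧ Loc P Q R π t ∧ π ^ (t - 1) ∣ S)
    (hf : Sol P Q R f) (hg : Sol P Q R g) (hw : Wr f g ≠ 0) :
    ∃ f' g' : K[X], Sol P Q R f' ∧ Sol P Q R g' ∧ Wr f' g' ≠ 0 ∧
      (f'.natDegree : K) ≠ (g'.natDegree : K) ∧
      P.coeff n * ((f'.natDegree : K) * ((f'.natDegree : K) - 1)) + Q.coeff (n - 1) * f'.natDegree
        + R.coeff (n - 2) = 0 ∧
      P.coeff n * ((g'.natDegree : K) * ((g'.natDegree : K) - 1)) + Q.coeff (n - 1) * g'.natDegree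
        + R.coeff (n - 2) = 0 ∧
      f'.natDegree + g'.natDegree ≤ S.natDegree + 1 := by
  obtain ⟨f', g', hm⟩ := exists_minPair hf hg hw
  have hf0 := ne_zero_of_Wr_left hm.2.2.1
  have hg0 := ne_zero_of_Wr_right hm.2.2.1
  refine ⟨f', g', hm.1, hm.2.1, hm.2.2.1, deg_ne p hm, indicial hn hP hQ hR hm.1 hf0,
    indicial hn hP hQ hR hm.2.1 hg0, ?_⟩
  have h1 := Wr_natDegree hf0 hg0 (deg_ne p hm)
  have h2 : Wr f' g' ∣ S := by
    apply dvd_of_local hm.2.2.1
    intro π hπ
    obtain ⟨t, ht1, ht2, ht3, ht4⟩ := hloc π hπ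
    exact ⟨t, ht1, key2 p hm ht3 ht1 ht2 hπ, ht4⟩
  have h3 := natDegree_le_of_dvd h2 hS
  omega

/-- a combination of two solutions vanishing at a singular point has at least the degree given
by the exponent there -/
theorem root_bound {P Q R f g : K[X]} {α : K} {t : ℕ} (hL : Loc P Q R (X - C α) t)
    (ht : t < p) (hf : Sol P Q R f) (hg : Sol P Q R g) (hw : Wr f g ≠ 0) :
    t ≤ max f.natDegree g.natDegree := by
  have key : ∀ h : K[X], h ≠ 0 → h.eval α = 0 → Sol P Q R h →
      h.natDegree ≤ max f.natDegree g.natDegree → t ≤ max f.natDegree g.natDegree := by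
    intro h h0 hα hs hdeg
    have hirr : Irreducible (X - C α : K[X]) := irreducible_X_sub_C α
    have hfin : FiniteMultiplicity (X - C α) h := FiniteMultiplicity.of_prime_left hirr.prime h0
    obtain ⟨u, h1, h2⟩ := hfin.exists_eq_pow_mul_and_not_dvd
    set v := multiplicity (X - C α) h with hv
    have hv1 : v ≠ 0 := by
      intro hv0
      rw [hv0, pow_zero, one_mul] at h1
      apply h2
      rw [← h1]
      exact dvd_iff_isRoot.2 hα
    have hdegv : v ≤ h.natDegree := by
      have hu : u ≠ 0 := by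
        rintro rfl
        exact h2 (dvd_zero _)
      have h3 := congrArg natDegree h1
      rw [natDegree_mul (pow_ne_zero _ hirr.ne_zero) hu, natDegree_pow, natDegree_X_sub_C,
        mul_one] at h3
      omega
    have htv : t ≤ v := by
      rcases hL h u v hs h1 h2 with h3 | h3
      · rw [CharP.cast_eq_zero_iff K p] at h3
        have := Nat.le_of_dvd (Nat.pos_of_ne_zero hv1) h3
        omega
      · rw [CharP.natCast_eq_natCast K p] at h3
        have h4 : v % p = t := by
          rw [h3, Nat.mod_eq_of_lt ht]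
        rw [← h4]
        exact Nat.mod_le _ _
    omega
  have hCf : ∀ x : K, derivative (C x : K[X]) = 0 := fun x => derivative_C
  by_cases h1 : f.eval α = 0
  · exact key f (ne_zero_of_Wr_left hw) h1 hf (le_max_left _ _)
  · have hsol : Sol P Q R (C (g.eval α) * f + C (-(f.eval α)) * g) :=
      (hf.mul_const (hCf _)).add (hg.mul_const (hCf _))
    refine key (C (g.eval α) * f + C (-(f.eval α)) * g) ?_ ?_ hsol ?_
    · apply ne_zero_of_Wr_right (f := f)
      rw [Wr_add_right, Wr_mul_right (hCf _), Wr_mul_right (hCf _), Wr_self, mul_zero, zero_add]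
      exact mul_ne_zero (C_ne_zero.2 (neg_ne_zero.2 h1)) hw
    · simp only [eval_add, eval_mul, eval_C]; ring
    · refine (natDegree_add_le _ _).trans (max_le_max ?_ ?_)
      · exact natDegree_C_mul_le _ _
      · exact natDegree_C_mul_le _ _

end Field

section maps

variable {K L : Type*} [Field K] [Field L] (φ : K →+* L)

lemma Sol_map {P Q R f : K[X]} (h : Sol P Q R f) : Sol (P.map φ) (Q.map φ) (R.map φ) (f.map φ) := by
  unfold Sol at *
  have := congrArg (Polynomial.map φ) h
  simpa [derivative_map] using this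

lemma Wr_map {f g : K[X]} (h : Wr f g ≠ 0) : Wr (f.map φ) (g.map φ) ≠ 0 := by
  have h1 : Wr (f.map φ) (g.map φ) = (Wr f g).map φ := by
    unfold Wr
    simp [derivative_map]
  rw [h1]
  exact (Polynomial.map_ne_zero_iff φ.injective).2 h

end maps

/-- the local exponents at a root of `Q' i` -/
lemma local_at_root {L : Type*} [Field L] {k D : ℕ} {Q' : Fin k → L[X]} {r : Fin k → L} {t : ℕ}
    {R π : L[X]} (hD : (D : L) ≠ 0) (hsep : (∏ i, Q' i).Separable) (i : Fin k)
    (hπ : Irreducible π) (hπ' : ¬ π ∣ derivative π) (hi : π ∣ Q' i) (ht : (D : L) * t = r i) :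
    Loc (C (D : L) * ∏ i, Q' i)
        (∑ i, C ((D : L) - r i) * derivative (Q' i) * ∏ j ∈ univ.erase i, Q' j) R π t := by
  obtain ⟨h, hh⟩ := hi
  set G := ∏ j ∈ univ.erase i, Q' j with hG
  have hsplit : (∏ i, Q' i) = Q' i * G := (Finset.mul_prod_erase _ _ (Finset.mem_univ i)).symm
  have hsq := hsep.squarefree
  have hnd : ¬ π ∣ h * G := by
    intro hc
    obtain ⟨w, hw⟩ := hc
    have h1 : π * π ∣ ∏ i, Q' i := by
      rw [hsplit, hh]
      exact ⟨w, by linear_combination π * hw⟩
    exact hπ.not_isUnit (hsq π h1)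
  refine loc_of (P1 := C (D : L) * (h * G)) hπ hπ' ?_ ?_ ?_
  · rw [hsplit, hh]; ring
  · intro hc
    rcases hπ.prime.dvd_or_dvd hc with h1 | h1
    · exact hπ.not_isUnit (isUnit_of_dvd_unit h1 (isUnit_C.2 (isUnit_iff_ne_zero.2 hD)))
    · exact hnd h1
  · rw [← Finset.add_sum_erase _ _ (Finset.mem_univ i)]
    have h2 : π ∣ ∑ j ∈ univ.erase i,
        C ((D : L) - r j) * derivative (Q' j) * ∏ l ∈ univ.erase j, Q' l := by
      apply Finset.dvd_sum
      intro j hj
      apply Dvd.dvd.mul_left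
      have h3 : Q' i ∣ ∏ l ∈ univ.erase j, Q' l :=
        Finset.dvd_prod_of_mem _ (Finset.mem_erase.2 ⟨(Finset.ne_of_mem_erase hj).symm,
          Finset.mem_univ _⟩)
      exact (Dvd.intro h hh.symm).trans h3
    have h4 : derivative (Q' i) = derivative π * h + π * derivative h := by
      rw [hh, derivative_mul]
    have h5 : C (1 - (t : L)) * (derivative π * (C (D : L) * (h * G))) =
        C ((D : L) - r i) * (derivative π * h * G) := by
      rw [← ht]
      simp only [map_sub, map_mul, map_one]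
      ring
    rw [h5, h4, add_sub_right_comm]
    apply dvd_add _ h2
    exact ⟨C ((D : L) - r i) * derivative h * G, by ring⟩

theorem modP' {k D : ℕ} (hD : 0 < D) (q : Fin k → ℤ[X]) (r : Fin k → ℤ) (a b c : ℤ) (R : ℤ[X])
    (hsep : ((∏ i, q i).map (Int.castRingHom ℚ)).Separable)
    (hn : 2 ≤ (∏ i, q i).natDegree)
    (hr : ∀ i, (D : ℤ) ∣ r i → 0 < r i)
    (hab : a + b + ∑ i, r i * (q i).natDegree = D * ((∏ i, q i).natDegree - 1))
    (hR : R.natDegree ≤ (∏ i, q i).natDegree - 2)
    (hR' : (D : ℤ) * R.coeff ((∏ i, q i).natDegree - 2) = a * b * (∏ i, q i).leadingCoeff) :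
    ∃ N : ℕ, ∀ p : ℕ, N < p → ∀ _hp : Fact p.Prime, (D : ℤ) ∣ p * c - 1 →
      FullModP (Lop D q r R) p →
      ((c * a) % D + (c * b) % D ≤ ∑ i, ((q i).natDegree : ℤ) * ((-(c * r i)) % D)) ∧
      (∑ i, ((q i).natDegree : ℤ) * ((-(c * r i)) % D) = (c * a) % D + (c * b) % D →
        ∀ i, (q i).natDegree ≠ 0 → (-(c * r i)) % D ≤ max ((c * a) % D) ((c * b) % D)) := by
  obtain ⟨U, V, N0, hN0, hUV⟩ := exists_bezout (∏ i, q i) hsep
  set A := ∏ i, q i with hA
  have hA0 : A ≠ 0 := by
    intro h; rw [h] at hn; simp at hn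
  have hn1 : 1 ≤ A.natDegree := by omega
  set ℓ := A.leadingCoeff with hℓ
  have hℓ0 : ℓ ≠ 0 := leadingCoeff_ne_zero.2 hA0
  refine ⟨a.natAbs + b.natAbs + ∑ i, (r i).natAbs + N0.natAbs + D + ℓ.natAbs, ?_⟩
  intro p hpN hp hpc hfull
  have hnz : ∀ x : ℤ, x ≠ 0 → x.natAbs < p → (x : ZMod p) ≠ 0 := by
    intro x hx hlt h0
    rw [ZMod.intCast_zmod_eq_zero_iff_dvd, Int.natCast_dvd] at h0
    exact absurd (Nat.le_of_dvd (Int.natAbs_pos.2 hx) h0) (by omega)
  have hDp : (D : ZMod p) ≠ 0 := by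
    have := hnz D (by exact_mod_cast hD.ne') (by rw [Int.natAbs_natCast]; omega)
    exact_mod_cast this
  have hℓp : (ℓ : ZMod p) ≠ 0 := hnz ℓ hℓ0 (by omega)
  have hN0p : (N0 : ZMod p) ≠ 0 := hnz N0 hN0 (by omega)
  -- the reduced data
  set ψ := Int.castRingHom (ZMod p) with hψ
  set q' : Fin k → (ZMod p)[X] := fun i => (q i).map ψ with hq'
  have hAmap : A.map ψ = ∏ i, q' i := by rw [hA, Polynomial.map_prod]
  have hsep' : (∏ i, q' i).Separable := by
    rw [← hAmap]
    have h1 := congrArg (Polynomial.map ψ) hUV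
    rw [Polynomial.map_add, Polynomial.map_mul, Polynomial.map_mul, ← derivative_map,
      Polynomial.map_C] at h1
    have h2 : ψ N0 = (N0 : ZMod p) := rfl
    rw [h2] at h1
    refine ⟨C ((N0 : ZMod p)⁻¹) * U.map ψ, C ((N0 : ZMod p)⁻¹) * V.map ψ, ?_⟩
    have h3 : C ((N0 : ZMod p)⁻¹) * C (N0 : ZMod p) = 1 := by
      rw [← C_mul, inv_mul_cancel₀ hN0p, C_1]
    linear_combination C ((N0 : ZMod p)⁻¹) * h1 + h3
  have hrabs' : ∀ i, (r i).natAbs ≤ ∑ i, (r i).natAbs := fun i =>
    Finset.single_le_sum (f := fun i => (r i).natAbs) (fun _ _ => Nat.zero_le _) (Finset.mem_univ i)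
  have hrabs : ∀ i, |r i| < (p : ℤ) := by
    intro i
    have h1 := hrabs' i
    rw [Int.abs_eq_natAbs]
    exact_mod_cast (by omega : (r i).natAbs < p)
  choose t ht1 htp ht using fun i => exists_t hD (hrabs i) hpc (hr i)
  have htmod : ∀ i, (D : ZMod p) * (t i : ZMod p) = ((r i : ℤ) : ZMod p) := by
    intro i
    have h1 := congrArg (fun x : ℤ => (x : ZMod p)) (ht i)
    simp only [Int.cast_mul, Int.cast_natCast, Int.cast_add] at h1
    rw [h1, CharP.cast_eq_zero, zero_mul, add_zero]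
  obtain ⟨f, g, hf, hg, hw⟩ := exists_sol hfull
  have hP : ((Lop D q r R) 2).map ψ = C (D : ZMod p) * ∏ i, q' i := by
    simp only [Lop]
    show (C (D : ℤ) * ∏ i, q i).map ψ = _
    rw [Polynomial.map_mul, ← hA, hAmap, Polynomial.map_C]
    simp
  have hQ : ((Lop D q r R) 1).map ψ =
      ∑ i, C ((D : ZMod p) - ((r i : ℤ) : ZMod p)) * derivative (q' i) * ∏ j ∈ univ.erase i, q' j := by
    simp only [Lop]
    show (∑ i, C ((D : ℤ) - r i) * derivative (q i) * ∏ j ∈ univ.erase i, q j).map ψ = _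
    rw [Polynomial.map_sum]
    apply Finset.sum_congr rfl
    intro i _
    rw [Polynomial.map_mul, Polynomial.map_mul, Polynomial.map_prod, Polynomial.map_C,
      ← derivative_map]
    have e1 : ψ ((D : ℤ) - r i) = (D : ZMod p) - ((r i : ℤ) : ZMod p) := by
      rw [hψ, map_sub]; simp
    rw [e1]
  have hRR : ((Lop D q r R) 0).map ψ = R.map ψ := rfl
  have hQ2 : ((Lop D q r R) 1).map ψ = (Bc D q r).map ψ := rfl
  have hP2 : ((Lop D q r R) 2).map ψ = (C (D : ℤ) * A).map ψ := rfl
  set S := ∏ i, q' i ^ (t i - 1) with hS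
  have hS0 : S ≠ 0 := by
    apply Finset.prod_ne_zero_iff.2
    intro i _
    apply pow_ne_zero
    intro h0
    apply hsep'.ne_zero
    exact Finset.prod_eq_zero (Finset.mem_univ i) h0
  have hloc := local_data (Q' := q') (r := fun i => ((r i : ℤ) : ZMod p)) (t := t)
    (R := R.map ψ) hDp hsep' ht1 htp htmod
  rw [← hP, ← hQ, ← hRR] at hloc
  obtain ⟨f', g', hf', hg', hw', hde, hd, he, hsum⟩ := core' p (n := A.natDegree) hn
    (by
      rw [hP2]
      exact (natDegree_map_le).trans (natDegree_C_mul_le _ _))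
    (by
      rw [hQ2]
      exact (natDegree_map_le).trans (Bc_natDegree D q r hA0 hn1))
    (by
      rw [hRR]
      exact (natDegree_map_le).trans hR) hS0 hloc hf hg hw
  -- the bound at the singular points
  have hroot : ∀ i, (q i).natDegree ≠ 0 → t i ≤ max f'.natDegree g'.natDegree := by
    intro i hi
    let L := AlgebraicClosure (ZMod p)
    let φ : ZMod p →+* L := algebraMap (ZMod p) L
    have : CharP L p := charP_of_injective_algebraMap (algebraMap (ZMod p) L).injective p
    -- a root of `q' i`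
    have hqdeg : (q' i).natDegree = (q i).natDegree := by
      have hq0 : q i ≠ 0 := q_ne q hA0 i
      apply natDegree_map_of_leadingCoeff_ne_zero
      intro h0
      apply hℓp
      have h1 : ℓ = (q i).leadingCoeff * (∏ j ∈ univ.erase i, q j).leadingCoeff := by
        rw [hℓ, hA, ← leadingCoeff_mul, Finset.mul_prod_erase _ _ (Finset.mem_univ i)]
      have h2 : ((ℓ : ℤ) : ZMod p) = ψ (q i).leadingCoeff * ψ (∏ j ∈ univ.erase i, q j).leadingCoeff := by
        rw [← map_mul, ← h1]; rfl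
      rw [h2, h0, zero_mul]
    obtain ⟨α, hα⟩ : ∃ α : L, ((q' i).map φ).IsRoot α := by
      apply IsAlgClosed.exists_root
      rw [degree_map]
      intro h0
      have h1 : (q' i).natDegree = 0 := natDegree_eq_zero_iff_degree_le_zero.2 h0.le
      exact hi (by rw [← hqdeg, h1])
    have hsepL : (∏ i, (q' i).map φ).Separable := by
      rw [← Polynomial.map_prod]
      exact hsep'.map
    have hDL : (D : L) ≠ 0 := by
      have h1 : φ (D : ZMod p) ≠ 0 := by
        rw [Ne, map_eq_zero]; exact hDp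
      rwa [map_natCast] at h1
    have htL : (D : L) * (t i : L) = φ ((r i : ℤ) : ZMod p) := by
      rw [← htmod i, map_mul, map_natCast, map_natCast]
    have hloc1 := local_at_root (D := D) (Q' := fun i => (q' i).map φ)
      (r := fun i => φ ((r i : ℤ) : ZMod p)) (R := (R.map ψ).map φ) (π := X - C α) hDL hsepL i
      (irreducible_X_sub_C α)
      (by
        rw [derivative_X_sub_C]
        intro h
        exact (irreducible_X_sub_C α).not_isUnit (isUnit_of_dvd_one h))
      (dvd_iff_isRoot.2 hα) htL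
    have e1 : (((Lop D q r R) 2).map ψ).map φ = C (D : L) * ∏ i, (q' i).map φ := by
      rw [hP, Polynomial.map_mul, Polynomial.map_prod, Polynomial.map_C, map_natCast]
    have e2 : (((Lop D q r R) 1).map ψ).map φ =
        ∑ i, C ((D : L) - φ ((r i : ℤ) : ZMod p)) * derivative ((q' i).map φ) *
          ∏ j ∈ univ.erase i, (q' j).map φ := by
      rw [hQ, Polynomial.map_sum]
      apply Finset.sum_congr rfl
      intro j _
      rw [Polynomial.map_mul, Polynomial.map_mul, Polynomial.map_prod, Polynomial.map_C,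
        ← derivative_map, map_sub, map_natCast]
    have hfL := Sol_map φ hf'
    have hgL := Sol_map φ hg'
    rw [e1, e2, hRR] at hfL hgL
    have := root_bound p hloc1 (htp i) hfL hgL (Wr_map φ hw')
    rwa [natDegree_map, natDegree_map] at this
  -- indicial equation at infinity
  have hρ : ((Bc D q r).coeff (A.natDegree - 1) : ℤ) =
      (a + b + D) * ℓ := by
    rw [Bc_coeff D q r hA0 hn1, ← hA, ← hℓ]
    congr 1
    linear_combination -hab
  have hind : ∀ x : ℕ, (((Lop D q r R) 2).map ψ).coeff A.natDegree *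
        ((x : ZMod p) * ((x : ZMod p) - 1)) +
      (((Lop D q r R) 1).map ψ).coeff (A.natDegree - 1) * x +
      (((Lop D q r R) 0).map ψ).coeff (A.natDegree - 2) = 0 →
      (p : ℤ) ∣ D * x + a ∨ (p : ℤ) ∣ D * x + b := by
    intro x hx
    rw [hP2, hQ2, hRR, coeff_map, coeff_map, coeff_map, hρ, coeff_C_mul] at hx
    have h1 : ψ ((D : ℤ) * R.coeff (A.natDegree - 2)) = ψ (a * b * ℓ) := by rw [hR']
    have h2 : A.coeff A.natDegree = ℓ := rfl
    rw [h2] at hx
    simp only [hψ, eq_intCast, Int.cast_mul, Int.cast_add, Int.cast_natCast] at hx h1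
    have h3 : (ℓ : ZMod p) * ((((D * x + a : ℤ)) : ZMod p) * ((D * x + b : ℤ) : ZMod p)) = 0 := by
      push_cast
      linear_combination (D : ZMod p) * hx - h1
    rcases mul_eq_zero.1 h3 with h4 | h4
    · exact absurd h4 hℓp
    · rcases mul_eq_zero.1 h4 with h5 | h5
      · left; exact (ZMod.intCast_zmod_eq_zero_iff_dvd _ _).1 h5
      · right; exact (ZMod.intCast_zmod_eq_zero_iff_dvd _ _).1 h5
  set d := f'.natDegree with hddef
  set e := g'.natDegree with hedef
  have hsame : ∀ y : ℤ, (p : ℤ) ∣ D * d + y → (p : ℤ) ∣ D * e + y → False := by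
    intro y h1 h2
    apply hde
    have h3 := (ZMod.intCast_zmod_eq_zero_iff_dvd _ p).2 h1
    have h4 := (ZMod.intCast_zmod_eq_zero_iff_dvd _ p).2 h2
    push_cast at h3 h4
    apply mul_left_cancel₀ hDp
    linear_combination h3 - h4
  have haabs : |a| < (p : ℤ) := by
    rw [Int.abs_eq_natAbs]
    exact_mod_cast (by omega : a.natAbs < p)
  have hbabs : |b| < (p : ℤ) := by
    rw [Int.abs_eq_natAbs]
    exact_mod_cast (by omega : b.natAbs < p)
  have hp0 : (0 : ℤ) < p := by exact_mod_cast hp.out.pos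
  -- the two degrees
  have hlow : ((p : ℤ) * ((c * a) % D) ≤ D * d + a ∧ (p : ℤ) * ((c * b) % D) ≤ D * e + b) ∨
      ((p : ℤ) * ((c * b) % D) ≤ D * d + b ∧ (p : ℤ) * ((c * a) % D) ≤ D * e + a) := by
    rcases hind d hd with h1 | h1 <;> rcases hind e he with h2 | h2
    · exact absurd (hsame a h1 h2) id
    · exact Or.inl ⟨lower hD haabs hpc h1, lower hD hbabs hpc h2⟩
    · exact Or.inr ⟨lower hD hbabs hpc h1, lower hD haabs hpc h2⟩
    · exact absurd (hsame b h1 h2) id
  -- degree of S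
  have hSdeg : S.natDegree ≤ ∑ i, (q i).natDegree * (t i - 1) := by
    rw [hS]
    refine (natDegree_prod_le _ _).trans (Finset.sum_le_sum fun i _ => ?_)
    refine natDegree_pow_le.trans ?_
    rw [mul_comm]
    exact Nat.mul_le_mul_right _ natDegree_map_le
  have hSdeg' : (D : ℤ) * S.natDegree ≤
      ∑ i, ((q i).natDegree : ℤ) * (r i + p * ((-(c * r i)) % D) - D) := by
    have h1 : ((S.natDegree : ℕ) : ℤ) ≤ ∑ i, ((q i).natDegree : ℤ) * ((t i : ℤ) - 1) := by
      have h2 : ((S.natDegree : ℕ) : ℤ) ≤ ((∑ i, (q i).natDegree * (t i - 1) : ℕ) : ℤ) := by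
        exact_mod_cast hSdeg
      refine h2.trans (le_of_eq ?_)
      push_cast
      apply Finset.sum_congr rfl
      intro i _
      rw [Nat.cast_sub (ht1 i)]
      simp
    have h2 := mul_le_mul_of_nonneg_left h1 (show (0 : ℤ) ≤ D by positivity)
    refine h2.trans (le_of_eq ?_)
    rw [Finset.mul_sum]
    apply Finset.sum_congr rfl
    intro i _
    rw [← ht i]; ring
  have hsum' : ∑ i, ((q i).natDegree : ℤ) * (r i + p * ((-(c * r i)) % D) - D) =
      ∑ i, r i * (q i).natDegree + p * ∑ i, ((q i).natDegree : ℤ) * ((-(c * r i)) % D) -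
        D * A.natDegree := by
    have h1 : (A.natDegree : ℤ) = ∑ i, ((q i).natDegree : ℤ) := by
      rw [hA, natDegree_A q hA0]; push_cast; rfl
    rw [h1, Finset.mul_sum, Finset.mul_sum, ← Finset.sum_add_distrib, ← Finset.sum_sub_distrib]
    apply Finset.sum_congr rfl
    intro i _
    ring
  rw [hsum'] at hSdeg'
  have htot : (D : ℤ) * (d + e) + a + b ≤
      p * ∑ i, ((q i).natDegree : ℤ) * ((-(c * r i)) % D) := by
    have h1 : ((d + e : ℕ) : ℤ) ≤ S.natDegree + 1 := by exact_mod_cast hsum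
    have h2 := mul_le_mul_of_nonneg_left h1 (show (0 : ℤ) ≤ D by positivity)
    push_cast at h2
    linarith
  have hfin : (p : ℤ) * ((c * a) % D + (c * b) % D) ≤
      p * ∑ i, ((q i).natDegree : ℤ) * ((-(c * r i)) % D) := by
    rcases hlow with ⟨h1, h2⟩ | ⟨h1, h2⟩ <;> linarith
  refine ⟨le_of_mul_le_mul_left hfin hp0, ?_⟩
  intro heq i hi
  have h1 := hroot i hi
  -- upper bound for the degrees
  set x1 := (c * a) % (D : ℤ) with hx1
  set x2 := (c * b) % (D : ℤ) with hx2
  have hDpos : (0 : ℤ) < D := by exact_mod_cast hD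
  have hmul : (p : ℤ) * ∑ i, ((q i).natDegree : ℤ) * ((-(c * r i)) % D) = p * (x1 + x2) := by
    rw [heq]
  rw [hmul] at htot
  have hup : ∀ y : ℤ, y = (d : ℤ) ∨ y = (e : ℤ) → D * y ≤ p * max x1 x2 + (|a| + |b|) := by
    intro y hy
    have m1 : (p : ℤ) * x1 ≤ p * max x1 x2 := mul_le_mul_of_nonneg_left (le_max_left _ _) hp0.le
    have m2 : (p : ℤ) * x2 ≤ p * max x1 x2 := mul_le_mul_of_nonneg_left (le_max_right _ _) hp0.le
    have n1 := neg_abs_le a
    have n2 := neg_abs_le b
    have n3 := abs_nonneg a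
    have n4 := abs_nonneg b
    rcases hlow with ⟨h1, h2⟩ | ⟨h1, h2⟩ <;> rcases hy with rfl | rfl <;> linarith
  have htle : (D : ℤ) * t i ≤ p * max x1 x2 + (|a| + |b|) := by
    rcases le_max_iff.1 h1 with h2 | h2
    · have h3 : (D : ℤ) * t i ≤ D * d := mul_le_mul_of_nonneg_left (by exact_mod_cast h2) hDpos.le
      exact h3.trans (hup _ (Or.inl rfl))
    · have h3 : (D : ℤ) * t i ≤ D * e := mul_le_mul_of_nonneg_left (by exact_mod_cast h2) hDpos.le
      exact h3.trans (hup _ (Or.inr rfl))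
  rw [ht i] at htle
  by_contra hcon
  push Not at hcon
  have h5 : (p : ℤ) * (max x1 x2 + 1) ≤ p * ((-(c * r i)) % D) :=
    mul_le_mul_of_nonneg_left (by omega) hp0.le
  have h6 : (p : ℤ) ≤ |a| + |b| + |r i| := by
    have := neg_abs_le (r i)
    linarith
  have h7 : |a| + |b| + |r i| < (p : ℤ) := by
    rw [Int.abs_eq_natAbs, Int.abs_eq_natAbs, Int.abs_eq_natAbs]
    have := hrabs' i
    exact_mod_cast (by omega : a.natAbs + b.natAbs + (r i).natAbs < p)
  linarith

end Pool.Agent.W280.PC
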