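import Mathlib

set_option autoImplicit false

/-!
At most three points: bookkeeping.
-/

namespace Pool.Agent.W280.PC

open Finset

lemma pad {ι : Type*} [DecidableEq ι] (T : Finset ι) (hT : T.card ≤ 3) (r : ι → ℤ) :
    ∃ ρ : Fin 3 → ℤ, (∀ J : Finset (Fin 3), ∃ I ⊆ T, ∑ j ∈ J, ρ j = ∑ t ∈ I, r t) ∧
      (∀ G : ℤ → ℤ, G 0 = 0 → ∑ j, G (ρ j) = ∑ t ∈ T, G (r t)) ∧
      (∀ j, ρ j = 0 ∨ ∃ t ∈ T, ρ j = r t) := by
  have hcard : Fintype.card T ≤ Fintype.card (Fin 3) := by simpa using hT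
  obtain ⟨e⟩ := Function.Embedding.nonempty_of_card_le hcard
  set φ : ι → Fin 3 := fun t => if h : t ∈ T then e ⟨t, h⟩ else 0 with hφ
  have hinj : ∀ s ∈ T, ∀ t ∈ T, φ s = φ t → s = t := by
    intro s hs t ht h
    simp only [hφ, dif_pos hs, dif_pos ht] at h
    have := e.injective h
    simpa using this
  have hfib : ∀ j, T.filter (fun t => φ t = j) = ∅ ∨ ∃ t ∈ T, T.filter (fun t => φ t = j) = {t} := by
    intro j
    rcases Finset.eq_empty_or_nonempty (T.filter (fun t => φ t = j)) with h | ⟨t, ht⟩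
    · exact Or.inl h
    · right
      rw [Finset.mem_filter] at ht
      refine ⟨t, ht.1, ?_⟩
      ext s
      rw [Finset.mem_filter, Finset.mem_singleton]
      constructor
      · rintro ⟨h1, h2⟩
        exact hinj s h1 t ht.1 (h2.trans ht.2.symm)
      · rintro rfl
        exact ht
  refine ⟨fun j => ∑ t ∈ T.filter (fun t => φ t = j), r t, ?_, ?_, ?_⟩
  · intro J
    refine ⟨T.filter (fun t => φ t ∈ J), Finset.filter_subset _ _, ?_⟩
    rw [← Finset.sum_fiberwise_of_maps_to (s := T.filter (fun t => φ t ∈ J)) (t := J) (g := φ)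
      (fun x hx => (Finset.mem_filter.1 hx).2)]
    apply Finset.sum_congr rfl
    intro j hj
    apply Finset.sum_congr _ (fun _ _ => rfl)
    ext s
    simp only [Finset.mem_filter]
    constructor
    · rintro ⟨h1, h2⟩
      exact ⟨⟨h1, h2 ▸ hj⟩, h2⟩
    · rintro ⟨⟨h1, -⟩, h2⟩
      exact ⟨h1, h2⟩
  · intro G hG
    rw [← Finset.sum_fiberwise_of_maps_to (s := T) (t := univ) (g := φ)
      (fun x _ => Finset.mem_univ _)]
    apply Finset.sum_congr rfl
    intro j _
    show G (∑ t ∈ T.filter (fun t => φ t = j), r t) = _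
    rcases hfib j with h | ⟨t, -, h⟩
    · rw [h]; simp [hG]
    · rw [h]; simp
  · intro j
    show (∑ t ∈ T.filter (fun t => φ t = j), r t) = 0 ∨ ∃ t ∈ T,
      (∑ t ∈ T.filter (fun t => φ t = j), r t) = r t
    rcases hfib j with h | ⟨t, ht, h⟩
    · left; rw [h]; simp
    · right; exact ⟨t, ht, by rw [h]; simp⟩

/-- sums over sets of marked points -/
lemma sum_sub {k : ℕ} (n : Fin k → ℕ) (r : Fin k → ℤ) (I : Finset (Σ i : Fin k, Fin (n i))) :
    ∃ e : Fin k → ℕ, (∀ i, e i ≤ n i) ∧ ∑ t ∈ I, r t.1 = ∑ i, (e i : ℤ) * r i := by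
  classical
  refine ⟨fun i => (I.filter (fun t => t.1 = i)).card, ?_, ?_⟩
  · intro i
    have h1 : (I.filter (fun t => t.1 = i)) ⊆
        (Finset.univ : Finset (Fin (n i))).map (Function.Embedding.sigmaMk i) := by
      rintro ⟨j, s⟩ ht
      rw [Finset.mem_filter] at ht
      obtain ⟨-, h2⟩ := ht
      simp only at h2
      subst h2
      rw [Finset.mem_map]
      exact ⟨s, Finset.mem_univ _, rfl⟩
    have h2 := Finset.card_le_card h1
    rwa [Finset.card_map, Finset.card_univ, Fintype.card_fin] at h2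
  · rw [← Finset.sum_fiberwise_of_maps_to (s := I) (t := univ) (g := fun t => t.1)
      (fun x _ => Finset.mem_univ _)]
    apply Finset.sum_congr rfl
    intro i _
    rw [Finset.sum_congr rfl (fun x hx => by rw [(Finset.mem_filter.1 hx).2] :
      ∀ x ∈ I.filter (fun t => t.1 = i), r x.1 = r i)]
    rw [Finset.sum_const, nsmul_eq_mul]

lemma sum_sigma_const {k : ℕ} (n : Fin k → ℕ) (P : Fin k → Prop) [DecidablePred P]
    (G : Fin k → ℤ) :
    ∑ t ∈ (univ : Finset (Σ i : Fin k, Fin (n i))).filter (fun t => P t.1), G t.1 =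
      ∑ i, if P i then (n i : ℤ) * G i else 0 := by
  rw [Finset.sum_filter, ← Finset.univ_sigma_univ, Finset.sum_sigma]
  apply Finset.sum_congr rfl
  intro i _
  simp only [Finset.sum_const, Finset.card_univ, Fintype.card_fin, nsmul_eq_mul]
  split_ifs <;> simp

end Pool.Agent.W280.PC
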