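import Pool.Agent.W280.PC.Average
import Pool.Agent.W280.PC.ModP
import Pool.Agent.W280.PC.Pad

set_option autoImplicit false

/-!
Second order Fuchsian operators with at most four non-integral singular points.
-/

namespace Pool.Agent.W280.PC

open Polynomial Finset H921PC

theorem heun {k D : ℕ} (q : Fin k → ℤ[X]) (r : Fin k → ℤ) (a b : ℤ) (R : ℤ[X])
    (hD : 1 < D)
    (hsep : ((∏ i, q i).map (Int.castRingHom ℚ)).Separable)
    (hn : 2 ≤ (∏ i, q i).natDegree)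
    (hr : ∀ i, (D : ℤ) ∣ r i → 0 < r i)
    (hab : a + b + ∑ i, r i * (q i).natDegree = D * ((∏ i, q i).natDegree - 1))
    (hR : R.natDegree ≤ (∏ i, q i).natDegree - 2)
    (hR' : (D : ℤ) * R.coeff ((∏ i, q i).natDegree - 2) = a * b * (∏ i, q i).leadingCoeff)
    (h3 : ∑ i, (if (D : ℤ) ∣ r i then 0 else (q i).natDegree) ≤ 3)
    (hri : ∀ i, IsCoprime (r i) (D : ℤ) ∨ (D : ℤ) ∣ r i)
    (habD : IsCoprime (a - b) (D : ℤ) ∨ (D : ℤ) ∣ a - b)
    (hres : ∀ e : Fin k → ℕ, (∀ i, e i ≤ (q i).natDegree) →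
      IsCoprime (a + ∑ i, (e i : ℤ) * r i) (D : ℤ)) :
    ∃ c : ℤ, IsCoprime c (D : ℤ) ∧ ∃ N : ℕ, ∀ p : ℕ, N < p → ∀ _hp : Fact p.Prime,
      (D : ℤ) ∣ p * c - 1 → ¬ FullModP (Lop D q r R) p := by
  classical
  by_contra hcon
  push Not at hcon
  have hD0 : 0 < D := by omega
  have hDpos : (0 : ℤ) < D := by exact_mod_cast hD0
  -- the marked points
  set n : Fin k → ℕ := fun i => (q i).natDegree with hndef
  set T : Finset (Σ i : Fin k, Fin (n i)) := univ.filter (fun t => ¬ (D : ℤ) ∣ r t.1) with hT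
  have hcard : T.card ≤ 3 := by
    have h1 : ((T.card : ℕ) : ℤ) = ∑ t ∈ T, (1 : ℤ) := by simp
    have h2 := sum_sigma_const n (fun i => ¬ (D : ℤ) ∣ r i) (fun _ => 1)
    rw [← hT] at h2
    rw [h2] at h1
    have h4 : (∑ i, (if ¬ (D : ℤ) ∣ r i then (n i : ℤ) * 1 else 0)) =
        ((∑ i, (if (D : ℤ) ∣ r i then 0 else (q i).natDegree) : ℕ) : ℤ) := by
      push_cast
      apply Finset.sum_congr rfl
      intro i _
      by_cases h : (D : ℤ) ∣ r i <;> simp [h, hndef]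
    rw [h4] at h1
    have : T.card = ∑ i, (if (D : ℤ) ∣ r i then 0 else (q i).natDegree) := by exact_mod_cast h1
    omega
  obtain ⟨ρ, hρ1, hρ2, hρ3⟩ := pad T hcard (fun t => r t.1)
  -- sums over all points
  have hG : ∀ G : ℤ → ℤ, G 0 = 0 → (∀ z, (D : ℤ) ∣ z → G z = 0) →
      ∑ j, G (ρ j) = ∑ i, ((q i).natDegree : ℤ) * G (r i) := by
    intro G hG0 hG1
    rw [hρ2 G hG0, sum_sigma_const n (fun i => ¬ (D : ℤ) ∣ r i) (fun i => G (r i))]
    apply Finset.sum_congr rfl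
    intro i _
    by_cases h : (D : ℤ) ∣ r i
    · rw [if_neg (not_not.2 h), hG1 _ h, mul_zero]
    · rw [if_pos h]
  have hBC : ∀ J : Finset (Fin 3), IsCoprime (a + ∑ j ∈ J, ρ j) (D : ℤ) := by
    intro J
    obtain ⟨I, -, hI⟩ := hρ1 J
    obtain ⟨e, he1, he2⟩ := sum_sub n r I
    rw [hI, he2]
    exact hres e he1
  have hρc : ∀ j, IsCoprime (ρ j) (D : ℤ) ∨ (D : ℤ) ∣ ρ j := by
    intro j
    rcases hρ3 j with h | ⟨t, -, h⟩
    · right; rw [h]; exact dvd_zero _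
    · rw [h]; exact hri _
  have hsum : (D : ℤ) ∣ a + b + ρ 0 + ρ 1 + ρ 2 := by
    have h1 : ∑ j, ρ j = ∑ i, (if ¬ (D : ℤ) ∣ r i then (n i : ℤ) * r i else 0) := by
      rw [hρ2 (fun z => z) rfl, ← sum_sigma_const n (fun i => ¬ (D : ℤ) ∣ r i) r]
    have h2 : (D : ℤ) ∣ ∑ i, (r i * (q i).natDegree -
        (if ¬ (D : ℤ) ∣ r i then (n i : ℤ) * r i else 0)) := by
      apply Finset.dvd_sum
      intro i _
      by_cases h : (D : ℤ) ∣ r i
      · rw [if_neg (not_not.2 h), sub_zero]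
        exact h.mul_right _
      · rw [if_pos h]
        simp [hndef, mul_comm]
    rw [Finset.sum_sub_distrib, ← h1] at h2
    rw [Fin.sum_univ_three] at h2
    obtain ⟨x, hx⟩ := h2
    exact ⟨((∏ i, q i).natDegree - 1) - x, by linear_combination hab - hx⟩
  -- the inequalities
  have hU : ∀ c : ℤ, IsCoprime c (D : ℤ) → Uni D a b (ρ 0) (ρ 1) (ρ 2) c := by
    intro c hc
    obtain ⟨N, hN⟩ := modP' hD0 q r a b c R hsep hn hr hab hR hR'
    obtain ⟨p, hpN, hp, hpc, hfull⟩ := hcon c hc N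
    obtain ⟨h1, h2⟩ := hN p hpN hp hpc hfull
    have hS := hG (fun z => (-(c * z)) % (D : ℤ)) (by simp) (by
      intro z hz
      exact Int.emod_eq_zero_of_dvd ((dvd_neg).2 (hz.mul_left c)))
    rw [Fin.sum_univ_three] at hS
    rw [← hS] at h1 h2
    refine ⟨h1, fun heq => ?_⟩
    have h4 := h2 heq
    have h5 : ∀ j, (-(c * ρ j)) % (D : ℤ) ≤ max ((c * a) % D) ((c * b) % D) := by
      intro j
      rcases hρ3 j with h | ⟨t, -, h⟩
      · rw [h, mul_zero, neg_zero, Int.zero_emod]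
        exact le_max_of_le_left (Int.emod_nonneg _ hDpos.ne')
      · rw [h]
        apply h4
        have := t.2.pos
        exact this.ne'
    exact ⟨h5 0, h5 1, h5 2⟩
  have e0 := hBC ∅
  have e1 := hBC {0}
  have e2 := hBC {1}
  have e3 := hBC {2}
  have e12 := hBC {0, 1}
  have e13 := hBC {0, 2}
  have e23 := hBC {1, 2}
  have e123 := hBC univ
  rw [Finset.sum_empty, add_zero] at e0
  rw [Finset.sum_singleton] at e1 e2 e3
  rw [Finset.sum_pair (by decide)] at e12 e13 e23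
  rw [Fin.sum_univ_three] at e123
  exact arith hD hsum (hρc 0) (hρc 1) (hρc 2) habD e0 e1 e2 e3 e12 e13 e23 e123 hU

end Pool.Agent.W280.PC
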