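import Pool.Agent.W280.PC.Link

set_option autoImplicit false
set_option maxHeartbeats 4000000

/-!
Fuchsian systems of rank `r` with `n` finite poles, `(n - 1) (r - 1) = 2`.
-/

namespace Pool.Agent.W280.PC

open Finset Pool.Agent.W432.PC Polynomial

universe u

variable {R : Type u} [CommRing R] [IsDomain R] [CharZero R]

/-- There is a residue class in which all large residue characteristics have nonvanishing
`p`-curvature. -/
def BadClass {n r : ℕ} (α : Fin n → R) (A : Fin n → Matrix (Fin r) (Fin r) R) (N : ℕ) : Prop :=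
  ∃ a : ℤ, IsCoprime a (N : ℤ) ∧ ∃ P₀ : ℕ, ∀ p : ℕ, p.Prime → P₀ < p → (N : ℤ) ∣ a * p + 1 →
    ∀ (𝔪 : Ideal R) [𝔪.IsMaximal], (p : R) ∈ 𝔪 → ¬ PCurvZeroAt α A 𝔪

lemma not_dvd_of_coprime {N : ℕ} (hN : 1 < N) {z : ℤ} (hz : IsCoprime z (N : ℤ)) :
    ¬ (N : ℤ) ∣ z := by
  intro hdvd
  have h1 : IsUnit (N : ℤ) := hz.isUnit_of_dvd' hdvd dvd_rfl
  rw [Int.isUnit_iff] at h1
  rcases h1 with h1 | h1 <;> omega

lemma trace_rel {n r : ℕ} (A : Fin n → Matrix (Fin r) (Fin r) R) (N : ℕ) (hN : 1 < N)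
    (e : Fin n → Fin r → ℤ) (e' : Fin r → ℤ)
    (he : ∀ j, HasExponents (A j) (fun l => (e j l : ℚ) / N))
    (he' : HasExponents (∑ j, A j) (fun l => (e' l : ℚ) / N)) :
    ∑ j, ∑ l, e j l = ∑ l, e' l := by
  have := charZero_fraction (R := R)
  have h1 := he'.trace
  rw [Matrix.trace_sum, map_sum] at h1
  have h2 : ∑ j, algebraMap R (FractionRing R) (A j).trace =
      ((∑ j, ∑ l, (e j l : ℚ) / N : ℚ) : FractionRing R) := by
    push_cast
    refine Finset.sum_congr rfl fun j _ => ?_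
    rw [(he j).trace]
    push_cast
    rfl
  rw [h2] at h1
  have h3 : (∑ j, ∑ l, (e j l : ℚ) / N : ℚ) = ∑ l, (e' l : ℚ) / N := by exact_mod_cast h1
  simp only [← Finset.sum_div] at h3
  have hNq : (N : ℚ) ≠ 0 := by
    have : N ≠ 0 := by omega
    exact_mod_cast this
  rw [div_left_inj' hNq] at h3
  exact_mod_cast h3

theorem affine3 (α : Fin 2 → R) (hα : ∀ i j, i ≠ j → IsUnit (α i - α j))
    (A : Fin 2 → Matrix (Fin 3) (Fin 3) R) (N : ℕ) (hN : 1 < N)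
    (e : Fin 2 → Fin 3 → ℤ) (e' : Fin 3 → ℤ)
    (he : ∀ j, HasExponents (A j) (fun l => (e j l : ℚ) / N))
    (he' : HasExponents (∑ j, A j) (fun l => (e' l : ℚ) / N))
    (h1 : ∀ j l l', IsCoprime (e j l - e j l') (N : ℤ) ∨ (N : ℤ) ∣ e j l - e j l')
    (h2 : ∀ l l', IsCoprime (e' l - e' l') (N : ℤ) ∨ (N : ℤ) ∣ e' l - e' l')
    (h3 : ∀ (κ : Fin 2 → Fin 3) (s : Fin 3), IsCoprime (∑ j, e j (κ j) - e' s) (N : ℤ)) :
    BadClass α A N := by
  by_contra hcon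
  have hNq : (N : ℚ) ≠ 0 := by
    have : N ≠ 0 := by omega
    exact_mod_cast this
  have hsum := trace_rel A N hN e e' he he'
  rw [Fin.sum_univ_two] at hsum
  refine arith3 hN hsum (h1 0) (h1 1) h2 (fun i j k => ?_) (fun a ha => ?_)
  · have := h3 ![i, j] k
    rwa [Fin.sum_univ_two] at this
  · obtain ⟨σ, τ, m1, m2, hI⟩ := ineq_of_not α hα A (fun j l => (e j l : ℚ) / N)
      (fun l => (e' l : ℚ) / N) he he' N hN e e' (fun j l => by field_simp)
      (fun l => by field_simp) a ha (fun κ s => not_dvd_of_coprime hN (h3 κ s))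
      (fun h => hcon ⟨a, ha, h⟩)
    refine ⟨σ 0, σ 1, τ, m1 0, m1 1, m2, ?_⟩
    intro m q i j s hm hq
    have := hI m q ![i, j] s (by rw [Fin.sum_univ_two]; exact hm)
      (by rw [Fin.sum_univ_two]; exact hq)
    rw [Fin.sum_univ_two] at this
    exact this

theorem affine2 (α : Fin 3 → R) (hα : ∀ i j, i ≠ j → IsUnit (α i - α j))
    (A : Fin 3 → Matrix (Fin 2) (Fin 2) R) (N : ℕ) (hN : 1 < N)
    (e : Fin 3 → Fin 2 → ℤ) (e' : Fin 2 → ℤ)
    (he : ∀ j, HasExponents (A j) (fun l => (e j l : ℚ) / N))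
    (he' : HasExponents (∑ j, A j) (fun l => (e' l : ℚ) / N))
    (h1 : ∀ j l l', IsCoprime (e j l - e j l') (N : ℤ) ∨ (N : ℤ) ∣ e j l - e j l')
    (h2 : ∀ l l', IsCoprime (e' l - e' l') (N : ℤ) ∨ (N : ℤ) ∣ e' l - e' l')
    (h3 : ∀ (κ : Fin 3 → Fin 2) (s : Fin 2), IsCoprime (∑ j, e j (κ j) - e' s) (N : ℤ)) :
    BadClass α A N := by
  by_contra hcon
  have hNq : (N : ℚ) ≠ 0 := by
    have : N ≠ 0 := by omega
    exact_mod_cast this
  have hsum := trace_rel A N hN e e' he he'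
  rw [Fin.sum_univ_three] at hsum
  refine arith2 hN hsum (h1 0) (h1 1) (h1 2) h2 (fun i j k s => ?_) (fun a ha => ?_)
  · have := h3 ![i, j, k] s
    rwa [Fin.sum_univ_three] at this
  · obtain ⟨σ, τ, m1, m2, hI⟩ := ineq_of_not α hα A (fun j l => (e j l : ℚ) / N)
      (fun l => (e' l : ℚ) / N) he he' N hN e e' (fun j l => by field_simp)
      (fun l => by field_simp) a ha (fun κ s => not_dvd_of_coprime hN (h3 κ s))
      (fun h => hcon ⟨a, ha, h⟩)
    refine ⟨σ 0, σ 1, σ 2, τ, m1 0, m1 1, m1 2, m2, ?_⟩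
    intro m q i j k s hm hq
    have := hI m q ![i, j, k] s (by rw [Fin.sum_univ_three]; exact hm)
      (by rw [Fin.sum_univ_three]; exact hq)
    rw [Fin.sum_univ_three] at this
    exact this

theorem affine {n r : ℕ} (hnr : (n - 1) * (r - 1) = 2) (α : Fin n → R)
    (hα : ∀ i j, i ≠ j → IsUnit (α i - α j))
    (A : Fin n → Matrix (Fin r) (Fin r) R) (N : ℕ) (hN : 1 < N)
    (e : Fin n → Fin r → ℤ) (e' : Fin r → ℤ)
    (he : ∀ j, HasExponents (A j) (fun l => (e j l : ℚ) / N))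
    (he' : HasExponents (∑ j, A j) (fun l => (e' l : ℚ) / N))
    (h1 : ∀ j l l', IsCoprime (e j l - e j l') (N : ℤ) ∨ (N : ℤ) ∣ e j l - e j l')
    (h2 : ∀ l l', IsCoprime (e' l - e' l') (N : ℤ) ∨ (N : ℤ) ∣ e' l - e' l')
    (h3 : ∀ (κ : Fin n → Fin r) (s : Fin r), IsCoprime (∑ j, e j (κ j) - e' s) (N : ℤ)) :
    BadClass α A N := by
  have hcase : (n = 2 ∧ r = 3) ∨ (n = 3 ∧ r = 2) := by
    have h4 : (n - 1) ∣ 2 := ⟨_, hnr.symm⟩
    have h5 := (Nat.dvd_prime Nat.prime_two).1 h4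
    rcases h5 with h5 | h5
    · rw [h5] at hnr; left; omega
    · rw [h5] at hnr; right; omega
  rcases hcase with ⟨rfl, rfl⟩ | ⟨rfl, rfl⟩
  · exact affine3 α hα A N hN e e' he he' h1 h2 h3
  · exact affine2 α hα A N hN e e' he he' h1 h2 h3

end Pool.Agent.W280.PC
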