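import Mathlib

set_option autoImplicit false

/-!
Arithmetic of the local exponents: averaging a quadratic function of the residues over the units.
-/

namespace Pool.Agent.W280.PC

open Finset

/-- the function `z (z - D)` of the residue of `z` -/
def Q (D : ℕ) (z : ℤ) : ℤ := (z % D) * (z % D - D)

lemma Q_eq {D : ℕ} (hD : 0 < D) {z y : ℤ} (h : (D : ℤ) ∣ z - y) (hy : |y| ≤ D) :
    Q D z = y ^ 2 - D * |y| := by
  have hD' : (0 : ℤ) < D := by exact_mod_cast hD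
  have h1 : z % D = y % D := (Int.emod_emod_of_dvd z (dvd_refl _)).symm.trans
    (by rw [Int.emod_emod_of_dvd z (dvd_refl _)]; exact Int.emod_eq_emod_iff_emod_sub_eq_zero.2
          (Int.emod_eq_zero_of_dvd h))
  unfold Q
  rw [h1]
  have h2 := abs_le.1 hy
  rcases lt_or_ge y 0 with h3 | h3
  · have h4 : y % (D : ℤ) = y + D := by
      rw [← Int.add_emod_right]
      exact Int.emod_eq_of_lt (by linarith [h2.1]) (by linarith)
    rw [h4, abs_of_neg h3]; ring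
  · rcases h2.2.eq_or_lt with h4 | h4
    · rw [h4, Int.emod_self, abs_of_pos hD']; ring
    · rw [Int.emod_eq_of_lt h3 h4, abs_of_nonneg h3]; ring

lemma Q_nonpos {D : ℕ} (hD : 0 < D) (z : ℤ) : Q D z ≤ 0 := by
  have hD' : (0 : ℤ) < D := by exact_mod_cast hD
  have h1 := Int.emod_nonneg z hD'.ne'
  have h2 := Int.emod_lt_of_pos z hD'
  exact mul_nonpos_of_nonneg_of_nonpos h1 (by linarith)

lemma Q_neg {D : ℕ} (hD : 0 < D) (z : ℤ) : Q D (-z) = Q D z := by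
  have hD' : (0 : ℤ) < D := by exact_mod_cast hD
  have h1 := Int.emod_nonneg z hD'.ne'
  have h2 := Int.emod_lt_of_pos z hD'
  have h3 : |(-(z % D))| ≤ D := by rw [abs_neg, abs_of_nonneg h1]; exact h2.le
  have h5 : (D : ℤ) ∣ z - z % D := Int.dvd_self_sub_emod
  have h6 : (D : ℤ) ∣ -z - -(z % D) := by
    have : -z - -(z % D) = -(z - z % D) := by ring
    rw [this]; exact (dvd_neg).2 h5
  rw [Q_eq hD h6 h3, Q_eq hD h5 (by rwa [abs_neg] at h3), abs_neg]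
  ring

lemma Q_congr {D : ℕ} {z y : ℤ} (h : (D : ℤ) ∣ z - y) : Q D z = Q D y := by
  have h1 : z % D = y % D := Int.emod_eq_emod_iff_emod_sub_eq_zero.2
          (Int.emod_eq_zero_of_dvd h)
  unfold Q
  rw [h1]

lemma Q_zero {D : ℕ} {z : ℤ} (h : (D : ℤ) ∣ z) : Q D z = 0 := by
  unfold Q
  rw [Int.emod_eq_zero_of_dvd h, zero_mul]

/-- the combination of the quadratic functions of the four exponent differences and the eight
forms `a + ∑_I r` -/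
def Phi (D : ℕ) (a b r1 r2 r3 : ℤ) : ℤ :=
  2 * (Q D r1 + Q D r2 + Q D r3 + Q D (a - b)) -
    (Q D a + Q D (a + r1) + Q D (a + r2) + Q D (a + r3) + Q D (a + (r1 + r2)) + Q D (a + (r1 + r3))
      + Q D (a + (r2 + r3)) + Q D (a + (r1 + r2 + r3)))

lemma Phi_neg {D : ℕ} (hD : 0 < D) (a b r1 r2 r3 : ℤ) :
    Phi D (-a) (-b) (-r1) (-r2) (-r3) = Phi D a b r1 r2 r3 := by
  unfold Phi
  have e1 : -a - -b = -(a - b) := by ring
  have e2 : ∀ x, -a + -x = -(a + x) := fun x => by ring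
  have e3 : -r1 + -r2 = -(r1 + r2) := by ring
  have e4 : -r1 + -r3 = -(r1 + r3) := by ring
  have e5 : -r2 + -r3 = -(r2 + r3) := by ring
  have e6 : -r1 + -r2 + -r3 = -(r1 + r2 + r3) := by ring
  rw [e1, e6, e3, e4, e5]
  simp only [e2, Q_neg hD]

lemma Phi_formula {D : ℕ} (hD : 0 < D) {a b r1 r2 r3 : ℤ} (hsum : (D : ℤ) ∣ a + b + r1 + r2 + r3)
    {w1 w2 w3 x1 x2 : ℤ} (h1 : w1 = (-r1) % D) (h2 : w2 = (-r2) % D) (h3 : w3 = (-r3) % D)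
    (hx1 : x1 = a % D) (hx2 : x2 = b % D) (hm : w1 + w2 + w3 = x1 + x2) :
    Phi D a b r1 r2 r3 = D * (|x1 - w1| + |x1 - w2| + |x1 - w3| + |x2 - w1| + |x2 - w2| +
      |x2 - w3| - (x1 + x2) - 2 * |x1 - x2|) := by
  have hD' : (0 : ℤ) < D := by exact_mod_cast hD
  have b1 : 0 ≤ w1 := h1 ▸ Int.emod_nonneg _ hD'.ne'
  have b1' : w1 < D := h1 ▸ Int.emod_lt_of_pos _ hD'
  have b2 : 0 ≤ w2 := h2 ▸ Int.emod_nonneg _ hD'.ne'
  have b2' : w2 < D := h2 ▸ Int.emod_lt_of_pos _ hD'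
  have b3 : 0 ≤ w3 := h3 ▸ Int.emod_nonneg _ hD'.ne'
  have b3' : w3 < D := h3 ▸ Int.emod_lt_of_pos _ hD'
  have b4 : 0 ≤ x1 := hx1 ▸ Int.emod_nonneg _ hD'.ne'
  have b4' : x1 < D := hx1 ▸ Int.emod_lt_of_pos _ hD'
  have b5 : 0 ≤ x2 := hx2 ▸ Int.emod_nonneg _ hD'.ne'
  have b5' : x2 < D := hx2 ▸ Int.emod_lt_of_pos _ hD'
  have c1 : (D : ℤ) ∣ -r1 - w1 := h1 ▸ Int.dvd_self_sub_emod
  have c2 : (D : ℤ) ∣ -r2 - w2 := h2 ▸ Int.dvd_self_sub_emod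
  have c3 : (D : ℤ) ∣ -r3 - w3 := h3 ▸ Int.dvd_self_sub_emod
  have c4 : (D : ℤ) ∣ a - x1 := hx1 ▸ Int.dvd_self_sub_emod
  have c5 : (D : ℤ) ∣ b - x2 := hx2 ▸ Int.dvd_self_sub_emod
  obtain ⟨k1, e1⟩ := c1
  obtain ⟨k2, e2⟩ := c2
  obtain ⟨k3, e3⟩ := c3
  obtain ⟨k4, e4⟩ := c4
  obtain ⟨k5, e5⟩ := c5
  have q1 : Q D r1 = w1 ^ 2 - D * w1 := by
    have := Q_eq hD (z := r1) (y := -w1) ⟨-k1, by linear_combination -e1⟩
      (by rw [abs_neg, abs_of_nonneg b1]; exact b1'.le)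
    rw [this, abs_neg, abs_of_nonneg b1]; ring
  have q2 : Q D r2 = w2 ^ 2 - D * w2 := by
    have := Q_eq hD (z := r2) (y := -w2) ⟨-k2, by linear_combination -e2⟩
      (by rw [abs_neg, abs_of_nonneg b2]; exact b2'.le)
    rw [this, abs_neg, abs_of_nonneg b2]; ring
  have q3 : Q D r3 = w3 ^ 2 - D * w3 := by
    have := Q_eq hD (z := r3) (y := -w3) ⟨-k3, by linear_combination -e3⟩
      (by rw [abs_neg, abs_of_nonneg b3]; exact b3'.le)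
    rw [this, abs_neg, abs_of_nonneg b3]; ring
  have qab : Q D (a - b) = (x1 - x2) ^ 2 - D * |x1 - x2| :=
    Q_eq hD ⟨k4 - k5, by linear_combination e4 - e5⟩ (by rw [abs_le]; constructor <;> linarith)
  have qa : Q D a = x1 ^ 2 - D * x1 := by
    have := Q_eq hD (z := a) (y := x1) ⟨k4, e4⟩ (by rw [abs_of_nonneg b4]; exact b4'.le)
    rw [this, abs_of_nonneg b4]
  have qa1 : Q D (a + r1) = (x1 - w1) ^ 2 - D * |x1 - w1| :=
    Q_eq hD ⟨k4 - k1, by linear_combination e4 - e1⟩ (by rw [abs_le]; constructor <;> linarith)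
  have qa2 : Q D (a + r2) = (x1 - w2) ^ 2 - D * |x1 - w2| :=
    Q_eq hD ⟨k4 - k2, by linear_combination e4 - e2⟩ (by rw [abs_le]; constructor <;> linarith)
  have qa3 : Q D (a + r3) = (x1 - w3) ^ 2 - D * |x1 - w3| :=
    Q_eq hD ⟨k4 - k3, by linear_combination e4 - e3⟩ (by rw [abs_le]; constructor <;> linarith)
  have qa12 : Q D (a + (r1 + r2)) = (w3 - x2) ^ 2 - D * |w3 - x2| :=
    Q_eq hD ⟨k4 - k1 - k2, by linear_combination e4 - e1 - e2 - hm⟩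
      (by rw [abs_le]; constructor <;> linarith)
  have qa13 : Q D (a + (r1 + r3)) = (w2 - x2) ^ 2 - D * |w2 - x2| :=
    Q_eq hD ⟨k4 - k1 - k3, by linear_combination e4 - e1 - e3 - hm⟩
      (by rw [abs_le]; constructor <;> linarith)
  have qa23 : Q D (a + (r2 + r3)) = (w1 - x2) ^ 2 - D * |w1 - x2| :=
    Q_eq hD ⟨k4 - k2 - k3, by linear_combination e4 - e2 - e3 - hm⟩
      (by rw [abs_le]; constructor <;> linarith)
  have qa123 : Q D (a + (r1 + r2 + r3)) = x2 ^ 2 - D * x2 := by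
    have := Q_eq hD (z := a + (r1 + r2 + r3)) (y := -x2)
      ⟨k4 - k1 - k2 - k3, by linear_combination e4 - e1 - e2 - e3 - hm⟩
      (by rw [abs_neg, abs_of_nonneg b5]; exact b5'.le)
    rw [this, abs_neg, abs_of_nonneg b5]; ring
  unfold Phi
  rw [q1, q2, q3, qab, qa, qa1, qa2, qa3, qa12, qa13, qa23, qa123]
  rw [abs_sub_comm w1 x2, abs_sub_comm w2 x2, abs_sub_comm w3 x2]
  have hw : w3 = x1 + x2 - w1 - w2 := by linarith
  generalize |x1 - w1| = A1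
  generalize |x1 - w2| = A2
  generalize |x1 - w3| = A3
  generalize |x2 - w1| = A4
  generalize |x2 - w2| = A5
  generalize |x2 - w3| = A6
  generalize |x1 - x2| = A7
  rw [hw]
  ring

lemma abs_aux {x1 x2 w1 w2 w3 : ℤ} (b1 : 0 ≤ w1) (b2 : 0 ≤ w2) (b3 : 0 ≤ w3) (b4 : 0 ≤ x1)
    (hm : w1 + w2 + w3 = x1 + x2) (hx : x1 ≤ x2) (hw1 : w1 ≤ x2) (hw2 : w2 ≤ x2) (hw3 : w3 ≤ x2) :
    |x1 - w1| + |x1 - w2| + |x1 - w3| + |x2 - w1| + |x2 - w2| + |x2 - w3| - (x1 + x2)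
      - 2 * |x1 - x2| ≤ 0 := by
  rw [abs_of_nonneg (show 0 ≤ x2 - w1 by omega), abs_of_nonneg (show 0 ≤ x2 - w2 by omega),
    abs_of_nonneg (show 0 ≤ x2 - w3 by omega), abs_of_nonpos (show x1 - x2 ≤ 0 by omega)]
  rcases abs_cases (x1 - w1) with ⟨h1, g1⟩ | ⟨h1, g1⟩ <;>
  rcases abs_cases (x1 - w2) with ⟨h2, g2⟩ | ⟨h2, g2⟩ <;>
  rcases abs_cases (x1 - w3) with ⟨h3, g3⟩ | ⟨h3, g3⟩ <;>
  rw [h1, h2, h3] <;> omega

lemma abs_aux' {x1 x2 w1 w2 w3 : ℤ} (b1 : 0 < w1) (b2 : 0 < w2) (b3 : 0 < w3) (b4 : 0 < x1)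
    (hm : w1 + w2 + w3 = x1 + x2) (hx : x1 < x2) (hw1 : w1 < x2) (hw2 : w2 < x2) (hw3 : w3 < x2) :
    |x1 - w1| + |x1 - w2| + |x1 - w3| + |x2 - w1| + |x2 - w2| + |x2 - w3| - (x1 + x2)
      - 2 * |x1 - x2| < 0 := by
  rw [abs_of_nonneg (show 0 ≤ x2 - w1 by omega), abs_of_nonneg (show 0 ≤ x2 - w2 by omega),
    abs_of_nonneg (show 0 ≤ x2 - w3 by omega), abs_of_nonpos (show x1 - x2 ≤ 0 by omega)]
  rcases abs_cases (x1 - w1) with ⟨h1, g1⟩ | ⟨h1, g1⟩ <;>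
  rcases abs_cases (x1 - w2) with ⟨h2, g2⟩ | ⟨h2, g2⟩ <;>
  rcases abs_cases (x1 - w3) with ⟨h3, g3⟩ | ⟨h3, g3⟩ <;>
  rw [h1, h2, h3] <;> omega

/-- the pointwise inequality -/
lemma Phi_nonpos {D : ℕ} (hD : 0 < D) {a b r1 r2 r3 : ℤ}
    (hsum : (D : ℤ) ∣ a + b + r1 + r2 + r3)
    (hm : (-r1) % D + (-r2) % D + (-r3) % D = a % D + b % D)
    (hw1 : (-r1) % D ≤ max (a % D) (b % D)) (hw2 : (-r2) % D ≤ max (a % D) (b % D))
    (hw3 : (-r3) % D ≤ max (a % D) (b % D)) :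
    Phi D a b r1 r2 r3 ≤ 0 := by
  have hD' : (0 : ℤ) < D := by exact_mod_cast hD
  rw [Phi_formula hD hsum rfl rfl rfl rfl rfl hm]
  have b1 : 0 ≤ (-r1) % (D : ℤ) := Int.emod_nonneg _ hD'.ne'
  have b2 : 0 ≤ (-r2) % (D : ℤ) := Int.emod_nonneg _ hD'.ne'
  have b3 : 0 ≤ (-r3) % (D : ℤ) := Int.emod_nonneg _ hD'.ne'
  have b4 : 0 ≤ a % (D : ℤ) := Int.emod_nonneg _ hD'.ne'
  have b5 : 0 ≤ b % (D : ℤ) := Int.emod_nonneg _ hD'.ne'
  generalize (-r1) % (D : ℤ) = w1 at *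
  generalize (-r2) % (D : ℤ) = w2 at *
  generalize (-r3) % (D : ℤ) = w3 at *
  generalize a % (D : ℤ) = x1 at *
  generalize b % (D : ℤ) = x2 at *
  refine mul_nonpos_of_nonneg_of_nonpos hD'.le ?_
  rcases le_total x1 x2 with hx | hx
  · rw [max_eq_right hx] at hw1 hw2 hw3
    exact abs_aux b1 b2 b3 b4 hm hx hw1 hw2 hw3
  · rw [max_eq_left hx] at hw1 hw2 hw3
    have := abs_aux b1 b2 b3 b5 (by linarith) hx hw1 hw2 hw3
    rw [abs_sub_comm x2 x1] at this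
    linarith

/-- the strict pointwise inequality -/
lemma Phi_neg_of {D : ℕ} (hD : 0 < D) {a b r1 r2 r3 : ℤ}
    (hsum : (D : ℤ) ∣ a + b + r1 + r2 + r3)
    (hm : (-r1) % D + (-r2) % D + (-r3) % D = a % D + b % D)
    (hw1 : (-r1) % D ≤ max (a % D) (b % D)) (hw2 : (-r2) % D ≤ max (a % D) (b % D))
    (hw3 : (-r3) % D ≤ max (a % D) (b % D))
    (hr1 : ¬ (D : ℤ) ∣ r1) (hr2 : ¬ (D : ℤ) ∣ r2) (hr3 : ¬ (D : ℤ) ∣ r3)
    (hab : ¬ (D : ℤ) ∣ a - b) (ha : ¬ (D : ℤ) ∣ a) (hb : ¬ (D : ℤ) ∣ b)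
    (h12 : ¬ (D : ℤ) ∣ a + (r1 + r2)) (h13 : ¬ (D : ℤ) ∣ a + (r1 + r3))
    (h23 : ¬ (D : ℤ) ∣ a + (r2 + r3)) (ha1 : ¬ (D : ℤ) ∣ a + r1) (ha2 : ¬ (D : ℤ) ∣ a + r2)
    (ha3 : ¬ (D : ℤ) ∣ a + r3) :
    Phi D a b r1 r2 r3 < 0 := by
  have hD' : (0 : ℤ) < D := by exact_mod_cast hD
  rw [Phi_formula hD hsum rfl rfl rfl rfl rfl hm]
  have b1 : 0 ≤ (-r1) % (D : ℤ) := Int.emod_nonneg _ hD'.ne'
  have b2 : 0 ≤ (-r2) % (D : ℤ) := Int.emod_nonneg _ hD'.ne'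
  have b3 : 0 ≤ (-r3) % (D : ℤ) := Int.emod_nonneg _ hD'.ne'
  have b4 : 0 ≤ a % (D : ℤ) := Int.emod_nonneg _ hD'.ne'
  have b5 : 0 ≤ b % (D : ℤ) := Int.emod_nonneg _ hD'.ne'
  have c1 : (D : ℤ) ∣ -r1 - (-r1) % D := Int.dvd_self_sub_emod
  have c2 : (D : ℤ) ∣ -r2 - (-r2) % D := Int.dvd_self_sub_emod
  have c3 : (D : ℤ) ∣ -r3 - (-r3) % D := Int.dvd_self_sub_emod
  have c4 : (D : ℤ) ∣ a - a % D := Int.dvd_self_sub_emod
  have c5 : (D : ℤ) ∣ b - b % D := Int.dvd_self_sub_emod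
  generalize (-r1) % (D : ℤ) = w1 at *
  generalize (-r2) % (D : ℤ) = w2 at *
  generalize (-r3) % (D : ℤ) = w3 at *
  generalize a % (D : ℤ) = x1 at *
  generalize b % (D : ℤ) = x2 at *
  obtain ⟨k1, e1⟩ := c1
  obtain ⟨k2, e2⟩ := c2
  obtain ⟨k3, e3⟩ := c3
  obtain ⟨k4, e4⟩ := c4
  obtain ⟨k5, e5⟩ := c5
  have n1 : w1 ≠ 0 := fun h => hr1 ⟨-k1, by linear_combination -e1 - h⟩
  have n2 : w2 ≠ 0 := fun h => hr2 ⟨-k2, by linear_combination -e2 - h⟩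
  have n3 : w3 ≠ 0 := fun h => hr3 ⟨-k3, by linear_combination -e3 - h⟩
  have n4 : x1 ≠ 0 := fun h => ha ⟨k4, by linear_combination e4 + h⟩
  have n5 : x2 ≠ 0 := fun h => hb ⟨k5, by linear_combination e5 + h⟩
  have n6 : x1 ≠ x2 := fun h => hab ⟨k4 - k5, by linear_combination e4 - e5 + h⟩
  have n7 : w3 ≠ x2 := fun h => h12 ⟨k4 - k1 - k2, by linear_combination e4 - e1 - e2 - hm + h⟩
  have n8 : w2 ≠ x2 := fun h => h13 ⟨k4 - k1 - k3, by linear_combination e4 - e1 - e3 - hm + h⟩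
  have n9 : w1 ≠ x2 := fun h => h23 ⟨k4 - k2 - k3, by linear_combination e4 - e2 - e3 - hm + h⟩
  have n10 : x1 ≠ w1 := fun h => ha1 ⟨k4 - k1, by linear_combination e4 - e1 + h⟩
  have n11 : x1 ≠ w2 := fun h => ha2 ⟨k4 - k2, by linear_combination e4 - e2 + h⟩
  have n12 : x1 ≠ w3 := fun h => ha3 ⟨k4 - k3, by linear_combination e4 - e3 + h⟩
  clear e1 e2 e3 e4 e5 hr1 hr2 hr3 hab ha hb h12 h13 h23 ha1 ha2 ha3 hsum
  refine mul_neg_of_pos_of_neg hD' ?_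
  rcases lt_or_gt_of_ne n6 with hx | hx
  · rw [max_eq_right hx.le] at hw1 hw2 hw3
    exact abs_aux' (by omega) (by omega) (by omega) (by omega) hm hx (by omega) (by omega)
      (by omega)
  · rw [max_eq_left hx.le] at hw1 hw2 hw3
    have := abs_aux' (w1 := w1) (w2 := w2) (w3 := w3) (x1 := x2) (x2 := x1) (by omega) (by omega)
      (by omega) (by omega) (by linarith) hx (by omega) (by omega) (by omega)
    rw [abs_sub_comm x2 x1] at this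
    linarith

end Pool.Agent.W280.PC
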