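import Pool.Agent.W280.PC.Arith3

set_option autoImplicit false
set_option maxHeartbeats 4000000

/-!
The arithmetic theorem for rank two with four singular points.
-/

namespace Pool.Agent.W280.PC

open Finset

section E2

variable {D : ℤ}

lemma E2_eq (x : Fin 2 → ℤ) (i : ℤ) : ∃ i0 : Fin 2, ((i0 : ℕ) : ℤ) = i % 2 ∧
    E2 D (x 0) (x 1) i = x i0 + D * (i / 2) := by
  have h : i % 2 = 0 ∨ i % 2 = 1 := by omega
  rcases h with h | h
  · exact ⟨0, by rw [h]; rfl, by unfold E2; rw [if_pos h]⟩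
  · exact ⟨1, by rw [h]; rfl, by unfold E2; rw [if_neg (by omega)]⟩

lemma E2_succ {x0 x1 : ℤ} (h0 : x0 ≤ x1) (h2 : x1 ≤ x0 + D) (i : ℤ) :
    E2 D x0 x1 i ≤ E2 D x0 x1 (i + 1) := by
  obtain ⟨q, s, hs, rfl⟩ : ∃ q s : ℤ, (s = 0 ∨ s = 1) ∧ i = s + 2 * q :=
    ⟨i / 2, i % 2, by omega, by omega⟩
  rw [show s + 2 * q + 1 = (s + 1) + 2 * q by ring, E2_add, E2_add]
  rcases hs with rfl | rfl
  · rw [show (0 : ℤ) + 1 = 1 by norm_num, E2_v0, E2_v1]; linarith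
  · rw [show (1 : ℤ) + 1 = 0 + 2 * 1 by norm_num, E2_add, E2_v0, E2_v1]; linarith

lemma E2_win (x0 x1 c : ℤ) : E2 D x0 x1 c + E2 D x0 x1 (c - 1) = x0 + x1 + D * (c - 1) := by
  obtain ⟨q, s, hs, rfl⟩ : ∃ q s : ℤ, (s = 0 ∨ s = 1) ∧ c = s + 2 * q :=
    ⟨c / 2, c % 2, by omega, by omega⟩
  rw [show s + 2 * q - 1 = (s - 1) + 2 * q by ring, E2_add, E2_add]
  rcases hs with rfl | rfl
  · rw [show (0 : ℤ) - 1 = -1 by norm_num, E2_v0, E2_vm1]; ring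
  · rw [show (1 : ℤ) - 1 = 0 by norm_num, E2_v0, E2_v1]; ring

/-- sums of periodic functions over windows -/
lemma E2_per (x : Fin 2 → ℤ) (g : ℤ → ℤ) (hg : ∀ v w, D ∣ v - w → g v = g w) (t : ℤ) :
    g (E2 D (x 0) (x 1) t) + g (E2 D (x 0) (x 1) (t + 1)) = g (x 0) + g (x 1) := by
  have hq : ∀ s q : ℤ, g (E2 D (x 0) (x 1) (s + 2 * q)) = g (E2 D (x 0) (x 1) s) := by
    intro s q
    apply hg
    rw [E2_add]
    exact ⟨q, by ring⟩
  obtain ⟨q, s, hs, rfl⟩ : ∃ q s : ℤ, (s = 0 ∨ s = 1) ∧ t = s + 2 * q :=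
    ⟨t / 2, t % 2, by omega, by omega⟩
  rw [show s + 2 * q + 1 = (s + 1) + 2 * q by ring, hq, hq]
  have v0 : E2 D (x 0) (x 1) 0 = x 0 := by rw [E2_v0]; ring
  have v1 : E2 D (x 0) (x 1) 1 = x 1 := by rw [E2_v1]; ring
  rcases hs with rfl | rfl
  · rw [show (0 : ℤ) + 1 = 1 by norm_num, v0, v1]
  · rw [show (1 : ℤ) + 1 = 0 + 2 * 1 by norm_num, hq, v0, v1]
    ring

end E2

/-- the inequalities satisfied in the class `a`, rank two and three finite singular points -/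
def Uni2 (D : ℕ) (e1 e2 e3 e4 : Fin 2 → ℤ) (a : ℤ) : Prop :=
  ∃ σ1 σ2 σ3 σ4 : Equiv.Perm (Fin 2),
    (Monotone fun l => wI D a (e1 (σ1 l))) ∧ (Monotone fun l => wI D a (e2 (σ2 l))) ∧
    (Monotone fun l => wI D a (e3 (σ3 l))) ∧ (Monotone fun l => wI D a (e4 (σ4 l))) ∧
    ∀ (m q : ℤ) (i j k s : Fin 2),
      ∑ l, wI D a (e1 l) + ∑ l, wI D a (e2 l) + ∑ l, wI D a (e3 l) - ∑ l, wI D a (e4 l) = m * D →
      m + ((i : ℕ) + (j : ℕ) + (k : ℕ) : ℤ) = 2 * q + (s : ℕ) →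
      wI D a (e1 (σ1 i)) + wI D a (e2 (σ2 j)) + wI D a (e3 (σ3 k)) <
        q * D + wI D a (e4 (σ4 s))

/-- the pointwise inequality, for exponents -/
lemma point2 {D : ℕ} (hD : 0 < D) {e1 e2 e3 e4 : Fin 2 → ℤ}
    (hsum : ∑ l, e1 l + ∑ l, e2 l + ∑ l, e3 l = ∑ l, e4 l)
    {a : ℤ} (ha : IsCoprime a (D : ℤ)) (h : Uni2 D e1 e2 e3 e4 a)
    (h' : Uni2 D e1 e2 e3 e4 (-a))
    (hB : ∀ i j k s, ¬ (D : ℤ) ∣ e1 i + e2 j + e3 k - e4 s) :
    2 * ((∑ l, ∑ l', Q D (a * (e1 l - e1 l'))) + (∑ l, ∑ l', Q D (a * (e2 l - e2 l'))) +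
      (∑ l, ∑ l', Q D (a * (e3 l - e3 l'))) + (∑ l, ∑ l', Q D (a * (e4 l - e4 l')))) -
      ∑ i, ∑ j, ∑ k, ∑ s, Q D (a * (e1 i + e2 j + e3 k - e4 s)) ≤ 0 ∧
    (¬ (D : ℤ) ∣ e1 0 - e1 1 → ¬ (D : ℤ) ∣ e2 0 - e2 1 → ¬ (D : ℤ) ∣ e3 0 - e3 1 →
      ¬ (D : ℤ) ∣ e4 0 - e4 1 →
    2 * ((∑ l, ∑ l', Q D (a * (e1 l - e1 l'))) + (∑ l, ∑ l', Q D (a * (e2 l - e2 l'))) +
      (∑ l, ∑ l', Q D (a * (e3 l - e3 l'))) + (∑ l, ∑ l', Q D (a * (e4 l - e4 l')))) -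
      ∑ i, ∑ j, ∑ k, ∑ s, Q D (a * (e1 i + e2 j + e3 k - e4 s)) < 0) := by
  have hD' : (0 : ℤ) < D := by exact_mod_cast hD
  obtain ⟨σ1, σ2, σ3, σ4, m1, m2, m3, m4, hU⟩ := h
  obtain ⟨τ1, τ2, τ3, τ4, n1, n2, n3, n4, hU'⟩ := h'
  obtain ⟨c1, hc1⟩ := leg2 hD ha e1 σ1 τ1 m1 n1
  obtain ⟨c2, hc2⟩ := leg2 hD ha e2 σ2 τ2 m2 n2
  obtain ⟨c3, hc3⟩ := leg2 hD ha e3 σ3 τ3 m3 n3
  obtain ⟨c4, hc4⟩ := leg2 hD ha e4 σ4 τ4 m4 n4
  -- the integer m
  have hm : ∀ b : ℤ, ∃ m : ℤ,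
      ∑ l, wI D b (e1 l) + ∑ l, wI D b (e2 l) + ∑ l, wI D b (e3 l) - ∑ l, wI D b (e4 l) = m * D := by
    intro b
    have hd : ∀ e : Fin 2 → ℤ, (D : ℤ) ∣ ∑ l, wI D b (e l) - b * ∑ l, e l := by
      intro e
      rw [Finset.mul_sum, ← Finset.sum_sub_distrib]
      exact Finset.dvd_sum fun l _ => wI_mod b (e l)
    obtain ⟨u1, h1⟩ := hd e1
    obtain ⟨u2, h2⟩ := hd e2
    obtain ⟨u3, h3⟩ := hd e3
    obtain ⟨u4, h4⟩ := hd e4
    exact ⟨u1 + u2 + u3 - u4, by linear_combination h1 + h2 + h3 - h4 + b * hsum⟩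
  obtain ⟨m, hm1⟩ := hm a
  obtain ⟨m', hm2⟩ := hm (-a)
  have hL := hU m
  have hL' := hU' m'
  set x1 : Fin 2 → ℤ := fun l => wI D a (e1 (σ1 l)) with hx1
  set x2 : Fin 2 → ℤ := fun l => wI D a (e2 (σ2 l)) with hx2
  set x3 : Fin 2 → ℤ := fun l => wI D a (e3 (σ3 l)) with hx3
  set x4 : Fin 2 → ℤ := fun l => wI D a (e4 (σ4 l)) with hx4
  set z1 : Fin 2 → ℤ := fun l => wI D (-a) (e1 (τ1 l)) with hz1
  set z2 : Fin 2 → ℤ := fun l => wI D (-a) (e2 (τ2 l)) with hz2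
  set z3 : Fin 2 → ℤ := fun l => wI D (-a) (e3 (τ3 l)) with hz3
  set z4 : Fin 2 → ℤ := fun l => wI D (-a) (e4 (τ4 l)) with hz4
  have s1 : ∑ l, wI D a (e1 l) = x1 0 + x1 1 := by
    rw [← Fin.sum_univ_two]; exact (Equiv.sum_comp σ1 (fun l => wI D a (e1 l))).symm
  have s2 : ∑ l, wI D a (e2 l) = x2 0 + x2 1 := by
    rw [← Fin.sum_univ_two]; exact (Equiv.sum_comp σ2 (fun l => wI D a (e2 l))).symm
  have s3 : ∑ l, wI D a (e3 l) = x3 0 + x3 1 := by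
    rw [← Fin.sum_univ_two]; exact (Equiv.sum_comp σ3 (fun l => wI D a (e3 l))).symm
  have s4 : ∑ l, wI D a (e4 l) = x4 0 + x4 1 := by
    rw [← Fin.sum_univ_two]; exact (Equiv.sum_comp σ4 (fun l => wI D a (e4 l))).symm
  have t1 : ∑ l, wI D (-a) (e1 l) = z1 0 + z1 1 := by
    rw [← Fin.sum_univ_two]; exact (Equiv.sum_comp τ1 (fun l => wI D (-a) (e1 l))).symm
  have t2 : ∑ l, wI D (-a) (e2 l) = z2 0 + z2 1 := by
    rw [← Fin.sum_univ_two]; exact (Equiv.sum_comp τ2 (fun l => wI D (-a) (e2 l))).symm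
  have t3 : ∑ l, wI D (-a) (e3 l) = z3 0 + z3 1 := by
    rw [← Fin.sum_univ_two]; exact (Equiv.sum_comp τ3 (fun l => wI D (-a) (e3 l))).symm
  have t4 : ∑ l, wI D (-a) (e4 l) = z4 0 + z4 1 := by
    rw [← Fin.sum_univ_two]; exact (Equiv.sum_comp τ4 (fun l => wI D (-a) (e4 l))).symm
  set X : ℤ → ℤ := E2 D (x1 0) (x1 1) with hX
  set Y : ℤ → ℤ := E2 D (x2 0) (x2 1) with hY
  set Z : ℤ → ℤ := E2 D (x3 0) (x3 1) with hZ
  set V : ℤ → ℤ := E2 D (x4 0) (x4 1) with hV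
  change ∀ i, E2 D (z1 0) (z1 1) i = -X (c1 - i) at hc1
  change ∀ i, E2 D (z2 0) (z2 1) i = -Y (c2 - i) at hc2
  change ∀ i, E2 D (z3 0) (z3 1) i = -Z (c3 - i) at hc3
  change ∀ i, E2 D (z4 0) (z4 1) i = -V (c4 - i) at hc4
  have ext_gen : ∀ (y1 y2 y3 y4 : Fin 2 → ℤ) (M : ℤ),
      (∀ (q : ℤ) (i j k s : Fin 2), M + ((i : ℕ) + (j : ℕ) + (k : ℕ) : ℤ) = 2 * q + (s : ℕ) →
        y1 i + y2 j + y3 k < q * D + y4 s) →
      ∀ i j k : ℤ, E2 D (y1 0) (y1 1) i + E2 D (y2 0) (y2 1) j + E2 D (y3 0) (y3 1) k <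
        E2 D (y4 0) (y4 1) (i + j + k + M) := by
    intro y1 y2 y3 y4 M hy i j k
    obtain ⟨i0, hi0, hi⟩ := E2_eq (D := (D : ℤ)) y1 i
    obtain ⟨j0, hj0, hj⟩ := E2_eq (D := (D : ℤ)) y2 j
    obtain ⟨k0, hk0, hk⟩ := E2_eq (D := (D : ℤ)) y3 k
    obtain ⟨l0, hl0, hl⟩ := E2_eq (D := (D : ℤ)) y4 (i + j + k + M)
    rw [hi, hj, hk, hl]
    have := hy ((i + j + k + M) / 2 - i / 2 - j / 2 - k / 2) i0 j0 k0 l0 (by omega)
    nlinarith
  have L : ∀ i j k : ℤ, X i + Y j + Z k < V (i + j + k + m) :=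
    ext_gen x1 x2 x3 x4 m (fun q i j k s => hL q i j k s hm1)
  have L' : ∀ i j k : ℤ, X i + Y j + Z k > V (i + j + k + m - 2) := by
    intro i j k
    have h1 := ext_gen z1 z2 z3 z4 m' (fun q i j k s => hL' q i j k s hm2) (c1 - i) (c2 - j) (c3 - k)
    rw [hc1, hc2, hc3, hc4] at h1
    -- the relation between the sums
    have w1 := E2_win (D := (D : ℤ)) (x1 0) (x1 1) c1
    have w2 := E2_win (D := (D : ℤ)) (x2 0) (x2 1) c2
    have w3 := E2_win (D := (D : ℤ)) (x3 0) (x3 1) c3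
    have w4 := E2_win (D := (D : ℤ)) (x4 0) (x4 1) c4
    change X c1 + X (c1 - 1) = _ at w1
    change Y c2 + Y (c2 - 1) = _ at w2
    change Z c3 + Z (c3 - 1) = _ at w3
    change V c4 + V (c4 - 1) = _ at w4
    have p10 := hc1 0
    have p11 := hc1 1
    have p20 := hc2 0
    have p21 := hc2 1
    have p30 := hc3 0
    have p31 := hc3 1
    have p40 := hc4 0
    have p41 := hc4 1
    rw [E2_v0, sub_zero] at p10 p20 p30 p40
    rw [E2_v1] at p11 p21 p31 p41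
    have key : (D : ℤ) * (c4 - m' - c1 - c2 - c3 - (m - 2)) = 0 := by
      rw [t1, t2, t3, t4] at hm2
      rw [s1, s2, s3, s4] at hm1
      linear_combination hm1 + hm2 - p10 - p11 - p20 - p21 - p30 - p31 + p40 + p41 + w1 + w2
        + w3 - w4
    have key2 : c4 - m' - c1 - c2 - c3 - (m - 2) = 0 := by
      rcases mul_eq_zero.1 key with h0 | h0
      · exact absurd h0 hD'.ne'
      · exact h0
    have e1 : c1 - (c1 - i) = i := by ring
    have e2 : c2 - (c2 - j) = j := by ring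
    have e3 : c3 - (c3 - k) = k := by ring
    have e4 : c4 - (c1 - i + (c2 - j) + (c3 - k) + m') = i + j + k + m - 2 := by linarith
    rw [e1, e2, e3, e4] at h1
    linarith
  -- monotonicity
  have bnd : ∀ (e : Fin 2 → ℤ) (σ : Equiv.Perm (Fin 2)),
      wI D a (e (σ 1)) ≤ wI D a (e (σ 0)) + D := by
    intro e σ
    have k1 := wI_le hD a (e (σ 1))
    have k2 := wI_nonneg hD a (e (σ 0))
    linarith
  have mX : ∀ i, X i ≤ X (i + 1) := E2_succ (m1 (by decide)) (bnd e1 σ1)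
  have mY : ∀ i, Y i ≤ Y (i + 1) := E2_succ (m2 (by decide)) (bnd e2 σ2)
  have mZ : ∀ i, Z i ≤ Z (i + 1) := E2_succ (m3 (by decide)) (bnd e3 σ3)
  have mV : ∀ i, V i ≤ V (i + 1) := E2_succ (m4 (by decide)) (bnd e4 σ4)
  have pX : ∀ i, X (i + 2) = X i + D := fun i => by
    have := E2_add (D : ℤ) (x1 0) (x1 1) i 1
    rw [mul_one, mul_one] at this; exact this
  have pY : ∀ i, Y (i + 2) = Y i + D := fun i => by
    have := E2_add (D : ℤ) (x2 0) (x2 1) i 1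
    rw [mul_one, mul_one] at this; exact this
  have pZ : ∀ i, Z (i + 2) = Z i + D := fun i => by
    have := E2_add (D : ℤ) (x3 0) (x3 1) i 1
    rw [mul_one, mul_one] at this; exact this
  have pV : ∀ i, V (i + 2) = V i + D := fun i => by
    have := E2_add (D : ℤ) (x4 0) (x4 1) i 1
    rw [mul_one, mul_one] at this; exact this
  have hs : X (-m) + X (-m + 1) + Y 0 + Y 1 + Z 0 + Z 1 + -V 1 + -V 0 = 0 := by
    have w1 := E2_win (D := (D : ℤ)) (x1 0) (x1 1) (-m + 1)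
    have w2 := E2_win (D := (D : ℤ)) (x2 0) (x2 1) 1
    have w3 := E2_win (D := (D : ℤ)) (x3 0) (x3 1) 1
    have w4 := E2_win (D := (D : ℤ)) (x4 0) (x4 1) 1
    change X (-m + 1) + X (-m + 1 - 1) = _ at w1
    change Y 1 + Y (1 - 1) = _ at w2
    change Z 1 + Z (1 - 1) = _ at w3
    change V 1 + V (1 - 1) = _ at w4
    rw [show -m + 1 - 1 = -m by ring] at w1
    norm_num at w2 w3 w4
    rw [s1, s2, s3, s4] at hm1
    linarith
  -- residues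
  have res : ∀ (e : Fin 2 → ℤ) (σ : Equiv.Perm (Fin 2)) (i : ℤ), ∃ l,
      (D : ℤ) ∣ E2 D (wI D a (e (σ 0))) (wI D a (e (σ 1))) i - a * e l ∧
      ∃ l', (D : ℤ) ∣ E2 D (wI D a (e (σ 0))) (wI D a (e (σ 1))) (i + 1) - a * e l' ∧ l ≠ l' := by
    intro e σ i
    obtain ⟨q, s, hs, rfl⟩ : ∃ q s : ℤ, (s = 0 ∨ s = 1) ∧ i = s + 2 * q :=
      ⟨i / 2, i % 2, by omega, by omega⟩
    rw [show s + 2 * q + 1 = (s + 1) + 2 * q by ring, E2_add, E2_add]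
    obtain ⟨u0, hu0⟩ := wI_mod (D := D) a (e (σ 0))
    obtain ⟨u1, hu1⟩ := wI_mod (D := D) a (e (σ 1))
    have hne : σ 0 ≠ σ 1 := fun h => absurd (σ.injective h) (by decide)
    rcases hs with rfl | rfl
    · rw [show (0 : ℤ) + 1 = 1 by norm_num, E2_v0, E2_v1]
      exact ⟨σ 0, ⟨u0 + q, by linear_combination hu0⟩, σ 1, ⟨u1 + q, by linear_combination hu1⟩, hne⟩
    · rw [show (1 : ℤ) + 1 = 0 + 2 * 1 by norm_num, E2_add, E2_v0, E2_v1]
      exact ⟨σ 1, ⟨u1 + q, by linear_combination hu1⟩, σ 0, ⟨u0 + q + 1, by linear_combination hu0⟩,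
        hne.symm⟩
  have hdiff : ∀ (e : Fin 2 → ℤ) (σ : Equiv.Perm (Fin 2)) (i : ℤ), ¬ (D : ℤ) ∣ e 0 - e 1 →
      E2 D (wI D a (e (σ 0))) (wI D a (e (σ 1))) i ≠
        E2 D (wI D a (e (σ 0))) (wI D a (e (σ 1))) (i + 1) := by
    intro e σ i hnd heq
    obtain ⟨l, hl, l', hl', hne⟩ := res e σ i
    rw [← heq] at hl'
    have h1 : (D : ℤ) ∣ a * (e l - e l') := by
      obtain ⟨y1, hy1⟩ := hl'
      obtain ⟨y2, hy2⟩ := hl
      exact ⟨y1 - y2, by linear_combination hy1 - hy2⟩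
    rw [coprime_scale ha] at h1
    apply hnd
    have hcase : (l = 0 ∧ l' = 1) ∨ (l = 1 ∧ l' = 0) := by omega
    rcases hcase with ⟨rfl, rfl⟩ | ⟨rfl, rfl⟩
    · exact h1
    · rw [← dvd_neg, neg_sub]; exact h1
  have hform : ∀ i j k l : ℤ, ¬ (D : ℤ) ∣ X i + Y j + Z k - V l := by
    intro i j k l hdvd
    obtain ⟨l1, h1, -⟩ := res e1 σ1 i
    obtain ⟨l2, h2, -⟩ := res e2 σ2 j
    obtain ⟨l3, h3, -⟩ := res e3 σ3 k
    obtain ⟨l4, h4, -⟩ := res e4 σ4 l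
    change (D : ℤ) ∣ X i - a * e1 l1 at h1
    change (D : ℤ) ∣ Y j - a * e2 l2 at h2
    change (D : ℤ) ∣ Z k - a * e3 l3 at h3
    change (D : ℤ) ∣ V l - a * e4 l4 at h4
    apply hB l1 l2 l3 l4
    rw [← coprime_scale (c := a) ha]
    obtain ⟨y0, hy0⟩ := hdvd
    obtain ⟨y1, hy1⟩ := h1
    obtain ⟨y2, hy2⟩ := h2
    obtain ⟨y3, hy3⟩ := h3
    obtain ⟨y4, hy4⟩ := h4
    exact ⟨y0 - y1 - y2 - y3 + y4, by linear_combination hy0 - hy1 - hy2 - hy3 + hy4⟩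
  have g1 : ∀ i, X (i + 1) ≤ X i + D := fun i => by
    have := mX (i + 1); rwa [show i + 1 + 1 = i + 2 by ring, pX] at this
  have g2 : ∀ i, Y (i + 1) ≤ Y i + D := fun i => by
    have := mY (i + 1); rwa [show i + 1 + 1 = i + 2 by ring, pY] at this
  have g3 : ∀ i, Z (i + 1) ≤ Z i + D := fun i => by
    have := mZ (i + 1); rwa [show i + 1 + 1 = i + 2 by ring, pZ] at this
  have g4 : ∀ i, V (i + 1) ≤ V i + D := fun i => by
    have := mV (i + 1); rwa [show i + 1 + 1 = i + 2 by ring, pV] at this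
  -- the forms of index sum one
  have u1000 : X (-m + 1) + Y 0 + Z 0 + -V 1 < 0 ∧ -(D : ℤ) < X (-m + 1) + Y 0 + Z 0 + -V 1 := by
    have h1 := L (-m + 1) 0 0
    have h2 := L' (-m + 1) 0 0
    rw [show -m + 1 + 0 + 0 + m = 1 by ring] at h1
    rw [show -m + 1 + 0 + 0 + m - 2 = -1 by ring] at h2
    have h3 := pV (-1)
    norm_num at h3
    constructor <;> linarith
  have u0100 : X (-m) + Y 1 + Z 0 + -V 1 < 0 ∧ -(D : ℤ) < X (-m) + Y 1 + Z 0 + -V 1 := by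
    have h1 := L (-m) 1 0
    have h2 := L' (-m) 1 0
    rw [show -m + 1 + 0 + m = 1 by ring] at h1
    rw [show -m + 1 + 0 + m - 2 = -1 by ring] at h2
    have h3 := pV (-1)
    norm_num at h3
    constructor <;> linarith
  have u0010 : X (-m) + Y 0 + Z 1 + -V 1 < 0 ∧ -(D : ℤ) < X (-m) + Y 0 + Z 1 + -V 1 := by
    have h1 := L (-m) 0 1
    have h2 := L' (-m) 0 1
    rw [show -m + 0 + 1 + m = 1 by ring] at h1
    rw [show -m + 0 + 1 + m - 2 = -1 by ring] at h2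
    have h3 := pV (-1)
    norm_num at h3
    constructor <;> linarith
  have u0001 : X (-m) + Y 0 + Z 0 + -V 0 < 0 ∧ -(D : ℤ) < X (-m) + Y 0 + Z 0 + -V 0 := by
    have h1 := L (-m) 0 0
    have h2 := L' (-m) 0 0
    rw [show -m + 0 + 0 + m = 0 by ring] at h1
    rw [show -m + 0 + 0 + m - 2 = -2 by ring] at h2
    have h3 := pV (-2)
    norm_num at h3
    constructor <;> linarith
  -- conversion to sums over the exponents
  have conv : ∀ (e : Fin 2 → ℤ) (σ : Equiv.Perm (Fin 2)) (g : ℤ → ℤ),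
      (∀ v w, (D : ℤ) ∣ v - w → g v = g w) → ∀ t : ℤ,
      g (E2 D (wI D a (e (σ 0))) (wI D a (e (σ 1))) t) +
      g (E2 D (wI D a (e (σ 0))) (wI D a (e (σ 1))) (t + 1)) =
      ∑ l, g (a * e l) := by
    intro e σ g hg t
    rw [E2_per (fun l => wI D a (e (σ l))) g hg t, ← Equiv.sum_comp σ (fun l => g (a * e l)),
      Fin.sum_univ_two]
    have := fun l => hg _ _ (wI_mod (D := D) a (e (σ l)))
    simp only [this]
  have k1 : ∀ g : ℤ → ℤ, (∀ v w, (D : ℤ) ∣ v - w → g v = g w) →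
      g (X (-m)) + g (X (-m + 1)) = ∑ l, g (a * e1 l) := fun g hg =>
    conv e1 σ1 g hg (-m)
  have k2 : ∀ g : ℤ → ℤ, (∀ v w, (D : ℤ) ∣ v - w → g v = g w) →
      g (Y 0) + g (Y 1) = ∑ l, g (a * e2 l) := fun g hg => by
    have := conv e2 σ2 g hg 0
    simpa using this
  have k3 : ∀ g : ℤ → ℤ, (∀ v w, (D : ℤ) ∣ v - w → g v = g w) →
      g (Z 0) + g (Z 1) = ∑ l, g (a * e3 l) := fun g hg => by
    have := conv e3 σ3 g hg 0
    simpa using this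
  have k4 : ∀ g : ℤ → ℤ, (∀ v w, (D : ℤ) ∣ v - w → g v = g w) →
      g (V 0) + g (V 1) = ∑ l, g (a * e4 l) := fun g hg => by
    have := conv e4 σ4 g hg 0
    simpa using this
  have per : ∀ (u v w : ℤ), (D : ℤ) ∣ v - w → Q D (v + u) = Q D (w + u) := by
    intro u v w h
    apply Q_congr
    rwa [show v + u - (w + u) = v - w by ring]
  have pern : ∀ (u v w : ℤ), (D : ℤ) ∣ v - w → Q D (u - v) = Q D (u - w) := by
    intro u v w h
    apply Q_congr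
    rw [show u - v - (u - w) = -(v - w) by ring]
    exact (dvd_neg).2 h
  -- the legs
  have leg : ∀ (W : ℤ → ℤ) (i j : ℤ) (e : Fin 2 → ℤ),
      (∀ g : ℤ → ℤ, (∀ v w, (D : ℤ) ∣ v - w → g v = g w) →
        g (W i) + g (W j) = ∑ l, g (a * e l)) →
      2 * Q D (W j - W i) = ∑ l, ∑ l', Q D (a * (e l - e l')) := by
    intro W i j e hW
    have h1 : ∀ y : ℤ, Q D (y - W i) + Q D (y - W j) =
        ∑ l', Q D (y - a * e l') := fun y => hW (fun v => Q D (y - v)) (fun v w h => pern y v w h)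
    have h2 := hW (fun y => ∑ l', Q D (y - a * e l')) (fun v w h => by
      apply Finset.sum_congr rfl
      intro l' _
      rw [sub_eq_add_neg, sub_eq_add_neg]
      exact per _ v w h)
    simp only [← h1] at h2
    have h0 : ∀ y : ℤ, Q D (y - y) = 0 := fun y => Q_zero (by rw [sub_self]; exact dvd_zero _)
    have hsym : ∀ y z : ℤ, Q D (y - z) = Q D (z - y) := fun y z => by
      rw [← Q_neg hD (y - z)]; congr 1; ring
    rw [h0, h0, hsym (W i) (W j)] at h2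
    have h3 : ∑ l, ∑ l', Q D (a * (e l - e l')) =
        ∑ l, (Q D (a * e l - W i) + Q D (a * e l - W j)) := by
      apply Finset.sum_congr rfl
      intro l _
      rw [h1]
      apply Finset.sum_congr rfl
      intro l' _
      rw [mul_sub]
    rw [h3, ← h2]
    ring
  have l1 := leg X (-m) (-m + 1) e1 k1
  have l2 := leg Y 0 1 e2 k2
  have l3 := leg Z 0 1 e3 k3
  have l4 := leg V 0 1 e4 k4
  -- the forms
  have f1 : ∀ y, ∑ s, Q D (y - a * e4 s) = Q D (y - V 0) + Q D (y - V 1) := fun y => by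
    rw [k4 (fun v => Q D (y - v)) (fun v w h => pern _ v w h)]
  have f2 : ∀ y, ∑ k, ∑ s, Q D (y + a * e3 k - a * e4 s) =
      (Q D (y + Z 0 - V 0) + Q D (y + Z 0 - V 1)) + (Q D (y + Z 1 - V 0) + Q D (y + Z 1 - V 1)) := by
    intro y
    simp only [f1]
    rw [k3 (fun v => Q D (y + v - V 0) + Q D (y + v - V 1))]
    intro v w h
    have : ∀ u : ℤ, Q D (y + v - u) = Q D (y + w - u) := by
      intro u
      rw [show y + v - u = v + (y - u) by ring, show y + w - u = w + (y - u) by ring]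
      exact per _ v w h
    simp only [this]
  have f3 : ∀ y, ∑ j, ∑ k, ∑ s, Q D (y + a * e2 j + a * e3 k - a * e4 s) =
      ((Q D (y + Y 0 + Z 0 - V 0) + Q D (y + Y 0 + Z 0 - V 1)) +
        (Q D (y + Y 0 + Z 1 - V 0) + Q D (y + Y 0 + Z 1 - V 1))) +
      ((Q D (y + Y 1 + Z 0 - V 0) + Q D (y + Y 1 + Z 0 - V 1)) +
        (Q D (y + Y 1 + Z 1 - V 0) + Q D (y + Y 1 + Z 1 - V 1))) := by
    intro y
    simp only [f2]
    rw [k2 (fun v => (Q D (y + v + Z 0 - V 0) + Q D (y + v + Z 0 - V 1)) +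
        (Q D (y + v + Z 1 - V 0) + Q D (y + v + Z 1 - V 1)))]
    intro v w h
    have : ∀ u u' : ℤ, Q D (y + v + u' - u) = Q D (y + w + u' - u) := by
      intro u u'
      rw [show y + v + u' - u = v + (y + u' - u) by ring,
        show y + w + u' - u = w + (y + u' - u) by ring]
      exact per _ v w h
    simp only [this]
  have f4 := k1 (fun y => ((Q D (y + Y 0 + Z 0 - V 0) + Q D (y + Y 0 + Z 0 - V 1)) +
        (Q D (y + Y 0 + Z 1 - V 0) + Q D (y + Y 0 + Z 1 - V 1))) +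
      ((Q D (y + Y 1 + Z 0 - V 0) + Q D (y + Y 1 + Z 0 - V 1)) +
        (Q D (y + Y 1 + Z 1 - V 0) + Q D (y + Y 1 + Z 1 - V 1)))) (by
    intro v w h
    have : ∀ u u' u'' : ℤ, Q D (v + u + u' - u'') = Q D (w + u + u' - u'') := by
      intro u u' u''
      rw [show v + u + u' - u'' = v + (u + u' - u'') by ring,
        show w + u + u' - u'' = w + (u + u' - u'') by ring]
      exact per _ v w h
    simp only [this])
  have f5 : ∑ i, ∑ j, ∑ k, ∑ s, Q D (a * (e1 i + e2 j + e3 k - e4 s)) =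
      ∑ i, ∑ j, ∑ k, ∑ s, Q D (a * e1 i + a * e2 j + a * e3 k - a * e4 s) := by
    refine Finset.sum_congr rfl fun i _ => Finset.sum_congr rfl fun j _ =>
      Finset.sum_congr rfl fun k _ => Finset.sum_congr rfl fun s _ => ?_
    congr 1; ring
  simp only [f3] at f5
  rw [← f4] at f5
  rw [f5, ← l1, ← l2, ← l3, ← l4]
  have c1' : ∀ x y : ℤ, -x - -y = y - x := fun x y => by ring
  have hs' : X (-m) + X (-m + 1) + Y 0 + Y 1 + Z 0 + Z 1 + -V 1 + -V 0 = 0 := by linarith [hs]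
  constructor
  · have hp := d4_point hD (a0 := X (-m)) (a1 := X (-m + 1)) (b0 := Y 0)
      (b1 := Y 1) (c0 := Z 0) (c1 := Z 1) (d0 := -V 1) (d1 := -V 0) hs'
      (mX _) (g1 _) (mY 0) (g2 0) (mZ 0) (g3 0) (by have := mV 0; norm_num at this; linarith)
      (by have := g4 0; norm_num at this; linarith)
      u0001.1 u0001.2 u0010.1 u0010.2 u0100.1 u0100.2 u1000.1 u1000.2
    simp only [c1', ← sub_eq_add_neg] at hp
    linarith
  · intro q1 q2 q3 q4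
    have r1 := hdiff e1 σ1 (-m) q1
    have r2 := hdiff e2 σ2 0 q2
    have r3 := hdiff e3 σ3 0 q3
    have r4 := hdiff e4 σ4 0 q4
    have r1' := hdiff e1 σ1 (-m + 1) q1
    have r2' := hdiff e2 σ2 1 q2
    have r3' := hdiff e3 σ3 1 q3
    have r4' := hdiff e4 σ4 1 q4
    change X (-m) ≠ X (-m + 1) at r1
    change Y 0 ≠ Y (0 + 1) at r2
    change Z 0 ≠ Z (0 + 1) at r3
    change V 0 ≠ V (0 + 1) at r4
    change X (-m + 1) ≠ X (-m + 1 + 1) at r1'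
    change Y 1 ≠ Y (1 + 1) at r2'
    change Z 1 ≠ Z (1 + 1) at r3'
    change V 1 ≠ V (1 + 1) at r4'
    rw [zero_add] at r2 r3 r4
    rw [show -m + 1 + 1 = -m + 2 by ring, pX] at r1'
    rw [show (1 : ℤ) + 1 = 0 + 2 by norm_num, pY] at r2'
    rw [show (1 : ℤ) + 1 = 0 + 2 by norm_num, pZ] at r3'
    rw [show (1 : ℤ) + 1 = 0 + 2 by norm_num, pV] at r4'
    have v1 := mX (-m)
    have v2 := mY 0
    have v3 := mZ 0
    have v4 := mV 0
    have y1 := g1 (-m)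
    have y2 := g2 0
    have y3 := g3 0
    have y4 := g4 0
    rw [zero_add] at v2 v3 v4 y2 y3 y4
    have hp := d4_point_strict hD (a0 := X (-m)) (a1 := X (-m + 1)) (b0 := Y 0)
      (b1 := Y 1) (c0 := Z 0) (c1 := Z 1) (d0 := -V 1) (d1 := -V 0) hs'
      (by omega) (by omega) (by omega) (by omega) (by omega) (by omega) (by omega) (by omega)
      u0001.1 u0001.2 u0010.1 u0010.2 u0100.1 u0100.2 u1000.1 u1000.2
      (fun h0 => hform (-m + 1) 1 0 1 (by rw [sub_eq_add_neg, h0]; exact dvd_zero _))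
      (fun h0 => hform (-m + 1) 0 1 1 (by rw [sub_eq_add_neg, h0]; exact dvd_zero _))
      (fun h0 => hform (-m + 1) 0 0 0 (by rw [sub_eq_add_neg, h0]; exact dvd_zero _))
      (fun h0 => hform (-m) 0 0 1 (by
        rw [sub_eq_add_neg]
        have : X (-m) + Y 0 + Z 0 + -V 1 = -D := by linarith
        rw [this]; exact (dvd_neg).2 dvd_rfl))
    simp only [c1', ← sub_eq_add_neg] at hp
    linarith

/-- The arithmetic theorem for rank two and four singular points. -/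
theorem arith2 {D : ℕ} (hD : 1 < D) {e1 e2 e3 e4 : Fin 2 → ℤ}
    (hsum : ∑ l, e1 l + ∑ l, e2 l + ∑ l, e3 l = ∑ l, e4 l)
    (h1 : ∀ l l', IsCoprime (e1 l - e1 l') (D : ℤ) ∨ (D : ℤ) ∣ e1 l - e1 l')
    (h2 : ∀ l l', IsCoprime (e2 l - e2 l') (D : ℤ) ∨ (D : ℤ) ∣ e2 l - e2 l')
    (h3 : ∀ l l', IsCoprime (e3 l - e3 l') (D : ℤ) ∨ (D : ℤ) ∣ e3 l - e3 l')
    (h4 : ∀ l l', IsCoprime (e4 l - e4 l') (D : ℤ) ∨ (D : ℤ) ∣ e4 l - e4 l')
    (hB : ∀ i j k s, IsCoprime (e1 i + e2 j + e3 k - e4 s) (D : ℤ))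
    (hU : ∀ a : ℤ, IsCoprime a (D : ℤ) → Uni2 D e1 e2 e3 e4 a) : False := by
  have : NeZero D := ⟨by omega⟩
  have hD0 : 0 < D := by omega
  have hnd : ∀ {z : ℤ}, IsCoprime z (D : ℤ) → ¬ (D : ℤ) ∣ z := by
    intro z hz hdvd
    have h1 : IsUnit (D : ℤ) := hz.isUnit_of_dvd' hdvd dvd_rfl
    rw [Int.isUnit_iff] at h1
    rcases h1 with h1 | h1 <;> omega
  have hB' : ∀ i j k s, ¬ (D : ℤ) ∣ e1 i + e2 j + e3 k - e4 s := fun i j k s => hnd (hB i j k s)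
  have hpt : ∀ u : (ZMod D)ˣ,
      2 * ((∑ l, ∑ l', F D ((u : ZMod D) * ((e1 l - e1 l' : ℤ) : ZMod D))) +
        (∑ l, ∑ l', F D ((u : ZMod D) * ((e2 l - e2 l' : ℤ) : ZMod D))) +
        (∑ l, ∑ l', F D ((u : ZMod D) * ((e3 l - e3 l' : ℤ) : ZMod D))) +
        (∑ l, ∑ l', F D ((u : ZMod D) * ((e4 l - e4 l' : ℤ) : ZMod D)))) -
      ∑ i, ∑ j, ∑ k, ∑ s, F D ((u : ZMod D) * ((e1 i + e2 j + e3 k - e4 s : ℤ) : ZMod D)) ≤ 0 ∧
      (¬ (D : ℤ) ∣ e1 0 - e1 1 → ¬ (D : ℤ) ∣ e2 0 - e2 1 → ¬ (D : ℤ) ∣ e3 0 - e3 1 →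
        ¬ (D : ℤ) ∣ e4 0 - e4 1 →
      2 * ((∑ l, ∑ l', F D ((u : ZMod D) * ((e1 l - e1 l' : ℤ) : ZMod D))) +
        (∑ l, ∑ l', F D ((u : ZMod D) * ((e2 l - e2 l' : ℤ) : ZMod D))) +
        (∑ l, ∑ l', F D ((u : ZMod D) * ((e3 l - e3 l' : ℤ) : ZMod D))) +
        (∑ l, ∑ l', F D ((u : ZMod D) * ((e4 l - e4 l' : ℤ) : ZMod D)))) -
      ∑ i, ∑ j, ∑ k, ∑ s, F D ((u : ZMod D) * ((e1 i + e2 j + e3 k - e4 s : ℤ) : ZMod D)) < 0) := by
    intro u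
    have hc : IsCoprime (((u : ZMod D).val : ℕ) : ℤ) (D : ℤ) :=
      Nat.isCoprime_iff_coprime.2 (ZMod.val_coe_unit_coprime u)
    have := point2 hD0 hsum hc (hU _ hc) (hU _ hc.neg_left) hB'
    simp only [Q_unit] at this
    exact this
  have hswap2 : ∀ e : Fin 2 → ℤ, ∑ u : (ZMod D)ˣ, ∑ l, ∑ l',
      F D ((u : ZMod D) * ((e l - e l' : ℤ) : ZMod D)) = ∑ l, ∑ l', SU D (e l - e l') := by
    intro e
    rw [Finset.sum_comm]
    apply Finset.sum_congr rfl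
    intro l _
    rw [Finset.sum_comm]
    rfl
  have hswap3 : ∑ u : (ZMod D)ˣ, ∑ i, ∑ j, ∑ k, ∑ s,
      F D ((u : ZMod D) * ((e1 i + e2 j + e3 k - e4 s : ℤ) : ZMod D)) =
      ∑ i, ∑ j, ∑ k, ∑ s, SU D (e1 i + e2 j + e3 k - e4 s) := by
    rw [Finset.sum_comm]
    refine Finset.sum_congr rfl fun i _ => ?_
    rw [Finset.sum_comm]
    refine Finset.sum_congr rfl fun j _ => ?_
    rw [Finset.sum_comm]
    refine Finset.sum_congr rfl fun k _ => ?_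
    rw [Finset.sum_comm]
    rfl
  have hform : ∑ i, ∑ j, ∑ k, ∑ s, SU D (e1 i + e2 j + e3 k - e4 s) = 16 * SU D 1 := by
    simp only [SU_unit (hB _ _ _ _), Finset.sum_const, Finset.card_univ, Fintype.card_fin]
    ring
  have hleg : ∀ e : Fin 2 → ℤ, (∀ l l', IsCoprime (e l - e l') (D : ℤ) ∨ (D : ℤ) ∣ e l - e l') →
      2 * SU D 1 ≤ ∑ l, ∑ l', SU D (e l - e l') := by
    intro e he
    simp only [Fin.sum_univ_two, sub_self, SU_zero]
    linarith [SU_ge hD (he 0 1), SU_ge hD (he 1 0)]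
  have hleg' : ∀ e : Fin 2 → ℤ, (D : ℤ) ∣ e 0 - e 1 →
      0 ≤ ∑ l, ∑ l', SU D (e l - e l') := by
    intro e he
    simp only [Fin.sum_univ_two, sub_self, SU_zero]
    have h1 : SU D (e 0 - e 1) = 0 := sum_F_zero D he
    have h2 : SU D (e 1 - e 0) = 0 := sum_F_zero D (by
      rw [← dvd_neg, neg_sub]; exact he)
    rw [h1, h2]; norm_num
  have hK : SU D 1 < 0 := by
    have h1 : SU D 1 = ∑ u : (ZMod D)ˣ, F D (u : ZMod D) := sum_F_unit D isCoprime_one_left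
    rw [h1]; exact sum_F_neg hD
  by_cases hall : ¬ (D : ℤ) ∣ e1 0 - e1 1 ∧ ¬ (D : ℤ) ∣ e2 0 - e2 1 ∧ ¬ (D : ℤ) ∣ e3 0 - e3 1 ∧
        ¬ (D : ℤ) ∣ e4 0 - e4 1
  · have hneg := Finset.sum_neg (fun u _ => (hpt u).2 hall.1 hall.2.1 hall.2.2.1 hall.2.2.2)
      (s := (univ : Finset (ZMod D)ˣ)) Finset.univ_nonempty
    rw [Finset.sum_sub_distrib, ← Finset.mul_sum, Finset.sum_add_distrib,
      Finset.sum_add_distrib, Finset.sum_add_distrib, hswap2, hswap2, hswap2, hswap2, hswap3,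
      hform] at hneg
    linarith [hleg e1 h1, hleg e2 h2, hleg e3 h3, hleg e4 h4]
  · have hneg := Finset.sum_nonpos (fun u _ => (hpt u).1) (s := (univ : Finset (ZMod D)ˣ))
    rw [Finset.sum_sub_distrib, ← Finset.mul_sum, Finset.sum_add_distrib,
      Finset.sum_add_distrib, Finset.sum_add_distrib, hswap2, hswap2, hswap2, hswap2, hswap3,
      hform] at hneg
    have g1 := hleg e1 h1
    have g2 := hleg e2 h2
    have g3 := hleg e3 h3
    have g4 := hleg e4 h4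
    by_cases q1 : (D : ℤ) ∣ e1 0 - e1 1
    · linarith [hleg' e1 q1]
    by_cases q2 : (D : ℤ) ∣ e2 0 - e2 1
    · linarith [hleg' e2 q2]
    by_cases q3 : (D : ℤ) ∣ e3 0 - e3 1
    · linarith [hleg' e3 q3]
    by_cases q4 : (D : ℤ) ∣ e4 0 - e4 1
    · linarith [hleg' e4 q4]
    exact hall ⟨q1, q2, q3, q4⟩

end Pool.Agent.W280.PC
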