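import Pool.Agent.W280.PC.Arith

set_option autoImplicit false
set_option linter.unusedVariables false
set_option maxHeartbeats 4000000

/-!
The pointwise inequalities for ranks two and three.
-/

namespace Pool.Agent.W280.PC

lemma tri {x y z : ℤ} (h : x + y + z = 0) : |x| + |y| + |z| = 2 * x ∨ |x| + |y| + |z| = 2 * y ∨
    |x| + |y| + |z| = 2 * z ∨ |x| + |y| + |z| = -2 * x ∨ |x| + |y| + |z| = -2 * y ∨
    |x| + |y| + |z| = -2 * z := by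
  rcases abs_cases x with ⟨h1, g1⟩ | ⟨h1, g1⟩ <;>
  rcases abs_cases y with ⟨h2, g2⟩ | ⟨h2, g2⟩ <;>
  rcases abs_cases z with ⟨h3, g3⟩ | ⟨h3, g3⟩ <;>
  rw [h1, h2, h3] <;> omega

lemma e6_abs {D a0 a1 a2 b0 b1 b2 c0 c1 c2 : ℤ}
    (hs : a0 + a1 + a2 + b0 + b1 + b2 + c0 + c1 + c2 = 0)
    (ga0 : a0 ≤ a1)
    (ga1 : a1 ≤ a2)
    (ga2 : a2 ≤ a0 + D)
    (gb0 : b0 ≤ b1)
    (gb1 : b1 ≤ b2)
    (gb2 : b2 ≤ b0 + D)
    (gc0 : c0 ≤ c1)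
    (gc1 : c1 ≤ c2)
    (gc2 : c2 ≤ c0 + D)
    (h001 : -D < (a0 + b0 + c1))
    (h002 : (a0 + b0 + c2) < 0)
    (h010 : -D < (a0 + b1 + c0))
    (h011 : (a0 + b1 + c1) < 0)
    (h020 : (a0 + b2 + c0) < 0)
    (h022 : 0 < (a0 + b2 + c2))
    (h100 : -D < (a1 + b0 + c0))
    (h101 : (a1 + b0 + c1) < 0)
    (h110 : (a1 + b1 + c0) < 0)
    (h112 : 0 < (a1 + b1 + c2))
    (h121 : 0 < (a1 + b2 + c1))
    (h122 : (a1 + b2 + c2) < D)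
    (h200 : (a2 + b0 + c0) < 0)
    (h202 : 0 < (a2 + b0 + c2))
    (h211 : 0 < (a2 + b1 + c1))
    (h212 : (a2 + b1 + c2) < D)
    (h220 : 0 < (a2 + b2 + c0))
    (h221 : (a2 + b2 + c1) < D)
    : -6 * ((a2 - a0) + (b2 - b0) + (c2 - c0)) - (a0 + b0 + c1) - (a0 + b0 + c2) - (a0 + b1 + c0) - (a0 + b1 + c1) - (a0 + b2 + c0) + (a0 + b2 + c2) - (a1 + b0 + c0) - (a1 + b0 + c1) - (a1 + b1 + c0) + (a1 + b1 + c2) + (a1 + b2 + c1) + (a1 + b2 + c2) - (a2 + b0 + c0) + (a2 + b0 + c2) + (a2 + b1 + c1) + (a2 + b1 + c2) + (a2 + b2 + c0) + (a2 + b2 + c1) - 2 * (a0 + b0 + c0) + 2 * (a2 + b2 + c2) - 2 * D + (|a0 + b1 + c2| + |a1 + b2 + c0| + |a2 + b0 + c1|) + (|a0 + b2 + c1| + |a1 + b0 + c2| + |a2 + b1 + c0|) + (|a0 + b0 + c0 + D| + |a1 + b1 + c1| + |a2 + b2 + c2 - D|) < 0 := by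
  have k0 := tri (x := a0 + b1 + c2) (y := a1 + b2 + c0) (z := a2 + b0 + c1) (by linarith)
  have k1 := tri (x := a0 + b2 + c1) (y := a1 + b0 + c2) (z := a2 + b1 + c0) (by linarith)
  have k2 := tri (x := a0 + b0 + c0 + D) (y := a1 + b1 + c1) (z := a2 + b2 + c2 - D) (by linarith)
  generalize |a0 + b1 + c2| + |a1 + b2 + c0| + |a2 + b0 + c1| = S0 at k0 ⊢
  generalize |a0 + b2 + c1| + |a1 + b0 + c2| + |a2 + b1 + c0| = S1 at k1 ⊢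
  generalize |a0 + b0 + c0 + D| + |a1 + b1 + c1| + |a2 + b2 + c2 - D| = S2 at k2 ⊢
  rcases k0 with k0 | k0 | k0 | k0 | k0 | k0 <;>
  rcases k1 with k1 | k1 | k1 | k1 | k1 | k1 <;>
  rcases k2 with k2 | k2 | k2 | k2 | k2 | k2 <;> linarith

lemma Q_of {D : ℕ} (hD : 0 < D) (t : ℤ) (h1 : 0 ≤ t) (h2 : t ≤ D) : Q D t = t ^ 2 - D * t := by
  rw [Q_eq hD (z := t) (y := t) ⟨0, by ring⟩ (by rw [abs_of_nonneg h1]; exact h2), abs_of_nonneg h1]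

lemma Q_of' {D : ℕ} (hD : 0 < D) (t : ℤ) (h1 : -(D : ℤ) ≤ t) (h2 : t ≤ 0) :
    Q D t = t ^ 2 + D * t := by
  rw [Q_eq hD (z := t) (y := t) ⟨0, by ring⟩ (by rw [abs_of_nonpos h2]; linarith),
    abs_of_nonpos h2]
  ring

lemma Q_of0 {D : ℕ} (hD : 0 < D) (t : ℤ) (h1 : -(D : ℤ) ≤ t) (h2 : t ≤ D) :
    Q D t = t ^ 2 - D * |t| :=
  Q_eq hD (z := t) (y := t) ⟨0, by ring⟩ (abs_le.2 ⟨h1, h2⟩)

lemma Q_ofm {D : ℕ} (hD : 0 < D) (t : ℤ) (h1 : -(D : ℤ) ≤ t + D) (h2 : t + D ≤ D) :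
    Q D t = (t + D) ^ 2 - D * |t + D| :=
  Q_eq hD (z := t) (y := t + D) ⟨-1, by ring⟩ (abs_le.2 ⟨h1, h2⟩)

lemma Q_ofp {D : ℕ} (hD : 0 < D) (t : ℤ) (h1 : -(D : ℤ) ≤ t - D) (h2 : t - D ≤ D) :
    Q D t = (t - D) ^ 2 - D * |t - D| :=
  Q_eq hD (z := t) (y := t - D) ⟨1, by ring⟩ (abs_le.2 ⟨h1, h2⟩)

/-- three points, rank three -/
lemma e6_point {D : ℕ} (hD : 0 < D) {a0 a1 a2 b0 b1 b2 c0 c1 c2 : ℤ}
    (hs : a0 + a1 + a2 + b0 + b1 + b2 + c0 + c1 + c2 = 0)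
    (ga0 : a0 ≤ a1)
    (ga1 : a1 ≤ a2)
    (ga2 : a2 ≤ a0 + (D : ℤ))
    (gb0 : b0 ≤ b1)
    (gb1 : b1 ≤ b2)
    (gb2 : b2 ≤ b0 + (D : ℤ))
    (gc0 : c0 ≤ c1)
    (gc1 : c1 ≤ c2)
    (gc2 : c2 ≤ c0 + (D : ℤ))
    (h001 : -(D : ℤ) < (a0 + b0 + c1))
    (h002 : (a0 + b0 + c2) < 0)
    (h010 : -(D : ℤ) < (a0 + b1 + c0))
    (h011 : (a0 + b1 + c1) < 0)
    (h020 : (a0 + b2 + c0) < 0)
    (h022 : 0 < (a0 + b2 + c2))
    (h100 : -(D : ℤ) < (a1 + b0 + c0))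
    (h101 : (a1 + b0 + c1) < 0)
    (h110 : (a1 + b1 + c0) < 0)
    (h112 : 0 < (a1 + b1 + c2))
    (h121 : 0 < (a1 + b2 + c1))
    (h122 : (a1 + b2 + c2) < (D : ℤ))
    (h200 : (a2 + b0 + c0) < 0)
    (h202 : 0 < (a2 + b0 + c2))
    (h211 : 0 < (a2 + b1 + c1))
    (h212 : (a2 + b1 + c2) < (D : ℤ))
    (h220 : 0 < (a2 + b2 + c0))
    (h221 : (a2 + b2 + c1) < (D : ℤ))
    : 3 * (Q D (a1 - a0) + Q D (a2 - a1) + Q D (a2 - a0) + Q D (b1 - b0) + Q D (b2 - b1) + Q D (b2 - b0) + Q D (c1 - c0) + Q D (c2 - c1) + Q D (c2 - c0))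
      - (Q D (a0 + b0 + c0) + Q D (a0 + b0 + c1) + Q D (a0 + b0 + c2) + Q D (a0 + b1 + c0) + Q D (a0 + b1 + c1) + Q D (a0 + b1 + c2) + Q D (a0 + b2 + c0) + Q D (a0 + b2 + c1) + Q D (a0 + b2 + c2) + Q D (a1 + b0 + c0) + Q D (a1 + b0 + c1) + Q D (a1 + b0 + c2) + Q D (a1 + b1 + c0) + Q D (a1 + b1 + c1) + Q D (a1 + b1 + c2) + Q D (a1 + b2 + c0) + Q D (a1 + b2 + c1) + Q D (a1 + b2 + c2) + Q D (a2 + b0 + c0) + Q D (a2 + b0 + c1) + Q D (a2 + b0 + c2) + Q D (a2 + b1 + c0) + Q D (a2 + b1 + c1) + Q D (a2 + b1 + c2) + Q D (a2 + b2 + c0) + Q D (a2 + b2 + c1) + Q D (a2 + b2 + c2)) < 0 := by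
  have hD' : (0 : ℤ) < D := by exact_mod_cast hD
  have key := e6_abs hs ga0 ga1 ga2 gb0 gb1 gb2 gc0 gc1 gc2 h001 h002 h010 h011 h020 h022 h100 h101 h110 h112 h121 h122 h200 h202 h211 h212 h220 h221
  have qa0 := Q_of hD (a1 - a0) (by linarith) (by linarith)
  have qa1 := Q_of hD (a2 - a1) (by linarith) (by linarith)
  have qa2 := Q_of hD (a2 - a0) (by linarith) (by linarith)
  have qb0 := Q_of hD (b1 - b0) (by linarith) (by linarith)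
  have qb1 := Q_of hD (b2 - b1) (by linarith) (by linarith)
  have qb2 := Q_of hD (b2 - b0) (by linarith) (by linarith)
  have qc0 := Q_of hD (c1 - c0) (by linarith) (by linarith)
  have qc1 := Q_of hD (c2 - c1) (by linarith) (by linarith)
  have qc2 := Q_of hD (c2 - c0) (by linarith) (by linarith)
  have e000 := Q_ofm hD (a0 + b0 + c0) (by linarith) (by linarith)
  have e001 := Q_of' hD (a0 + b0 + c1) (by linarith) (by linarith)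
  have e002 := Q_of' hD (a0 + b0 + c2) (by linarith) (by linarith)
  have e010 := Q_of' hD (a0 + b1 + c0) (by linarith) (by linarith)
  have e011 := Q_of' hD (a0 + b1 + c1) (by linarith) (by linarith)
  have e012 := Q_of0 hD (a0 + b1 + c2) (by linarith) (by linarith)
  have e020 := Q_of' hD (a0 + b2 + c0) (by linarith) (by linarith)
  have e021 := Q_of0 hD (a0 + b2 + c1) (by linarith) (by linarith)
  have e022 := Q_of hD (a0 + b2 + c2) (by linarith) (by linarith)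
  have e100 := Q_of' hD (a1 + b0 + c0) (by linarith) (by linarith)
  have e101 := Q_of' hD (a1 + b0 + c1) (by linarith) (by linarith)
  have e102 := Q_of0 hD (a1 + b0 + c2) (by linarith) (by linarith)
  have e110 := Q_of' hD (a1 + b1 + c0) (by linarith) (by linarith)
  have e111 := Q_of0 hD (a1 + b1 + c1) (by linarith) (by linarith)
  have e112 := Q_of hD (a1 + b1 + c2) (by linarith) (by linarith)
  have e120 := Q_of0 hD (a1 + b2 + c0) (by linarith) (by linarith)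
  have e121 := Q_of hD (a1 + b2 + c1) (by linarith) (by linarith)
  have e122 := Q_of hD (a1 + b2 + c2) (by linarith) (by linarith)
  have e200 := Q_of' hD (a2 + b0 + c0) (by linarith) (by linarith)
  have e201 := Q_of0 hD (a2 + b0 + c1) (by linarith) (by linarith)
  have e202 := Q_of hD (a2 + b0 + c2) (by linarith) (by linarith)
  have e210 := Q_of0 hD (a2 + b1 + c0) (by linarith) (by linarith)
  have e211 := Q_of hD (a2 + b1 + c1) (by linarith) (by linarith)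
  have e212 := Q_of hD (a2 + b1 + c2) (by linarith) (by linarith)
  have e220 := Q_of hD (a2 + b2 + c0) (by linarith) (by linarith)
  have e221 := Q_of hD (a2 + b2 + c1) (by linarith) (by linarith)
  have e222 := Q_ofp hD (a2 + b2 + c2) (by linarith) (by linarith)
  rw [qa0, qa1, qa2, qb0, qb1, qb2, qc0, qc1, qc2, e000, e001, e002, e010, e011, e012, e020, e021, e022, e100, e101, e102, e110, e111, e112, e120, e121, e122, e200, e201, e202, e210, e211, e212, e220, e221, e222]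
  have h3 := mul_neg_of_pos_of_neg hD' key
  generalize |a0 + b1 + c2| = V0 at h3 ⊢
  generalize |a0 + b2 + c1| = V1 at h3 ⊢
  generalize |a1 + b0 + c2| = V2 at h3 ⊢
  generalize |a1 + b1 + c1| = V3 at h3 ⊢
  generalize |a1 + b2 + c0| = V4 at h3 ⊢
  generalize |a2 + b0 + c1| = V5 at h3 ⊢
  generalize |a2 + b1 + c0| = V6 at h3 ⊢
  generalize |a0 + b0 + c0 + (D : ℤ)| = V7 at h3 ⊢
  generalize |a2 + b2 + c2 - (D : ℤ)| = V8 at h3 ⊢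
  have hc : c2 = -(a0 + a1 + a2 + b0 + b1 + b2 + c0 + c1) := by linarith
  rw [hc] at h3 ⊢
  refine lt_of_eq_of_lt ?_ h3
  ring

lemma d4_abs {D a0 a1 b0 b1 c0 c1 d0 d1 : ℤ}
    (hs : a0 + a1 + b0 + b1 + c0 + c1 + d0 + d1 = 0)
    (ga0 : a0 ≤ a1)
    (ga1 : a1 ≤ a0 + D)
    (gb0 : b0 ≤ b1)
    (gb1 : b1 ≤ b0 + D)
    (gc0 : c0 ≤ c1)
    (gc1 : c1 ≤ c0 + D)
    (gd0 : d0 ≤ d1)
    (gd1 : d1 ≤ d0 + D)
    (h0001 : (a0 + b0 + c0 + d1) < 0)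
    (k0001 : -D < (a0 + b0 + c0 + d1))
    (h0010 : (a0 + b0 + c1 + d0) < 0)
    (k0010 : -D < (a0 + b0 + c1 + d0))
    (h0100 : (a0 + b1 + c0 + d0) < 0)
    (k0100 : -D < (a0 + b1 + c0 + d0))
    (h1000 : (a1 + b0 + c0 + d0) < 0)
    (k1000 : -D < (a1 + b0 + c0 + d0))
    : -4 * ((a1 - a0) + (b1 - b0) + (c1 - c0) + (d1 - d0)) - 2 * ((a0 + b0 + c0 + d1) + (a0 + b0 + c1 + d0) + (a0 + b1 + c0 + d0) + (a1 + b0 + c0 + d0)) - 4 * (a0 + b0 + c0 + d0) - 2 * D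
      + 2 * (|a1 + b1 + c0 + d0| + |a1 + b0 + c1 + d0| + |a1 + b0 + c0 + d1|) + 2 * |a0 + b0 + c0 + d0 + D| ≤ 0 := by
  rcases abs_cases (a1 + b1 + c0 + d0) with ⟨e0, f0⟩ | ⟨e0, f0⟩ <;>
  rcases abs_cases (a1 + b0 + c1 + d0) with ⟨e1, f1⟩ | ⟨e1, f1⟩ <;>
  rcases abs_cases (a1 + b0 + c0 + d1) with ⟨e2, f2⟩ | ⟨e2, f2⟩ <;>
  rcases abs_cases (a0 + b0 + c0 + d0 + D) with ⟨e3, f3⟩ | ⟨e3, f3⟩ <;>
  rw [e0, e1, e2, e3] <;> linarith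

/-- four points, rank two -/
lemma d4_point {D : ℕ} (hD : 0 < D) {a0 a1 b0 b1 c0 c1 d0 d1 : ℤ}
    (hs : a0 + a1 + b0 + b1 + c0 + c1 + d0 + d1 = 0)
    (ga0 : a0 ≤ a1)
    (ga1 : a1 ≤ a0 + (D : ℤ))
    (gb0 : b0 ≤ b1)
    (gb1 : b1 ≤ b0 + (D : ℤ))
    (gc0 : c0 ≤ c1)
    (gc1 : c1 ≤ c0 + (D : ℤ))
    (gd0 : d0 ≤ d1)
    (gd1 : d1 ≤ d0 + (D : ℤ))
    (h0001 : (a0 + b0 + c0 + d1) < 0)
    (k0001 : -(D : ℤ) < (a0 + b0 + c0 + d1))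
    (h0010 : (a0 + b0 + c1 + d0) < 0)
    (k0010 : -(D : ℤ) < (a0 + b0 + c1 + d0))
    (h0100 : (a0 + b1 + c0 + d0) < 0)
    (k0100 : -(D : ℤ) < (a0 + b1 + c0 + d0))
    (h1000 : (a1 + b0 + c0 + d0) < 0)
    (k1000 : -(D : ℤ) < (a1 + b0 + c0 + d0))
    : 4 * (Q D (a1 - a0) + Q D (b1 - b0) + Q D (c1 - c0) + Q D (d1 - d0))
      - (Q D (a0 + b0 + c0 + d0) + Q D (a0 + b0 + c0 + d1) + Q D (a0 + b0 + c1 + d0) + Q D (a0 + b0 + c1 + d1) + Q D (a0 + b1 + c0 + d0) + Q D (a0 + b1 + c0 + d1) + Q D (a0 + b1 + c1 + d0) + Q D (a0 + b1 + c1 + d1) + Q D (a1 + b0 + c0 + d0) + Q D (a1 + b0 + c0 + d1) + Q D (a1 + b0 + c1 + d0) + Q D (a1 + b0 + c1 + d1) + Q D (a1 + b1 + c0 + d0) + Q D (a1 + b1 + c0 + d1) + Q D (a1 + b1 + c1 + d0) + Q D (a1 + b1 + c1 + d1)) ≤ 0 := by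
  have hD' : (0 : ℤ) < D := by exact_mod_cast hD
  have key := d4_abs hs ga0 ga1 gb0 gb1 gc0 gc1 gd0 gd1 h0001 k0001 h0010 k0010 h0100 k0100 h1000 k1000
  have qa0 := Q_of hD (a1 - a0) (by linarith) (by linarith)
  have qb0 := Q_of hD (b1 - b0) (by linarith) (by linarith)
  have qc0 := Q_of hD (c1 - c0) (by linarith) (by linarith)
  have qd0 := Q_of hD (d1 - d0) (by linarith) (by linarith)
  have e0000 := Q_ofm hD (a0 + b0 + c0 + d0) (by linarith) (by linarith)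
  have e0001 := Q_of' hD (a0 + b0 + c0 + d1) (by linarith) (by linarith)
  have e0010 := Q_of' hD (a0 + b0 + c1 + d0) (by linarith) (by linarith)
  have e0100 := Q_of' hD (a0 + b1 + c0 + d0) (by linarith) (by linarith)
  have e1000 := Q_of' hD (a1 + b0 + c0 + d0) (by linarith) (by linarith)
  have e1001 := Q_of0 hD (a1 + b0 + c0 + d1) (by linarith) (by linarith)
  have e1010 := Q_of0 hD (a1 + b0 + c1 + d0) (by linarith) (by linarith)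
  have e1100 := Q_of0 hD (a1 + b1 + c0 + d0) (by linarith) (by linarith)
  have e0011 : Q D (a0 + b0 + c1 + d1) = Q D (a1 + b1 + c0 + d0) := by
    rw [← Q_neg hD (a1 + b1 + c0 + d0)]; congr 1; linarith
  have e0101 : Q D (a0 + b1 + c0 + d1) = Q D (a1 + b0 + c1 + d0) := by
    rw [← Q_neg hD (a1 + b0 + c1 + d0)]; congr 1; linarith
  have e0110 : Q D (a0 + b1 + c1 + d0) = Q D (a1 + b0 + c0 + d1) := by
    rw [← Q_neg hD (a1 + b0 + c0 + d1)]; congr 1; linarith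
  have e0111 : Q D (a0 + b1 + c1 + d1) = Q D (a1 + b0 + c0 + d0) := by
    rw [← Q_neg hD (a1 + b0 + c0 + d0)]; congr 1; linarith
  have e1011 : Q D (a1 + b0 + c1 + d1) = Q D (a0 + b1 + c0 + d0) := by
    rw [← Q_neg hD (a0 + b1 + c0 + d0)]; congr 1; linarith
  have e1101 : Q D (a1 + b1 + c0 + d1) = Q D (a0 + b0 + c1 + d0) := by
    rw [← Q_neg hD (a0 + b0 + c1 + d0)]; congr 1; linarith
  have e1110 : Q D (a1 + b1 + c1 + d0) = Q D (a0 + b0 + c0 + d1) := by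
    rw [← Q_neg hD (a0 + b0 + c0 + d1)]; congr 1; linarith
  have e1111 : Q D (a1 + b1 + c1 + d1) = Q D (a0 + b0 + c0 + d0) := by
    rw [← Q_neg hD (a0 + b0 + c0 + d0)]; congr 1; linarith
  rw [qa0, qb0, qc0, qd0, e0011, e0101, e0110, e0111, e1011, e1101, e1110, e1111, e0000, e0001, e0010, e0100, e1000, e1001, e1010, e1100]
  have h3 := mul_nonpos_of_nonneg_of_nonpos hD'.le key
  generalize |a1 + b1 + c0 + d0| = V0 at h3 ⊢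
  generalize |a1 + b0 + c1 + d0| = V1 at h3 ⊢
  generalize |a1 + b0 + c0 + d1| = V2 at h3 ⊢
  generalize |a0 + b0 + c0 + d0 + (D : ℤ)| = V3 at h3 ⊢
  have hc : d1 = -(a0 + a1 + b0 + b1 + c0 + c1 + d0) := by linarith
  rw [hc] at h3 ⊢
  refine le_of_eq_of_le ?_ h3
  ring

lemma d4_abs_strict {D a0 a1 b0 b1 c0 c1 d0 d1 : ℤ}
    (hs : a0 + a1 + b0 + b1 + c0 + c1 + d0 + d1 = 0)
    (ga0 : a0 < a1)
    (ga1 : a1 < a0 + D)
    (gb0 : b0 < b1)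
    (gb1 : b1 < b0 + D)
    (gc0 : c0 < c1)
    (gc1 : c1 < c0 + D)
    (gd0 : d0 < d1)
    (gd1 : d1 < d0 + D)
    (h0001 : (a0 + b0 + c0 + d1) < 0)
    (k0001 : -D < (a0 + b0 + c0 + d1))
    (h0010 : (a0 + b0 + c1 + d0) < 0)
    (k0010 : -D < (a0 + b0 + c1 + d0))
    (h0100 : (a0 + b1 + c0 + d0) < 0)
    (k0100 : -D < (a0 + b1 + c0 + d0))
    (h1000 : (a1 + b0 + c0 + d0) < 0)
    (k1000 : -D < (a1 + b0 + c0 + d0))
    (n1100 : (a1 + b1 + c0 + d0) ≠ 0)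
    (n1010 : (a1 + b0 + c1 + d0) ≠ 0)
    (n1001 : (a1 + b0 + c0 + d1) ≠ 0)
    (n0000 : a0 + b0 + c0 + d0 + D ≠ 0)
    : -4 * ((a1 - a0) + (b1 - b0) + (c1 - c0) + (d1 - d0)) - 2 * ((a0 + b0 + c0 + d1) + (a0 + b0 + c1 + d0) + (a0 + b1 + c0 + d0) + (a1 + b0 + c0 + d0)) - 4 * (a0 + b0 + c0 + d0) - 2 * D
      + 2 * (|a1 + b1 + c0 + d0| + |a1 + b0 + c1 + d0| + |a1 + b0 + c0 + d1|) + 2 * |a0 + b0 + c0 + d0 + D| < 0 := by
  rcases abs_cases (a1 + b1 + c0 + d0) with ⟨e0, f0⟩ | ⟨e0, f0⟩ <;>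
  rcases abs_cases (a1 + b0 + c1 + d0) with ⟨e1, f1⟩ | ⟨e1, f1⟩ <;>
  rcases abs_cases (a1 + b0 + c0 + d1) with ⟨e2, f2⟩ | ⟨e2, f2⟩ <;>
  rcases abs_cases (a0 + b0 + c0 + d0 + D) with ⟨e3, f3⟩ | ⟨e3, f3⟩ <;>
  rw [e0, e1, e2, e3] <;> omega

/-- four points, rank two -/
lemma d4_point_strict {D : ℕ} (hD : 0 < D) {a0 a1 b0 b1 c0 c1 d0 d1 : ℤ}
    (hs : a0 + a1 + b0 + b1 + c0 + c1 + d0 + d1 = 0)
    (ga0 : a0 < a1)
    (ga1 : a1 < a0 + (D : ℤ))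
    (gb0 : b0 < b1)
    (gb1 : b1 < b0 + (D : ℤ))
    (gc0 : c0 < c1)
    (gc1 : c1 < c0 + (D : ℤ))
    (gd0 : d0 < d1)
    (gd1 : d1 < d0 + (D : ℤ))
    (h0001 : (a0 + b0 + c0 + d1) < 0)
    (k0001 : -(D : ℤ) < (a0 + b0 + c0 + d1))
    (h0010 : (a0 + b0 + c1 + d0) < 0)
    (k0010 : -(D : ℤ) < (a0 + b0 + c1 + d0))
    (h0100 : (a0 + b1 + c0 + d0) < 0)
    (k0100 : -(D : ℤ) < (a0 + b1 + c0 + d0))
    (h1000 : (a1 + b0 + c0 + d0) < 0)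
    (k1000 : -(D : ℤ) < (a1 + b0 + c0 + d0))
    (n1100 : (a1 + b1 + c0 + d0) ≠ 0)
    (n1010 : (a1 + b0 + c1 + d0) ≠ 0)
    (n1001 : (a1 + b0 + c0 + d1) ≠ 0)
    (n0000 : a0 + b0 + c0 + d0 + (D : ℤ) ≠ 0)
    : 4 * (Q D (a1 - a0) + Q D (b1 - b0) + Q D (c1 - c0) + Q D (d1 - d0))
      - (Q D (a0 + b0 + c0 + d0) + Q D (a0 + b0 + c0 + d1) + Q D (a0 + b0 + c1 + d0) + Q D (a0 + b0 + c1 + d1) + Q D (a0 + b1 + c0 + d0) + Q D (a0 + b1 + c0 + d1) + Q D (a0 + b1 + c1 + d0) + Q D (a0 + b1 + c1 + d1) + Q D (a1 + b0 + c0 + d0) + Q D (a1 + b0 + c0 + d1) + Q D (a1 + b0 + c1 + d0) + Q D (a1 + b0 + c1 + d1) + Q D (a1 + b1 + c0 + d0) + Q D (a1 + b1 + c0 + d1) + Q D (a1 + b1 + c1 + d0) + Q D (a1 + b1 + c1 + d1)) < 0 := by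
  have hD' : (0 : ℤ) < D := by exact_mod_cast hD
  have key := d4_abs_strict hs ga0 ga1 gb0 gb1 gc0 gc1 gd0 gd1 h0001 k0001 h0010 k0010 h0100 k0100 h1000 k1000 n1100 n1010 n1001 n0000
  have qa0 := Q_of hD (a1 - a0) (by linarith) (by linarith)
  have qb0 := Q_of hD (b1 - b0) (by linarith) (by linarith)
  have qc0 := Q_of hD (c1 - c0) (by linarith) (by linarith)
  have qd0 := Q_of hD (d1 - d0) (by linarith) (by linarith)
  have e0000 := Q_ofm hD (a0 + b0 + c0 + d0) (by linarith) (by linarith)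
  have e0001 := Q_of' hD (a0 + b0 + c0 + d1) (by linarith) (by linarith)
  have e0010 := Q_of' hD (a0 + b0 + c1 + d0) (by linarith) (by linarith)
  have e0100 := Q_of' hD (a0 + b1 + c0 + d0) (by linarith) (by linarith)
  have e1000 := Q_of' hD (a1 + b0 + c0 + d0) (by linarith) (by linarith)
  have e1001 := Q_of0 hD (a1 + b0 + c0 + d1) (by linarith) (by linarith)
  have e1010 := Q_of0 hD (a1 + b0 + c1 + d0) (by linarith) (by linarith)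
  have e1100 := Q_of0 hD (a1 + b1 + c0 + d0) (by linarith) (by linarith)
  have e0011 : Q D (a0 + b0 + c1 + d1) = Q D (a1 + b1 + c0 + d0) := by
    rw [← Q_neg hD (a1 + b1 + c0 + d0)]; congr 1; linarith
  have e0101 : Q D (a0 + b1 + c0 + d1) = Q D (a1 + b0 + c1 + d0) := by
    rw [← Q_neg hD (a1 + b0 + c1 + d0)]; congr 1; linarith
  have e0110 : Q D (a0 + b1 + c1 + d0) = Q D (a1 + b0 + c0 + d1) := by
    rw [← Q_neg hD (a1 + b0 + c0 + d1)]; congr 1; linarith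
  have e0111 : Q D (a0 + b1 + c1 + d1) = Q D (a1 + b0 + c0 + d0) := by
    rw [← Q_neg hD (a1 + b0 + c0 + d0)]; congr 1; linarith
  have e1011 : Q D (a1 + b0 + c1 + d1) = Q D (a0 + b1 + c0 + d0) := by
    rw [← Q_neg hD (a0 + b1 + c0 + d0)]; congr 1; linarith
  have e1101 : Q D (a1 + b1 + c0 + d1) = Q D (a0 + b0 + c1 + d0) := by
    rw [← Q_neg hD (a0 + b0 + c1 + d0)]; congr 1; linarith
  have e1110 : Q D (a1 + b1 + c1 + d0) = Q D (a0 + b0 + c0 + d1) := by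
    rw [← Q_neg hD (a0 + b0 + c0 + d1)]; congr 1; linarith
  have e1111 : Q D (a1 + b1 + c1 + d1) = Q D (a0 + b0 + c0 + d0) := by
    rw [← Q_neg hD (a0 + b0 + c0 + d0)]; congr 1; linarith
  rw [qa0, qb0, qc0, qd0, e0011, e0101, e0110, e0111, e1011, e1101, e1110, e1111, e0000, e0001, e0010, e0100, e1000, e1001, e1010, e1100]
  have h3 := mul_neg_of_pos_of_neg hD' key
  generalize |a1 + b1 + c0 + d0| = V0 at h3 ⊢
  generalize |a1 + b0 + c1 + d0| = V1 at h3 ⊢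
  generalize |a1 + b0 + c0 + d1| = V2 at h3 ⊢
  generalize |a0 + b0 + c0 + d0 + (D : ℤ)| = V3 at h3 ⊢
  have hc : d1 = -(a0 + a1 + b0 + b1 + c0 + c1 + d0) := by linarith
  rw [hc] at h3 ⊢
  refine lt_of_eq_of_lt ?_ h3
  ring

end Pool.Agent.W280.PC
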