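import Pool.Agent.W280.PC.Leg
import Pool.Agent.W280.PC.Point

set_option autoImplicit false
set_option maxHeartbeats 4000000

/-!
The arithmetic theorem for rank three with three singular points.
-/

namespace Pool.Agent.W280.PC

open Finset

section E3

variable {D : ℤ}

lemma E3_eq (x : Fin 3 → ℤ) (i : ℤ) : ∃ i0 : Fin 3, ((i0 : ℕ) : ℤ) = i % 3 ∧
    E3 D (x 0) (x 1) (x 2) i = x i0 + D * (i / 3) := by
  have h : i % 3 = 0 ∨ i % 3 = 1 ∨ i % 3 = 2 := by omega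
  rcases h with h | h | h
  · exact ⟨0, by rw [h]; rfl, by unfold E3; rw [if_pos h]⟩
  · exact ⟨1, by rw [h]; rfl, by unfold E3; rw [if_neg (by omega), if_pos h]⟩
  · exact ⟨2, by rw [h]; rfl, by unfold E3; rw [if_neg (by omega), if_neg (by omega)]⟩

lemma E3_succ {x0 x1 x2 : ℤ} (h0 : x0 ≤ x1) (h1 : x1 ≤ x2) (h2 : x2 ≤ x0 + D) (i : ℤ) :
    E3 D x0 x1 x2 i ≤ E3 D x0 x1 x2 (i + 1) := by
  obtain ⟨q, s, hs, rfl⟩ : ∃ q s : ℤ, (s = 0 ∨ s = 1 ∨ s = 2) ∧ i = s + 3 * q :=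
    ⟨i / 3, i % 3, by omega, by omega⟩
  rw [show s + 3 * q + 1 = (s + 1) + 3 * q by ring, E3_add, E3_add]
  rcases hs with rfl | rfl | rfl
  · rw [show (0 : ℤ) + 1 = 1 by norm_num, E3_v0, E3_v1]; linarith
  · rw [show (1 : ℤ) + 1 = 2 by norm_num, E3_v1, E3_v2]; linarith
  · rw [show (2 : ℤ) + 1 = 0 + 3 * 1 by norm_num, E3_add, E3_v0, E3_v2]; linarith

lemma E3_win (x0 x1 x2 c : ℤ) : E3 D x0 x1 x2 c + E3 D x0 x1 x2 (c - 1) + E3 D x0 x1 x2 (c - 2) =
    x0 + x1 + x2 + D * (c - 2) := by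
  obtain ⟨q, s, hs, rfl⟩ : ∃ q s : ℤ, (s = 0 ∨ s = 1 ∨ s = 2) ∧ c = s + 3 * q :=
    ⟨c / 3, c % 3, by omega, by omega⟩
  rw [show s + 3 * q - 1 = (s - 1) + 3 * q by ring, show s + 3 * q - 2 = (s - 2) + 3 * q by ring,
    E3_add, E3_add, E3_add]
  rcases hs with rfl | rfl | rfl
  · rw [show (0 : ℤ) - 1 = -1 by norm_num, show (0 : ℤ) - 2 = -2 by norm_num, E3_v0, E3_vm1,
      E3_vm2]; ring
  · rw [show (1 : ℤ) - 1 = 0 by norm_num, show (1 : ℤ) - 2 = -1 by norm_num, E3_v0, E3_vm1,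
      E3_v1]; ring
  · rw [show (2 : ℤ) - 1 = 1 by norm_num, show (2 : ℤ) - 2 = 0 by norm_num, E3_v0, E3_v1,
      E3_v2]; ring

/-- sums of periodic functions over windows -/
lemma E3_per (x : Fin 3 → ℤ) (g : ℤ → ℤ) (hg : ∀ v w, D ∣ v - w → g v = g w) (t : ℤ) :
    g (E3 D (x 0) (x 1) (x 2) t) + g (E3 D (x 0) (x 1) (x 2) (t + 1)) +
      g (E3 D (x 0) (x 1) (x 2) (t + 2)) = g (x 0) + g (x 1) + g (x 2) := by
  have hq : ∀ s q : ℤ, g (E3 D (x 0) (x 1) (x 2) (s + 3 * q)) = g (E3 D (x 0) (x 1) (x 2) s) := by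
    intro s q
    apply hg
    rw [E3_add]
    exact ⟨q, by ring⟩
  obtain ⟨q, s, hs, rfl⟩ : ∃ q s : ℤ, (s = 0 ∨ s = 1 ∨ s = 2) ∧ t = s + 3 * q :=
    ⟨t / 3, t % 3, by omega, by omega⟩
  rw [show s + 3 * q + 1 = (s + 1) + 3 * q by ring, show s + 3 * q + 2 = (s + 2) + 3 * q by ring,
    hq, hq, hq]
  have v0 : E3 D (x 0) (x 1) (x 2) 0 = x 0 := by rw [E3_v0]; ring
  have v1 : E3 D (x 0) (x 1) (x 2) 1 = x 1 := by rw [E3_v1]; ring
  have v2 : E3 D (x 0) (x 1) (x 2) 2 = x 2 := by rw [E3_v2]; ring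
  rcases hs with rfl | rfl | rfl
  · rw [show (0 : ℤ) + 1 = 1 by norm_num, show (0 : ℤ) + 2 = 2 by norm_num, v0, v1, v2]
  · rw [show (1 : ℤ) + 1 = 2 by norm_num, show (1 : ℤ) + 2 = 0 + 3 * 1 by norm_num, hq, v0, v1, v2]
    ring
  · rw [show (2 : ℤ) + 1 = 0 + 3 * 1 by norm_num, show (2 : ℤ) + 2 = 1 + 3 * 1 by norm_num, hq, hq,
      v0, v1, v2]
    ring

end E3

/-- the inequalities satisfied in the class `a`, rank three and two finite singular points -/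
def Uni3 (D : ℕ) (e1 e2 e3 : Fin 3 → ℤ) (a : ℤ) : Prop :=
  ∃ σ1 σ2 σ3 : Equiv.Perm (Fin 3),
    (Monotone fun l => wI D a (e1 (σ1 l))) ∧ (Monotone fun l => wI D a (e2 (σ2 l))) ∧
    (Monotone fun l => wI D a (e3 (σ3 l))) ∧
    ∀ (m q : ℤ) (i j s : Fin 3),
      ∑ l, wI D a (e1 l) + ∑ l, wI D a (e2 l) - ∑ l, wI D a (e3 l) = m * D →
      m + ((i : ℕ) + (j : ℕ) : ℤ) = 3 * q + (s : ℕ) →
      wI D a (e1 (σ1 i)) + wI D a (e2 (σ2 j)) < q * D + wI D a (e3 (σ3 s))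

/-- the pointwise inequality, for exponents -/
lemma point3 {D : ℕ} (hD : 0 < D) {e1 e2 e3 : Fin 3 → ℤ} (hsum : ∑ l, e1 l + ∑ l, e2 l = ∑ l, e3 l)
    {a : ℤ} (ha : IsCoprime a (D : ℤ)) (h : Uni3 D e1 e2 e3 a) (h' : Uni3 D e1 e2 e3 (-a)) :
    3 * ((∑ l, ∑ l', Q D (a * (e1 l - e1 l'))) + (∑ l, ∑ l', Q D (a * (e2 l - e2 l'))) +
      (∑ l, ∑ l', Q D (a * (e3 l - e3 l')))) -
      2 * ∑ i, ∑ j, ∑ k, Q D (a * (e1 i + e2 j - e3 k)) < 0 := by
  have hD' : (0 : ℤ) < D := by exact_mod_cast hD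
  obtain ⟨σ1, σ2, σ3, m1, m2, m3, hU⟩ := h
  obtain ⟨τ1, τ2, τ3, n1, n2, n3, hU'⟩ := h'
  obtain ⟨c1, hc1⟩ := leg3 hD ha e1 σ1 τ1 m1 n1
  obtain ⟨c2, hc2⟩ := leg3 hD ha e2 σ2 τ2 m2 n2
  obtain ⟨c3, hc3⟩ := leg3 hD ha e3 σ3 τ3 m3 n3
  -- the integer m
  have hm : ∀ b : ℤ, ∃ m : ℤ,
      ∑ l, wI D b (e1 l) + ∑ l, wI D b (e2 l) - ∑ l, wI D b (e3 l) = m * D := by
    intro b
    have hd : ∀ e : Fin 3 → ℤ, (D : ℤ) ∣ ∑ l, wI D b (e l) - b * ∑ l, e l := by
      intro e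
      rw [Finset.mul_sum, ← Finset.sum_sub_distrib]
      exact Finset.dvd_sum fun l _ => wI_mod b (e l)
    obtain ⟨u1, h1⟩ := hd e1
    obtain ⟨u2, h2⟩ := hd e2
    obtain ⟨u3, h3⟩ := hd e3
    exact ⟨u1 + u2 - u3, by linear_combination h1 + h2 - h3 + b * hsum⟩
  obtain ⟨m, hm1⟩ := hm a
  obtain ⟨m', hm2⟩ := hm (-a)
  have hL := hU m
  have hL' := hU' m'
  set x1 : Fin 3 → ℤ := fun l => wI D a (e1 (σ1 l)) with hx1
  set x2 : Fin 3 → ℤ := fun l => wI D a (e2 (σ2 l)) with hx2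
  set x3 : Fin 3 → ℤ := fun l => wI D a (e3 (σ3 l)) with hx3
  set z1 : Fin 3 → ℤ := fun l => wI D (-a) (e1 (τ1 l)) with hz1
  set z2 : Fin 3 → ℤ := fun l => wI D (-a) (e2 (τ2 l)) with hz2
  set z3 : Fin 3 → ℤ := fun l => wI D (-a) (e3 (τ3 l)) with hz3
  have s1 : ∑ l, wI D a (e1 l) = x1 0 + x1 1 + x1 2 := by
    rw [← Fin.sum_univ_three]; exact (Equiv.sum_comp σ1 (fun l => wI D a (e1 l))).symm
  have s2 : ∑ l, wI D a (e2 l) = x2 0 + x2 1 + x2 2 := by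
    rw [← Fin.sum_univ_three]; exact (Equiv.sum_comp σ2 (fun l => wI D a (e2 l))).symm
  have s3 : ∑ l, wI D a (e3 l) = x3 0 + x3 1 + x3 2 := by
    rw [← Fin.sum_univ_three]; exact (Equiv.sum_comp σ3 (fun l => wI D a (e3 l))).symm
  have t1 : ∑ l, wI D (-a) (e1 l) = z1 0 + z1 1 + z1 2 := by
    rw [← Fin.sum_univ_three]; exact (Equiv.sum_comp τ1 (fun l => wI D (-a) (e1 l))).symm
  have t2 : ∑ l, wI D (-a) (e2 l) = z2 0 + z2 1 + z2 2 := by
    rw [← Fin.sum_univ_three]; exact (Equiv.sum_comp τ2 (fun l => wI D (-a) (e2 l))).symm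
  have t3 : ∑ l, wI D (-a) (e3 l) = z3 0 + z3 1 + z3 2 := by
    rw [← Fin.sum_univ_three]; exact (Equiv.sum_comp τ3 (fun l => wI D (-a) (e3 l))).symm
  set X : ℤ → ℤ := E3 D (x1 0) (x1 1) (x1 2) with hX
  set Y : ℤ → ℤ := E3 D (x2 0) (x2 1) (x2 2) with hY
  set V : ℤ → ℤ := E3 D (x3 0) (x3 1) (x3 2) with hV
  change ∀ i, E3 D (z1 0) (z1 1) (z1 2) i = -X (c1 - i) at hc1
  change ∀ i, E3 D (z2 0) (z2 1) (z2 2) i = -Y (c2 - i) at hc2
  change ∀ i, E3 D (z3 0) (z3 1) (z3 2) i = -V (c3 - i) at hc3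
  have ext_gen : ∀ (y1 y2 y3 : Fin 3 → ℤ) (M : ℤ),
      (∀ (q : ℤ) (i j s : Fin 3), M + ((i : ℕ) + (j : ℕ) : ℤ) = 3 * q + (s : ℕ) →
        y1 i + y2 j < q * D + y3 s) →
      ∀ i j : ℤ, E3 D (y1 0) (y1 1) (y1 2) i + E3 D (y2 0) (y2 1) (y2 2) j <
        E3 D (y3 0) (y3 1) (y3 2) (i + j + M) := by
    intro y1 y2 y3 M hy i j
    obtain ⟨i0, hi0, hi⟩ := E3_eq (D := (D : ℤ)) y1 i
    obtain ⟨j0, hj0, hj⟩ := E3_eq (D := (D : ℤ)) y2 j
    obtain ⟨k0, hk0, hk⟩ := E3_eq (D := (D : ℤ)) y3 (i + j + M)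
    rw [hi, hj, hk]
    have := hy ((i + j + M) / 3 - i / 3 - j / 3) i0 j0 k0 (by omega)
    nlinarith
  have L : ∀ i j : ℤ, X i + Y j < V (i + j + m) := ext_gen x1 x2 x3 m (fun q i j s => hL q i j s hm1)
  have L' : ∀ i j : ℤ, X i + Y j > V (i + j + m - 2) := by
    intro i j
    have h1 := ext_gen z1 z2 z3 m' (fun q i j s => hL' q i j s hm2) (c1 - i) (c2 - j)
    rw [hc1, hc2, hc3] at h1
    -- the relation between the sums
    have w1 := E3_win (D := (D : ℤ)) (x1 0) (x1 1) (x1 2) c1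
    have w2 := E3_win (D := (D : ℤ)) (x2 0) (x2 1) (x2 2) c2
    have w3 := E3_win (D := (D : ℤ)) (x3 0) (x3 1) (x3 2) c3
    change X c1 + X (c1 - 1) + X (c1 - 2) = _ at w1
    change Y c2 + Y (c2 - 1) + Y (c2 - 2) = _ at w2
    change V c3 + V (c3 - 1) + V (c3 - 2) = _ at w3
    have p10 := hc1 0
    have p11 := hc1 1
    have p12 := hc1 2
    have p20 := hc2 0
    have p21 := hc2 1
    have p22 := hc2 2
    have p30 := hc3 0
    have p31 := hc3 1
    have p32 := hc3 2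
    rw [E3_v0, sub_zero] at p10 p20 p30
    rw [E3_v1] at p11 p21 p31
    rw [E3_v2] at p12 p22 p32
    have key : (D : ℤ) * (c3 - m' - c1 - c2 - (m - 2)) = 0 := by
      rw [t1, t2, t3] at hm2
      rw [s1, s2, s3] at hm1
      linear_combination hm1 + hm2 - p10 - p11 - p12 - p20 - p21 - p22 + p30 + p31 + p32 + w1 + w2 - w3
    have key2 : c3 - m' - c1 - c2 - (m - 2) = 0 := by
      rcases mul_eq_zero.1 key with h0 | h0
      · exact absurd h0 hD'.ne'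
      · exact h0
    have e1 : c1 - (c1 - i) = i := by ring
    have e2 : c2 - (c2 - j) = j := by ring
    have e3 : c3 - (c1 - i + (c2 - j) + m') = i + j + m - 2 := by linarith
    rw [e1, e2, e3] at h1
    linarith
  -- monotonicity
  have bnd : ∀ (e : Fin 3 → ℤ) (σ : Equiv.Perm (Fin 3)),
      wI D a (e (σ 2)) ≤ wI D a (e (σ 0)) + D := by
    intro e σ
    have k1 := wI_le hD a (e (σ 2))
    have k2 := wI_nonneg hD a (e (σ 0))
    linarith
  have mX : ∀ i, X i ≤ X (i + 1) := E3_succ (m1 (by decide)) (m1 (by decide)) (bnd e1 σ1)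
  have mY : ∀ i, Y i ≤ Y (i + 1) := E3_succ (m2 (by decide)) (m2 (by decide)) (bnd e2 σ2)
  have mV : ∀ i, V i ≤ V (i + 1) := E3_succ (m3 (by decide)) (m3 (by decide)) (bnd e3 σ3)
  have pX : ∀ i, X (i + 3) = X i + D := fun i => by
    have := E3_add (D : ℤ) (x1 0) (x1 1) (x1 2) i 1
    rw [mul_one, mul_one] at this; exact this
  have pY : ∀ i, Y (i + 3) = Y i + D := fun i => by
    have := E3_add (D : ℤ) (x2 0) (x2 1) (x2 2) i 1
    rw [mul_one, mul_one] at this; exact this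
  have pV : ∀ i, V (i + 3) = V i + D := fun i => by
    have := E3_add (D : ℤ) (x3 0) (x3 1) (x3 2) i 1
    rw [mul_one, mul_one] at this; exact this
  -- the pointwise inequality
  have hs : X (-m) + X (-m + 1) + X (-m + 2) + Y 0 + Y 1 + Y 2 + -V 2 + -V 1 + -V 0 = 0 := by
    have w1 := E3_win (D := (D : ℤ)) (x1 0) (x1 1) (x1 2) (-m + 2)
    have w2 := E3_win (D := (D : ℤ)) (x2 0) (x2 1) (x2 2) 2
    have w3 := E3_win (D := (D : ℤ)) (x3 0) (x3 1) (x3 2) 2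
    change X (-m + 2) + X (-m + 2 - 1) + X (-m + 2 - 2) = _ at w1
    change Y 2 + Y (2 - 1) + Y (2 - 2) = _ at w2
    change V 2 + V (2 - 1) + V (2 - 2) = _ at w3
    rw [show -m + 2 - 1 = -m + 1 by ring, show -m + 2 - 2 = -m by ring] at w1
    norm_num at w2 w3
    rw [s1, s2, s3] at hm1
    linarith
  have hp := e6_point hD (a0 := X (-m)) (a1 := X (-m + 1)) (a2 := X (-m + 2)) (b0 := Y 0)
    (b1 := Y 1) (b2 := Y 2) (c0 := -V 2) (c1 := -V 1) (c2 := -V 0) (by linarith [hs])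
    (mX _) (by have := mX (-m + 1); rwa [show -m + 1 + 1 = -m + 2 by ring] at this)
    (by have := mX (-m + 2); rw [show -m + 2 + 1 = -m + 3 by ring, pX] at this; exact this)
    (mY 0) (mY 1) (by have := mY 2; rw [show (2 : ℤ) + 1 = 0 + 3 by norm_num, pY] at this; exact this)
    (by have := mV 1; norm_num at this; linarith) (by have := mV 0; norm_num at this; linarith)
    (by have := mV 2; rw [show (2 : ℤ) + 1 = 0 + 3 by norm_num, pV] at this; linarith)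
    (by have := L' (-m) 0; rw [show -m + 0 + m - 2 = -2 by ring] at this
        have h1 := pV (-2); norm_num at h1; linarith)
    (by have := L (-m) 0; rw [show -m + 0 + m = 0 by ring] at this; linarith)
    (by have := L' (-m) 1; rw [show -m + 1 + m - 2 = -1 by ring] at this
        have h1 := pV (-1); norm_num at h1; linarith)
    (by have := L (-m) 1; rw [show -m + 1 + m = 1 by ring] at this; linarith)
    (by have := L (-m) 2; rw [show -m + 2 + m = 2 by ring] at this; linarith)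
    (by have := L' (-m) 2; rw [show -m + 2 + m - 2 = 0 by ring] at this; linarith)
    (by have := L' (-m + 1) 0; rw [show -m + 1 + 0 + m - 2 = -1 by ring] at this
        have h1 := pV (-1); norm_num at h1; linarith)
    (by have := L (-m + 1) 0; rw [show -m + 1 + 0 + m = 1 by ring] at this; linarith)
    (by have := L (-m + 1) 1; rw [show -m + 1 + 1 + m = 2 by ring] at this; linarith)
    (by have := L' (-m + 1) 1; rw [show -m + 1 + 1 + m - 2 = 0 by ring] at this; linarith)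
    (by have := L' (-m + 1) 2; rw [show -m + 1 + 2 + m - 2 = 1 by ring] at this; linarith)
    (by have := L (-m + 1) 2; rw [show -m + 1 + 2 + m = 0 + 3 by ring, pV] at this; linarith)
    (by have := L (-m + 2) 0; rw [show -m + 2 + 0 + m = 2 by ring] at this; linarith)
    (by have := L' (-m + 2) 0; rw [show -m + 2 + 0 + m - 2 = 0 by ring] at this; linarith)
    (by have := L' (-m + 2) 1; rw [show -m + 2 + 1 + m - 2 = 1 by ring] at this; linarith)
    (by have := L (-m + 2) 1; rw [show -m + 2 + 1 + m = 0 + 3 by ring, pV] at this; linarith)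
    (by have := L' (-m + 2) 2; rw [show -m + 2 + 2 + m - 2 = 2 by ring] at this; linarith)
    (by have := L (-m + 2) 2; rw [show -m + 2 + 2 + m = 1 + 3 by ring, pV] at this; linarith)
  -- conversion to sums over the exponents
  have conv : ∀ (e : Fin 3 → ℤ) (σ : Equiv.Perm (Fin 3)) (g : ℤ → ℤ),
      (∀ v w, (D : ℤ) ∣ v - w → g v = g w) → ∀ t : ℤ,
      g (E3 D (wI D a (e (σ 0))) (wI D a (e (σ 1))) (wI D a (e (σ 2))) t) +
      g (E3 D (wI D a (e (σ 0))) (wI D a (e (σ 1))) (wI D a (e (σ 2))) (t + 1)) +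
      g (E3 D (wI D a (e (σ 0))) (wI D a (e (σ 1))) (wI D a (e (σ 2))) (t + 2)) =
      ∑ l, g (a * e l) := by
    intro e σ g hg t
    rw [E3_per (fun l => wI D a (e (σ l))) g hg t, ← Equiv.sum_comp σ (fun l => g (a * e l)),
      Fin.sum_univ_three]
    have := fun l => hg _ _ (wI_mod (D := D) a (e (σ l)))
    simp only [this]
  have k1 : ∀ g : ℤ → ℤ, (∀ v w, (D : ℤ) ∣ v - w → g v = g w) →
      g (X (-m)) + g (X (-m + 1)) + g (X (-m + 2)) = ∑ l, g (a * e1 l) := fun g hg =>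
    conv e1 σ1 g hg (-m)
  have k2 : ∀ g : ℤ → ℤ, (∀ v w, (D : ℤ) ∣ v - w → g v = g w) →
      g (Y 0) + g (Y 1) + g (Y 2) = ∑ l, g (a * e2 l) := fun g hg => by
    have := conv e2 σ2 g hg 0
    simpa using this
  have k3 : ∀ g : ℤ → ℤ, (∀ v w, (D : ℤ) ∣ v - w → g v = g w) →
      g (V 0) + g (V 1) + g (V 2) = ∑ l, g (a * e3 l) := fun g hg => by
    have := conv e3 σ3 g hg 0
    simpa using this
  have per : ∀ (u v w : ℤ), (D : ℤ) ∣ v - w → Q D (v + u) = Q D (w + u) := by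
    intro u v w h
    apply Q_congr
    rwa [show v + u - (w + u) = v - w by ring]
  have pern : ∀ (u v w : ℤ), (D : ℤ) ∣ v - w → Q D (u - v) = Q D (u - w) := by
    intro u v w h
    apply Q_congr
    rw [show u - v - (u - w) = -(v - w) by ring]
    exact (dvd_neg).2 h
  -- the legs
  have leg : ∀ (W : ℤ → ℤ) (i j k : ℤ) (e : Fin 3 → ℤ),
      (∀ g : ℤ → ℤ, (∀ v w, (D : ℤ) ∣ v - w → g v = g w) →
        g (W i) + g (W j) + g (W k) = ∑ l, g (a * e l)) →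
      2 * (Q D (W j - W i) + Q D (W k - W j) + Q D (W k - W i)) =
        ∑ l, ∑ l', Q D (a * (e l - e l')) := by
    intro W i j k e hW
    have h1 : ∀ y : ℤ, Q D (y - W i) + Q D (y - W j) + Q D (y - W k) =
        ∑ l', Q D (y - a * e l') := fun y => hW (fun v => Q D (y - v)) (fun v w h => pern y v w h)
    have h2 := hW (fun y => ∑ l', Q D (y - a * e l')) (fun v w h => by
      apply Finset.sum_congr rfl
      intro l' _
      rw [sub_eq_add_neg, sub_eq_add_neg]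
      exact per _ v w h)
    simp only [← h1] at h2
    have h0 : ∀ y : ℤ, Q D (y - y) = 0 := fun y => Q_zero (by rw [sub_self]; exact dvd_zero _)
    have hsym : ∀ y z : ℤ, Q D (y - z) = Q D (z - y) := fun y z => by
      rw [← Q_neg hD (y - z)]; congr 1; ring
    rw [h0, h0, h0, hsym (W i) (W j), hsym (W i) (W k), hsym (W j) (W k)] at h2
    have h3 : ∑ l, ∑ l', Q D (a * (e l - e l')) =
        ∑ l, (Q D (a * e l - W i) + Q D (a * e l - W j) + Q D (a * e l - W k)) := by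
      apply Finset.sum_congr rfl
      intro l _
      rw [h1]
      apply Finset.sum_congr rfl
      intro l' _
      rw [mul_sub]
    rw [h3, ← h2]
    ring
  have l1 := leg X (-m) (-m + 1) (-m + 2) e1 k1
  have l2 := leg Y 0 1 2 e2 k2
  have l3 := leg V 0 1 2 e3 k3
  -- the forms
  have f1 : ∑ i, ∑ j, ∑ k, Q D (a * (e1 i + e2 j - e3 k)) =
      ∑ i, ∑ j, (Q D (a * e1 i + a * e2 j - V 0) + Q D (a * e1 i + a * e2 j - V 1) +
        Q D (a * e1 i + a * e2 j - V 2)) := by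
    apply Finset.sum_congr rfl
    intro i _
    apply Finset.sum_congr rfl
    intro j _
    rw [k3 (fun v => Q D (a * e1 i + a * e2 j - v)) (fun v w h => pern _ v w h)]
    apply Finset.sum_congr rfl
    intro k _
    congr 1; ring
  have f2 : ∀ y : ℤ, ∑ j, (Q D (y + a * e2 j - V 0) + Q D (y + a * e2 j - V 1) +
        Q D (y + a * e2 j - V 2)) =
      (Q D (y + Y 0 - V 0) + Q D (y + Y 0 - V 1) + Q D (y + Y 0 - V 2)) +
      (Q D (y + Y 1 - V 0) + Q D (y + Y 1 - V 1) + Q D (y + Y 1 - V 2)) +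
      (Q D (y + Y 2 - V 0) + Q D (y + Y 2 - V 1) + Q D (y + Y 2 - V 2)) := by
    intro y
    rw [k2 (fun v => Q D (y + v - V 0) + Q D (y + v - V 1) + Q D (y + v - V 2))]
    intro v w h
    have : ∀ u : ℤ, Q D (y + v - u) = Q D (y + w - u) := by
      intro u
      rw [show y + v - u = v + (y - u) by ring, show y + w - u = w + (y - u) by ring]
      exact per _ v w h
    simp only [this]
  have f3 := k1 (fun y => (Q D (y + Y 0 - V 0) + Q D (y + Y 0 - V 1) + Q D (y + Y 0 - V 2)) +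
      (Q D (y + Y 1 - V 0) + Q D (y + Y 1 - V 1) + Q D (y + Y 1 - V 2)) +
      (Q D (y + Y 2 - V 0) + Q D (y + Y 2 - V 1) + Q D (y + Y 2 - V 2))) (by
    intro v w h
    have : ∀ u u' : ℤ, Q D (v + u - u') = Q D (w + u - u') := by
      intro u u'
      rw [show v + u - u' = v + (u - u') by ring, show w + u - u' = w + (u - u') by ring]
      exact per _ v w h
    simp only [this])
  simp only [f2] at f1
  rw [← f3] at f1
  rw [f1, ← l1, ← l2, ← l3]
  have c1' : ∀ x y : ℤ, -x - -y = y - x := fun x y => by ring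
  simp only [c1', ← sub_eq_add_neg] at hp
  linarith

/-- the sum over the units modulo `D` of the quadratic function at the multiples of `z` -/
noncomputable def SU (D : ℕ) [NeZero D] (z : ℤ) : ℤ := ∑ u : (ZMod D)ˣ, F D ((u : ZMod D) * (z : ZMod D))

lemma SU_ge {D : ℕ} [NeZero D] (hD : 1 < D) {z : ℤ} (h : IsCoprime z (D : ℤ) ∨ (D : ℤ) ∣ z) :
    SU D 1 ≤ SU D z := by
  have h1 : SU D 1 = ∑ u : (ZMod D)ˣ, F D (u : ZMod D) := sum_F_unit D isCoprime_one_left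
  rcases h with h | h
  · rw [h1]; exact (sum_F_unit D h).ge
  · rw [h1]
    unfold SU
    rw [sum_F_zero D h]
    exact (sum_F_neg hD).le

lemma SU_unit {D : ℕ} [NeZero D] {z : ℤ} (h : IsCoprime z (D : ℤ)) : SU D z = SU D 1 := by
  have h1 : SU D 1 = ∑ u : (ZMod D)ˣ, F D (u : ZMod D) := sum_F_unit D isCoprime_one_left
  rw [h1]; exact sum_F_unit D h

lemma SU_zero (D : ℕ) [NeZero D] : SU D 0 = 0 := sum_F_zero D (dvd_zero _)

lemma Q_unit {D : ℕ} [NeZero D] (u : (ZMod D)ˣ) (z : ℤ) :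
    Q D ((((u : ZMod D).val : ℕ) : ℤ) * z) = F D ((u : ZMod D) * (z : ZMod D)) := by
  rw [Q_eq_F]
  push_cast
  rw [ZMod.natCast_zmod_val]

/-- The arithmetic theorem for rank three and three singular points. -/
theorem arith3 {D : ℕ} (hD : 1 < D) {e1 e2 e3 : Fin 3 → ℤ}
    (hsum : ∑ l, e1 l + ∑ l, e2 l = ∑ l, e3 l)
    (h1 : ∀ l l', IsCoprime (e1 l - e1 l') (D : ℤ) ∨ (D : ℤ) ∣ e1 l - e1 l')
    (h2 : ∀ l l', IsCoprime (e2 l - e2 l') (D : ℤ) ∨ (D : ℤ) ∣ e2 l - e2 l')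
    (h3 : ∀ l l', IsCoprime (e3 l - e3 l') (D : ℤ) ∨ (D : ℤ) ∣ e3 l - e3 l')
    (hB : ∀ i j k, IsCoprime (e1 i + e2 j - e3 k) (D : ℤ))
    (hU : ∀ a : ℤ, IsCoprime a (D : ℤ) → Uni3 D e1 e2 e3 a) : False := by
  have : NeZero D := ⟨by omega⟩
  have hD0 : 0 < D := by omega
  have hpt : ∀ u : (ZMod D)ˣ,
      3 * ((∑ l, ∑ l', F D ((u : ZMod D) * ((e1 l - e1 l' : ℤ) : ZMod D))) +
        (∑ l, ∑ l', F D ((u : ZMod D) * ((e2 l - e2 l' : ℤ) : ZMod D))) +
        (∑ l, ∑ l', F D ((u : ZMod D) * ((e3 l - e3 l' : ℤ) : ZMod D)))) -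
      2 * ∑ i, ∑ j, ∑ k, F D ((u : ZMod D) * ((e1 i + e2 j - e3 k : ℤ) : ZMod D)) < 0 := by
    intro u
    have hc : IsCoprime (((u : ZMod D).val : ℕ) : ℤ) (D : ℤ) :=
      Nat.isCoprime_iff_coprime.2 (ZMod.val_coe_unit_coprime u)
    have := point3 hD0 hsum hc (hU _ hc) (hU _ hc.neg_left)
    simp only [Q_unit] at this
    exact this
  have hneg := Finset.sum_neg (fun u _ => hpt u) (s := (univ : Finset (ZMod D)ˣ))
    Finset.univ_nonempty
  have hswap2 : ∀ e : Fin 3 → ℤ, ∑ u : (ZMod D)ˣ, ∑ l, ∑ l',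
      F D ((u : ZMod D) * ((e l - e l' : ℤ) : ZMod D)) = ∑ l, ∑ l', SU D (e l - e l') := by
    intro e
    rw [Finset.sum_comm]
    apply Finset.sum_congr rfl
    intro l _
    rw [Finset.sum_comm]
    rfl
  have hswap3 : ∑ u : (ZMod D)ˣ, ∑ i, ∑ j, ∑ k,
      F D ((u : ZMod D) * ((e1 i + e2 j - e3 k : ℤ) : ZMod D)) =
      ∑ i, ∑ j, ∑ k, SU D (e1 i + e2 j - e3 k) := by
    rw [Finset.sum_comm]
    apply Finset.sum_congr rfl
    intro l _
    rw [Finset.sum_comm]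
    apply Finset.sum_congr rfl
    intro l' _
    rw [Finset.sum_comm]
    rfl
  rw [Finset.sum_sub_distrib, ← Finset.mul_sum, ← Finset.mul_sum, Finset.sum_add_distrib,
    Finset.sum_add_distrib, hswap2, hswap2, hswap2, hswap3] at hneg
  have hleg : ∀ e : Fin 3 → ℤ, (∀ l l', IsCoprime (e l - e l') (D : ℤ) ∨ (D : ℤ) ∣ e l - e l') →
      6 * SU D 1 ≤ ∑ l, ∑ l', SU D (e l - e l') := by
    intro e he
    simp only [Fin.sum_univ_three, sub_self, SU_zero]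
    linarith [SU_ge hD (he 0 1), SU_ge hD (he 0 2), SU_ge hD (he 1 0), SU_ge hD (he 1 2),
      SU_ge hD (he 2 0), SU_ge hD (he 2 1)]
  have hform : ∑ i, ∑ j, ∑ k, SU D (e1 i + e2 j - e3 k) = 27 * SU D 1 := by
    simp only [SU_unit (hB _ _ _), Finset.sum_const, Finset.card_univ, Fintype.card_fin]
    ring
  rw [hform] at hneg
  linarith [hleg e1 h1, hleg e2 h2, hleg e3 h3]

end Pool.Agent.W280.PC
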