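import Pool.Agent.W280.PC.Arith

set_option autoImplicit false

/-!
Averaging over the units modulo `D`.
-/

namespace Pool.Agent.W280.PC

open Finset

/-- the quadratic function on `ZMod D` -/
def F (D : ℕ) (x : ZMod D) : ℤ := (x.val : ℤ) * ((x.val : ℤ) - D)

lemma Q_eq_F (D : ℕ) [NeZero D] (z : ℤ) : Q D z = F D (z : ZMod D) := by
  unfold Q F
  rw [ZMod.val_intCast]

lemma sum_F_unit (D : ℕ) [NeZero D] {z : ℤ} (hz : IsCoprime z (D : ℤ)) :
    ∑ u : (ZMod D)ˣ, F D ((u : ZMod D) * (z : ZMod D)) = ∑ u : (ZMod D)ˣ, F D (u : ZMod D) := by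
  obtain ⟨s, t, hst⟩ := hz
  have h1 : (s : ZMod D) * (z : ZMod D) = 1 := by
    have := congrArg (fun x : ℤ => (x : ZMod D)) hst
    push_cast at this
    simpa using this
  have hunit : IsUnit (z : ZMod D) := IsUnit.of_mul_eq_one _ (by rw [mul_comm]; exact h1)
  obtain ⟨v, hv⟩ := hunit
  rw [← hv]
  exact (Equiv.sum_comp (Equiv.mulRight v) (fun u : (ZMod D)ˣ => F D (u : ZMod D)))

lemma sum_F_zero (D : ℕ) [NeZero D] {z : ℤ} (hz : (D : ℤ) ∣ z) :
    ∑ u : (ZMod D)ˣ, F D ((u : ZMod D) * (z : ZMod D)) = 0 := by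
  have : (z : ZMod D) = 0 := (ZMod.intCast_zmod_eq_zero_iff_dvd _ _).2 hz
  rw [this]
  simp [F]

lemma sum_F_neg {D : ℕ} [NeZero D] (hD : 1 < D) : ∑ u : (ZMod D)ˣ, F D (u : ZMod D) < 0 := by
  have : Fact (1 < D) := ⟨hD⟩
  have h1 : ∀ x : ZMod D, F D x ≤ 0 := by
    intro x
    unfold F
    have := ZMod.val_lt x
    exact mul_nonpos_of_nonneg_of_nonpos (by positivity) (by linarith [(by exact_mod_cast this : (x.val : ℤ) < D)])
  have h2 : F D ((1 : (ZMod D)ˣ) : ZMod D) < 0 := by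
    unfold F
    rw [Units.val_one, ZMod.val_one]
    push_cast
    have : (1 : ℤ) < D := by exact_mod_cast hD
    linarith
  exact Finset.sum_neg' (fun u _ => h1 _) ⟨1, Finset.mem_univ _, h2⟩

/-- the inequalities (for rank two) satisfied when the reduction modulo a large prime `p` with
`p c ≡ 1` has vanishing `p`-curvature, in the case of three finite singular points -/
def Uni (D : ℕ) (a b r1 r2 r3 c : ℤ) : Prop :=
  (c * a) % D + (c * b) % D ≤ (-(c * r1)) % D + (-(c * r2)) % D + (-(c * r3)) % D ∧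
    ((-(c * r1)) % D + (-(c * r2)) % D + (-(c * r3)) % D = (c * a) % D + (c * b) % D →
      (-(c * r1)) % D ≤ max ((c * a) % D) ((c * b) % D) ∧
      (-(c * r2)) % D ≤ max ((c * a) % D) ((c * b) % D) ∧
      (-(c * r3)) % D ≤ max ((c * a) % D) ((c * b) % D))

lemma emod_neg_add {D : ℕ} (hD : 0 < D) (z : ℤ) : z % D + (-z) % D = if (D : ℤ) ∣ z then 0 else D := by
  have hD' : (0 : ℤ) < D := by exact_mod_cast hD
  split_ifs with h
  · rw [Int.emod_eq_zero_of_dvd h, Int.emod_eq_zero_of_dvd ((dvd_neg).2 h)]; rfl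
  · have h1 := Int.emod_nonneg z hD'.ne'
    have h2 := Int.emod_lt_of_pos z hD'
    have h3 := Int.emod_nonneg (-z) hD'.ne'
    have h4 := Int.emod_lt_of_pos (-z) hD'
    have h5 : (D : ℤ) ∣ z - z % D := Int.dvd_self_sub_emod
    have h6 : (D : ℤ) ∣ -z - (-z) % D := Int.dvd_self_sub_emod
    have h7 : z % D ≠ 0 := fun h0 => h (Int.dvd_of_emod_eq_zero h0)
    obtain ⟨k, hk⟩ := h5
    obtain ⟨l, hl⟩ := h6
    have h8 : z % D + (-z) % D = D * (-(k + l)) := by linear_combination -hk - hl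
    have h9 : 0 < z % D + (-z) % D := by omega
    have h10 : z % D + (-z) % D < 2 * D := by omega
    rw [h8] at h9 h10 ⊢
    have h11 : 0 < -(k + l) := (mul_pos_iff_of_pos_left hD').1 h9
    have h12 : -(k + l) < 2 := by
      by_contra hc
      push Not at hc
      have := mul_le_mul_of_nonneg_left hc hD'.le
      linarith
    have h13 : -(k + l) = 1 := by omega
    rw [h13, mul_one]

lemma coprime_scale {D : ℕ} {c z : ℤ} (hc : IsCoprime c (D : ℤ)) : (D : ℤ) ∣ c * z ↔ (D : ℤ) ∣ z :=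
  ⟨fun h => hc.symm.dvd_of_dvd_mul_left h, fun h => h.mul_left c⟩

/-- one of the two cases of the inequality for `c` and `-c` is sharp -/
lemma sharp {D : ℕ} (hD : 0 < D) {a b r1 r2 r3 c : ℤ} (hc : IsCoprime c (D : ℤ))
    (hsum : (D : ℤ) ∣ a + b + r1 + r2 + r3) (ha : ¬ (D : ℤ) ∣ a) (hb : ¬ (D : ℤ) ∣ b)
    (h1 : Uni D a b r1 r2 r3 c) (h2 : Uni D a b r1 r2 r3 (-c)) :
    (-(c * r1)) % D + (-(c * r2)) % D + (-(c * r3)) % D = (c * a) % D + (c * b) % D ∨
    (-(-c * r1)) % D + (-(-c * r2)) % D + (-(-c * r3)) % D = (-c * a) % D + (-c * b) % D := by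
  have hD' : (0 : ℤ) < D := by exact_mod_cast hD
  have k1 := h1.1
  have k2 := h2.1
  simp only [neg_mul, neg_neg] at k2 ⊢
  have e1 := emod_neg_add hD (c * r1)
  have e2 := emod_neg_add hD (c * r2)
  have e3 := emod_neg_add hD (c * r3)
  have e4 := emod_neg_add hD (c * a)
  have e5 := emod_neg_add hD (c * b)
  rw [if_neg (by rwa [coprime_scale hc])] at e4 e5
  have f1 : (c * r1) % D + (-(c * r1)) % D ≤ D := by rw [e1]; split_ifs <;> omega
  have f2 : (c * r2) % D + (-(c * r2)) % D ≤ D := by rw [e2]; split_ifs <;> omega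
  have f3 : (c * r3) % D + (-(c * r3)) % D ≤ D := by rw [e3]; split_ifs <;> omega
  -- divisibility
  have d1 : (D : ℤ) ∣ (-(c * r1)) % D + (-(c * r2)) % D + (-(c * r3)) % D -
      ((c * a) % D + (c * b) % D) := by
    obtain ⟨k, hk⟩ := hsum
    obtain ⟨l1, hl1⟩ : (D : ℤ) ∣ -(c * r1) - (-(c * r1)) % D := Int.dvd_self_sub_emod
    obtain ⟨l2, hl2⟩ : (D : ℤ) ∣ -(c * r2) - (-(c * r2)) % D := Int.dvd_self_sub_emod
    obtain ⟨l3, hl3⟩ : (D : ℤ) ∣ -(c * r3) - (-(c * r3)) % D := Int.dvd_self_sub_emod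
    obtain ⟨l4, hl4⟩ : (D : ℤ) ∣ c * a - (c * a) % D := Int.dvd_self_sub_emod
    obtain ⟨l5, hl5⟩ : (D : ℤ) ∣ c * b - (c * b) % D := Int.dvd_self_sub_emod
    exact ⟨-l1 - l2 - l3 + l4 + l5 - c * k, by
      linear_combination -hl1 - hl2 - hl3 + hl4 + hl5 - c * hk⟩
  obtain ⟨m, hm⟩ := d1
  have hm0 : 0 ≤ m := by
    have : 0 ≤ (D : ℤ) * m := by rw [← hm]; linarith
    exact nonneg_of_mul_nonneg_right this hD'
  rcases hm0.eq_or_lt with h0 | h0
  · left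
    rw [← h0, mul_zero] at hm
    linarith
  · right
    have h3 : (D : ℤ) * 1 ≤ D * m := mul_le_mul_of_nonneg_left (by omega) hD'.le
    linarith

/-- The arithmetic theorem. -/
theorem arith {D : ℕ} (hD : 1 < D) {a b r1 r2 r3 : ℤ} (hsum : (D : ℤ) ∣ a + b + r1 + r2 + r3)
    (hr1 : IsCoprime r1 (D : ℤ) ∨ (D : ℤ) ∣ r1) (hr2 : IsCoprime r2 (D : ℤ) ∨ (D : ℤ) ∣ r2)
    (hr3 : IsCoprime r3 (D : ℤ) ∨ (D : ℤ) ∣ r3) (hab : IsCoprime (a - b) (D : ℤ) ∨ (D : ℤ) ∣ a - b)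
    (ha : IsCoprime a (D : ℤ)) (ha1 : IsCoprime (a + r1) (D : ℤ)) (ha2 : IsCoprime (a + r2) (D : ℤ))
    (ha3 : IsCoprime (a + r3) (D : ℤ)) (ha12 : IsCoprime (a + (r1 + r2)) (D : ℤ))
    (ha13 : IsCoprime (a + (r1 + r3)) (D : ℤ)) (ha23 : IsCoprime (a + (r2 + r3)) (D : ℤ))
    (ha123 : IsCoprime (a + (r1 + r2 + r3)) (D : ℤ))
    (hU : ∀ c : ℤ, IsCoprime c (D : ℤ) → Uni D a b r1 r2 r3 c) : False := by
  have : NeZero D := ⟨by omega⟩
  have hD0 : 0 < D := by omega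
  have hnd : ∀ {z : ℤ}, IsCoprime z (D : ℤ) → ¬ (D : ℤ) ∣ z := by
    intro z hz hdvd
    have h1 : IsUnit (D : ℤ) := hz.isUnit_of_dvd' hdvd dvd_rfl
    rw [Int.isUnit_iff] at h1
    rcases h1 with h1 | h1 <;> omega
  have hb' : ¬ (D : ℤ) ∣ b := by
    intro h
    refine hnd ha123 ?_
    have : a + (r1 + r2 + r3) = (a + b + r1 + r2 + r3) - b := by ring
    rw [this]
    exact dvd_sub hsum h
  set K := ∑ u : (ZMod D)ˣ, F D (u : ZMod D) with hK
  have hK0 : K < 0 := sum_F_neg hD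
  set G : ZMod D → ZMod D → ZMod D → ZMod D → ZMod D → ℤ := fun a b r1 r2 r3 =>
    2 * (F D r1 + F D r2 + F D r3 + F D (a - b)) -
    (F D a + F D (a + r1) + F D (a + r2) + F D (a + r3) + F D (a + (r1 + r2)) + F D (a + (r1 + r3))
      + F D (a + (r2 + r3)) + F D (a + (r1 + r2 + r3))) with hG
  have hPG : ∀ a b r1 r2 r3 : ℤ, Phi D a b r1 r2 r3 = G a b r1 r2 r3 := by
    intro a b r1 r2 r3
    simp only [Phi, Q_eq_F, hG]
    push_cast
    rfl
  -- pointwise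
  have hpt : ∀ c : ℤ, IsCoprime c (D : ℤ) → Phi D (c * a) (c * b) (c * r1) (c * r2) (c * r3) ≤ 0 ∧
      (IsCoprime r1 (D : ℤ) → IsCoprime r2 (D : ℤ) → IsCoprime r3 (D : ℤ) →
        IsCoprime (a - b) (D : ℤ) → Phi D (c * a) (c * b) (c * r1) (c * r2) (c * r3) < 0) := by
    have main : ∀ c : ℤ, IsCoprime c (D : ℤ) → 
        (-(c * r1)) % D + (-(c * r2)) % D + (-(c * r3)) % D = (c * a) % D + (c * b) % D →
        Phi D (c * a) (c * b) (c * r1) (c * r2) (c * r3) ≤ 0 ∧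
        (IsCoprime r1 (D : ℤ) → IsCoprime r2 (D : ℤ) → IsCoprime r3 (D : ℤ) →
          IsCoprime (a - b) (D : ℤ) → Phi D (c * a) (c * b) (c * r1) (c * r2) (c * r3) < 0) := by
      intro c hc heq
      have hs : (D : ℤ) ∣ c * a + c * b + c * r1 + c * r2 + c * r3 := by
        have : c * a + c * b + c * r1 + c * r2 + c * r3 = c * (a + b + r1 + r2 + r3) := by ring
        rw [this]; exact hsum.mul_left c
      obtain ⟨w1, w2, w3⟩ := (hU c hc).2 heq
      refine ⟨Phi_nonpos hD0 hs heq w1 w2 w3, ?_⟩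
      intro g1 g2 g3 g4
      have hsc : ∀ {z : ℤ}, IsCoprime z (D : ℤ) → ¬ (D : ℤ) ∣ c * z := fun hz => by
        rw [coprime_scale hc]; exact hnd hz
      refine Phi_neg_of hD0 hs heq w1 w2 w3 (hsc g1) (hsc g2) (hsc g3) ?_ (hsc ha)
        (by rwa [coprime_scale hc]) ?_ ?_ ?_ ?_ ?_ ?_
      · rw [← mul_sub]; exact hsc g4
      · rw [← mul_add, ← mul_add]; exact hsc ha12
      · rw [← mul_add, ← mul_add]; exact hsc ha13
      · rw [← mul_add, ← mul_add]; exact hsc ha23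
      · rw [← mul_add]; exact hsc ha1
      · rw [← mul_add]; exact hsc ha2
      · rw [← mul_add]; exact hsc ha3
    intro c hc
    rcases sharp hD0 hc hsum (hnd ha) hb' (hU c hc) (hU (-c) hc.neg_left) with h | h
    · exact main c hc h
    · have := main (-c) hc.neg_left h
      simp only [neg_mul, Phi_neg hD0] at this
      exact this
  -- the sum over the units
  have hsumG : ∑ u : (ZMod D)ˣ, G ((u : ZMod D) * a) ((u : ZMod D) * b) ((u : ZMod D) * r1)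
      ((u : ZMod D) * r2) ((u : ZMod D) * r3) =
      2 * ((∑ u : (ZMod D)ˣ, F D ((u : ZMod D) * (r1 : ZMod D))) +
        (∑ u : (ZMod D)ˣ, F D ((u : ZMod D) * (r2 : ZMod D))) +
        (∑ u : (ZMod D)ˣ, F D ((u : ZMod D) * (r3 : ZMod D))) +
        (∑ u : (ZMod D)ˣ, F D ((u : ZMod D) * ((a - b : ℤ) : ZMod D)))) - 8 * K := by
    have e0 := sum_F_unit D ha
    have e1 := sum_F_unit D ha1
    have e2 := sum_F_unit D ha2
    have e3 := sum_F_unit D ha3
    have e12 := sum_F_unit D ha12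
    have e13 := sum_F_unit D ha13
    have e23 := sum_F_unit D ha23
    have e123 := sum_F_unit D ha123
    simp only [hG, ← mul_add, ← mul_sub, Finset.sum_sub_distrib, Finset.sum_add_distrib,
      ← Finset.mul_sum]
    push_cast at e0 e1 e2 e3 e12 e13 e23 e123 ⊢
    rw [e0, e1, e2, e3, e12, e13, e23, e123]
    ring
  have hle : ∀ u : (ZMod D)ˣ, G ((u : ZMod D) * a) ((u : ZMod D) * b) ((u : ZMod D) * r1)
      ((u : ZMod D) * r2) ((u : ZMod D) * r3) ≤ 0 ∧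
      (IsCoprime r1 (D : ℤ) → IsCoprime r2 (D : ℤ) → IsCoprime r3 (D : ℤ) →
        IsCoprime (a - b) (D : ℤ) → G ((u : ZMod D) * a) ((u : ZMod D) * b) ((u : ZMod D) * r1)
      ((u : ZMod D) * r2) ((u : ZMod D) * r3) < 0) := by
    intro u
    have hc : IsCoprime (((u : ZMod D).val : ℕ) : ℤ) (D : ℤ) :=
      Nat.isCoprime_iff_coprime.2 (ZMod.val_coe_unit_coprime u)
    have h1 := hpt _ hc
    rw [hPG] at h1
    push_cast at h1
    rw [ZMod.natCast_zmod_val] at h1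
    exact h1
  have hz : ∀ {z : ℤ}, (IsCoprime z (D : ℤ) ∨ (D : ℤ) ∣ z) →
      K ≤ ∑ u : (ZMod D)ˣ, F D ((u : ZMod D) * (z : ZMod D)) := by
    intro z h
    rcases h with h | h
    · rw [sum_F_unit D h]
    · rw [sum_F_zero D h]; exact hK0.le
  have hz' : ∀ {z : ℤ}, (IsCoprime z (D : ℤ) ∨ (D : ℤ) ∣ z) → ¬ IsCoprime z (D : ℤ) →
      K < ∑ u : (ZMod D)ˣ, F D ((u : ZMod D) * (z : ZMod D)) := by
    intro z h h'
    rw [sum_F_zero D (h.resolve_left h')]; exact hK0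
  by_cases hall : IsCoprime r1 (D : ℤ) ∧ IsCoprime r2 (D : ℤ) ∧ IsCoprime r3 (D : ℤ) ∧
      IsCoprime (a - b) (D : ℤ)
  · have h1 : ∑ u : (ZMod D)ˣ, G ((u : ZMod D) * a) ((u : ZMod D) * b) ((u : ZMod D) * r1)
      ((u : ZMod D) * r2) ((u : ZMod D) * r3) < 0 :=
      Finset.sum_neg (fun u _ => (hle u).2 hall.1 hall.2.1 hall.2.2.1 hall.2.2.2)
        Finset.univ_nonempty
    rw [hsumG] at h1
    linarith [hz hr1, hz hr2, hz hr3, hz hab]
  · have h1 : ∑ u : (ZMod D)ˣ, G ((u : ZMod D) * a) ((u : ZMod D) * b) ((u : ZMod D) * r1)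
      ((u : ZMod D) * r2) ((u : ZMod D) * r3) ≤ 0 :=
      Finset.sum_nonpos (fun u _ => (hle u).1)
    rw [hsumG] at h1
    by_cases g1 : IsCoprime r1 (D : ℤ)
    · by_cases g2 : IsCoprime r2 (D : ℤ)
      · by_cases g3 : IsCoprime r3 (D : ℤ)
        · have g4 : ¬ IsCoprime (a - b) (D : ℤ) := fun g4 => hall ⟨g1, g2, g3, g4⟩
          linarith [hz hr1, hz hr2, hz hr3, hz' hab g4]
        · linarith [hz hr1, hz hr2, hz' hr3 g3, hz hab]
      · linarith [hz hr1, hz' hr2 g2, hz hr3, hz hab]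
    · linarith [hz' hr1 g1, hz hr2, hz hr3, hz hab]

end Pool.Agent.W280.PC
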