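import Pool.Agent.W280.PC.Average

set_option autoImplicit false
set_option maxHeartbeats 4000000

/-!
Periodic monotone sequences attached to the exponents at one point.
-/

namespace Pool.Agent.W280.PC

open Finset

/-- the integral weight of the exponent `e / D` in the class `a`: `D` for a negative integral
exponent, otherwise the residue of `a e` -/
def wI (D : ℕ) (a e : ℤ) : ℤ := if e < 0 ∧ (D : ℤ) ∣ e then D else (a * e) % D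

lemma wI_nonneg {D : ℕ} (hD : 0 < D) (a e : ℤ) : 0 ≤ wI D a e := by
  unfold wI
  split_ifs
  · positivity
  · exact Int.emod_nonneg _ (by exact_mod_cast hD.ne')

lemma wI_le {D : ℕ} (hD : 0 < D) (a e : ℤ) : wI D a e ≤ D := by
  unfold wI
  split_ifs
  · exact le_rfl
  · exact (Int.emod_lt_of_pos _ (by exact_mod_cast hD)).le

lemma wI_mod {D : ℕ} (a e : ℤ) : (D : ℤ) ∣ wI D a e - a * e := by
  unfold wI
  split_ifs with h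
  · exact dvd_sub dvd_rfl (h.2.mul_left a)
  · have := Int.dvd_self_sub_emod (x := a * e) (m := (D : ℤ))
    rw [← dvd_neg, neg_sub]
    exact this

/-- the involution relating the weights of `a` and `-a` -/
def gI (D : ℤ) (x : ℤ) : ℤ := if x = 0 ∨ x = D then x else D - x

lemma wI_neg {D : ℕ} (hD : 0 < D) {a : ℤ} (ha : IsCoprime a (D : ℤ)) (e : ℤ) :
    wI D (-a) e = gI D (wI D a e) := by
  have hD' : (0 : ℤ) < D := by exact_mod_cast hD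
  unfold wI gI
  by_cases h : e < 0 ∧ (D : ℤ) ∣ e
  · rw [if_pos h, if_pos h, if_pos (Or.inr rfl)]
  · rw [if_neg h, if_neg h]
    by_cases hd : (D : ℤ) ∣ e
    · rw [Int.emod_eq_zero_of_dvd (hd.mul_left (-a)), Int.emod_eq_zero_of_dvd (hd.mul_left a),
        if_pos (Or.inl rfl)]
    · have h1 : ¬ (D : ℤ) ∣ a * e := by rwa [coprime_scale ha]
      have h2 := emod_neg_add hD (a * e)
      rw [if_neg h1] at h2
      have h3 : (a * e) % (D : ℤ) ≠ 0 := fun h0 => h1 (Int.dvd_of_emod_eq_zero h0)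
      have h4 : (a * e) % (D : ℤ) < D := Int.emod_lt_of_pos _ hD'
      rw [if_neg (by
        rintro (h5 | h5)
        · exact h3 h5
        · omega), neg_mul]
      linarith

/-- extension of a window of three to a periodic sequence -/
def E3 (D x0 x1 x2 : ℤ) (i : ℤ) : ℤ :=
  (if i % 3 = 0 then x0 else if i % 3 = 1 then x1 else x2) + D * (i / 3)

lemma E3_add (D x0 x1 x2 i q : ℤ) : E3 D x0 x1 x2 (i + 3 * q) = E3 D x0 x1 x2 i + D * q := by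
  unfold E3
  have h1 : (i + 3 * q) % 3 = i % 3 := by omega
  have h2 : (i + 3 * q) / 3 = i / 3 + q := by omega
  rw [h1, h2]; ring

lemma E3_refl {D x0 x1 x2 z0 z1 z2 : ℤ} (c : ℤ) (h0 : z0 = -E3 D x0 x1 x2 (c - 0))
    (h1 : z1 = -E3 D x0 x1 x2 (c - 1)) (h2 : z2 = -E3 D x0 x1 x2 (c - 2)) (i : ℤ) :
    E3 D z0 z1 z2 i = -E3 D x0 x1 x2 (c - i) := by
  obtain ⟨q, s, hs, hi⟩ : ∃ q s : ℤ, (s = 0 ∨ s = 1 ∨ s = 2) ∧ i = s + 3 * q :=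
    ⟨i / 3, i % 3, by omega, by omega⟩
  have e1 : c - i = (c - s) + 3 * (-q) := by rw [hi]; ring
  rw [e1, E3_add, hi, E3_add]
  rcases hs with rfl | rfl | rfl
  · have : E3 D z0 z1 z2 0 = z0 := by simp [E3]
    rw [this, h0]; ring
  · have : E3 D z0 z1 z2 1 = z1 := by simp [E3]
    rw [this, h1]; ring
  · have : E3 D z0 z1 z2 2 = z2 := by simp [E3]
    rw [this, h2]; ring

lemma gI_cases {D x : ℤ} (h0 : 0 ≤ x) (h1 : x ≤ D) :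
    (x = 0 ∧ gI D x = 0) ∨ (x = D ∧ gI D x = D) ∨ (0 < x ∧ x < D ∧ gI D x = D - x) := by
  unfold gI
  by_cases h : x = 0 ∨ x = D
  · rw [if_pos h]
    rcases h with h | h
    · left; exact ⟨h, h⟩
    · right; left; exact ⟨h, h⟩
  · rw [if_neg h]
    right; right
    exact ⟨by omega, by omega, rfl⟩

lemma leg3_aux {D x0 x1 x2 G0 G1 G2 z0 z1 z2 : ℤ} (m1 : x0 ≤ x1) (m2 : x1 ≤ x2)
    (c0 : (x0 = 0 ∧ G0 = 0) ∨ (x0 = D ∧ G0 = D) ∨ (0 < x0 ∧ x0 < D ∧ G0 = D - x0))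
    (c1 : (x1 = 0 ∧ G1 = 0) ∨ (x1 = D ∧ G1 = D) ∨ (0 < x1 ∧ x1 < D ∧ G1 = D - x1))
    (c2 : (x2 = 0 ∧ G2 = 0) ∨ (x2 = D ∧ G2 = D) ∨ (0 < x2 ∧ x2 < D ∧ G2 = D - x2))
    (hD : 0 < D) (m3 : z0 ≤ z1) (m4 : z1 ≤ z2)
    (hp : (z0 = G0 ∧ z1 = G1 ∧ z2 = G2) ∨ (z0 = G0 ∧ z1 = G2 ∧ z2 = G1) ∨
      (z0 = G1 ∧ z1 = G0 ∧ z2 = G2) ∨ (z0 = G1 ∧ z1 = G2 ∧ z2 = G0) ∨
      (z0 = G2 ∧ z1 = G0 ∧ z2 = G1) ∨ (z0 = G2 ∧ z1 = G1 ∧ z2 = G0)) :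
    (z0 = D - x2 ∧ z1 = D - x1 ∧ z2 = D - x0) ∨ (z0 = -x0 ∧ z1 = D - x2 ∧ z2 = D - x1) ∨
    (z0 = -x1 ∧ z1 = -x0 ∧ z2 = D - x2) ∨ (z0 = -x2 ∧ z1 = -x1 ∧ z2 = -x0) ∨
    (z0 = D - x1 ∧ z1 = D - x0 ∧ z2 = 2 * D - x2) ∨
    (z0 = D - x0 ∧ z1 = 2 * D - x2 ∧ z2 = 2 * D - x1) ∨
    (z0 = 2 * D - x2 ∧ z1 = 2 * D - x1 ∧ z2 = 2 * D - x0) := by
  rcases c0 with c0 | c0 | c0 <;> rcases c1 with c1 | c1 | c1 <;> rcases c2 with c2 | c2 | c2 <;>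
  rcases hp with hp | hp | hp | hp | hp | hp <;>
  first
  | (exfalso; omega)
  | exact Or.inl (by omega)
  | exact Or.inr (Or.inl (by omega))
  | exact Or.inr (Or.inr (Or.inl (by omega)))
  | exact Or.inr (Or.inr (Or.inr (Or.inl (by omega))))
  | exact Or.inr (Or.inr (Or.inr (Or.inr (Or.inl (by omega)))))
  | exact Or.inr (Or.inr (Or.inr (Or.inr (Or.inr (Or.inl (by omega))))))
  | exact Or.inr (Or.inr (Or.inr (Or.inr (Or.inr (Or.inr (by omega))))))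

lemma E3_vm6 (D x0 x1 x2 : ℤ) : E3 D x0 x1 x2 (-6) = x0 + D * (-2) := by
  unfold E3; norm_num

lemma E3_vm5 (D x0 x1 x2 : ℤ) : E3 D x0 x1 x2 (-5) = x1 + D * (-2) := by
  unfold E3; norm_num

lemma E3_vm4 (D x0 x1 x2 : ℤ) : E3 D x0 x1 x2 (-4) = x2 + D * (-2) := by
  unfold E3; norm_num

lemma E3_vm3 (D x0 x1 x2 : ℤ) : E3 D x0 x1 x2 (-3) = x0 + D * (-1) := by
  unfold E3; norm_num

lemma E3_vm2 (D x0 x1 x2 : ℤ) : E3 D x0 x1 x2 (-2) = x1 + D * (-1) := by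
  unfold E3; norm_num

lemma E3_vm1 (D x0 x1 x2 : ℤ) : E3 D x0 x1 x2 (-1) = x2 + D * (-1) := by
  unfold E3; norm_num

lemma E3_v0 (D x0 x1 x2 : ℤ) : E3 D x0 x1 x2 (0) = x0 + D * (0) := by
  unfold E3; norm_num

lemma E3_v1 (D x0 x1 x2 : ℤ) : E3 D x0 x1 x2 (1) = x1 + D * (0) := by
  unfold E3; norm_num

lemma E3_v2 (D x0 x1 x2 : ℤ) : E3 D x0 x1 x2 (2) = x2 + D * (0) := by
  unfold E3; norm_num

/-- relation between the sequences of `a` and `-a`, three exponents -/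
lemma leg3 {D : ℕ} (hD : 0 < D) {a : ℤ} (ha : IsCoprime a (D : ℤ)) (e : Fin 3 → ℤ)
    (σ σ' : Equiv.Perm (Fin 3)) (hσ : Monotone fun l => wI D a (e (σ l)))
    (hσ' : Monotone fun l => wI D (-a) (e (σ' l))) :
    ∃ c : ℤ, ∀ i : ℤ,
      E3 D (wI D (-a) (e (σ' 0))) (wI D (-a) (e (σ' 1))) (wI D (-a) (e (σ' 2))) i =
        -E3 D (wI D a (e (σ 0))) (wI D a (e (σ 1))) (wI D a (e (σ 2))) (c - i) := by
  have hD' : (0 : ℤ) < D := by exact_mod_cast hD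
  set x : Fin 3 → ℤ := fun l => wI D a (e (σ l)) with hx
  obtain ⟨τ, hτ⟩ : ∃ τ : Equiv.Perm (Fin 3), ∀ l, σ' l = σ (τ l) :=
    ⟨σ'.trans σ.symm, fun l => by simp⟩
  have hz : ∀ l, wI D (-a) (e (σ' l)) = gI D (x (τ l)) := fun l => by
    rw [wI_neg hD ha, hτ]
  have m1 : x 0 ≤ x 1 := hσ (by decide)
  have m2 : x 1 ≤ x 2 := hσ (by decide)
  have m3 : gI D (x (τ 0)) ≤ gI D (x (τ 1)) := by
    rw [← hz, ← hz]; exact hσ' (by decide)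
  have m4 : gI D (x (τ 1)) ≤ gI D (x (τ 2)) := by
    rw [← hz, ← hz]; exact hσ' (by decide)
  have n1 : τ 0 ≠ τ 1 := fun h => absurd (τ.injective h) (by decide)
  have n2 : τ 0 ≠ τ 2 := fun h => absurd (τ.injective h) (by decide)
  have n3 : τ 1 ≠ τ 2 := fun h => absurd (τ.injective h) (by decide)
  have c0 := gI_cases (D := D) (wI_nonneg hD a (e (σ 0))) (wI_le hD a (e (σ 0)))
  have c1 := gI_cases (D := D) (wI_nonneg hD a (e (σ 1))) (wI_le hD a (e (σ 1)))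
  have c2 := gI_cases (D := D) (wI_nonneg hD a (e (σ 2))) (wI_le hD a (e (σ 2)))
  change (x 0 = 0 ∧ gI D (x 0) = 0) ∨ (x 0 = D ∧ gI D (x 0) = D) ∨
    (0 < x 0 ∧ x 0 < D ∧ gI D (x 0) = D - x 0) at c0
  change (x 1 = 0 ∧ gI D (x 1) = 0) ∨ (x 1 = D ∧ gI D (x 1) = D) ∨
    (0 < x 1 ∧ x 1 < D ∧ gI D (x 1) = D - x 1) at c1
  change (x 2 = 0 ∧ gI D (x 2) = 0) ∨ (x 2 = D ∧ gI D (x 2) = D) ∨
    (0 < x 2 ∧ x 2 < D ∧ gI D (x 2) = D - x 2) at c2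
  rw [hz, hz, hz]
  change ∃ c : ℤ, ∀ i : ℤ, E3 D (gI D (x (τ 0))) (gI D (x (τ 1))) (gI D (x (τ 2))) i =
    -E3 D (x 0) (x 1) (x 2) (c - i)
  have hp : (gI D (x (τ 0)) = gI D (x 0) ∧ gI D (x (τ 1)) = gI D (x 1) ∧
        gI D (x (τ 2)) = gI D (x 2)) ∨
      (gI D (x (τ 0)) = gI D (x 0) ∧ gI D (x (τ 1)) = gI D (x 2) ∧
        gI D (x (τ 2)) = gI D (x 1)) ∨
      (gI D (x (τ 0)) = gI D (x 1) ∧ gI D (x (τ 1)) = gI D (x 0) ∧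
        gI D (x (τ 2)) = gI D (x 2)) ∨
      (gI D (x (τ 0)) = gI D (x 1) ∧ gI D (x (τ 1)) = gI D (x 2) ∧
        gI D (x (τ 2)) = gI D (x 0)) ∨
      (gI D (x (τ 0)) = gI D (x 2) ∧ gI D (x (τ 1)) = gI D (x 0) ∧
        gI D (x (τ 2)) = gI D (x 1)) ∨
      (gI D (x (τ 0)) = gI D (x 2) ∧ gI D (x (τ 1)) = gI D (x 1) ∧
        gI D (x (τ 2)) = gI D (x 0)) := by
    have hh : (τ 0 = 0 ∧ τ 1 = 1 ∧ τ 2 = 2) ∨ (τ 0 = 0 ∧ τ 1 = 2 ∧ τ 2 = 1) ∨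
        (τ 0 = 1 ∧ τ 1 = 0 ∧ τ 2 = 2) ∨ (τ 0 = 1 ∧ τ 1 = 2 ∧ τ 2 = 0) ∨
        (τ 0 = 2 ∧ τ 1 = 0 ∧ τ 2 = 1) ∨ (τ 0 = 2 ∧ τ 1 = 1 ∧ τ 2 = 0) := by
      generalize τ 0 = t0 at *
      generalize τ 1 = t1 at *
      generalize τ 2 = t2 at *
      omega
    rcases hh with ⟨h1, h2, h3⟩ | ⟨h1, h2, h3⟩ | ⟨h1, h2, h3⟩ | ⟨h1, h2, h3⟩ | ⟨h1, h2, h3⟩ |
      ⟨h1, h2, h3⟩
    · exact Or.inl ⟨by rw [h1], by rw [h2], by rw [h3]⟩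
    · exact Or.inr (Or.inl ⟨by rw [h1], by rw [h2], by rw [h3]⟩)
    · exact Or.inr (Or.inr (Or.inl ⟨by rw [h1], by rw [h2], by rw [h3]⟩))
    · exact Or.inr (Or.inr (Or.inr (Or.inl ⟨by rw [h1], by rw [h2], by rw [h3]⟩)))
    · exact Or.inr (Or.inr (Or.inr (Or.inr (Or.inl ⟨by rw [h1], by rw [h2], by rw [h3]⟩))))
    · exact Or.inr (Or.inr (Or.inr (Or.inr (Or.inr ⟨by rw [h1], by rw [h2], by rw [h3]⟩))))
  have hfin := leg3_aux m1 m2 c0 c1 c2 hD' m3 m4 hp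
  rcases hfin with h | h | h | h | h | h | h
  · exact ⟨-1, E3_refl (-1) (by rw [h.1, show (-1 : ℤ) - 0 = -1 by norm_num, E3_vm1]; ring)
      (by rw [h.2.1, show (-1 : ℤ) - 1 = -2 by norm_num, E3_vm2]; ring)
      (by rw [h.2.2, show (-1 : ℤ) - 2 = -3 by norm_num, E3_vm3]; ring)⟩
  · exact ⟨0, E3_refl 0 (by rw [h.1, show (0 : ℤ) - 0 = 0 by norm_num, E3_v0]; ring)
      (by rw [h.2.1, show (0 : ℤ) - 1 = -1 by norm_num, E3_vm1]; ring)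
      (by rw [h.2.2, show (0 : ℤ) - 2 = -2 by norm_num, E3_vm2]; ring)⟩
  · exact ⟨1, E3_refl 1 (by rw [h.1, show (1 : ℤ) - 0 = 1 by norm_num, E3_v1]; ring)
      (by rw [h.2.1, show (1 : ℤ) - 1 = 0 by norm_num, E3_v0]; ring)
      (by rw [h.2.2, show (1 : ℤ) - 2 = -1 by norm_num, E3_vm1]; ring)⟩
  · exact ⟨2, E3_refl 2 (by rw [h.1, show (2 : ℤ) - 0 = 2 by norm_num, E3_v2]; ring)
      (by rw [h.2.1, show (2 : ℤ) - 1 = 1 by norm_num, E3_v1]; ring)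
      (by rw [h.2.2, show (2 : ℤ) - 2 = 0 by norm_num, E3_v0]; ring)⟩
  · exact ⟨-2, E3_refl (-2) (by rw [h.1, show (-2 : ℤ) - 0 = -2 by norm_num, E3_vm2]; ring)
      (by rw [h.2.1, show (-2 : ℤ) - 1 = -3 by norm_num, E3_vm3]; ring)
      (by rw [h.2.2, show (-2 : ℤ) - 2 = -4 by norm_num, E3_vm4]; ring)⟩
  · exact ⟨-3, E3_refl (-3) (by rw [h.1, show (-3 : ℤ) - 0 = -3 by norm_num, E3_vm3]; ring)
      (by rw [h.2.1, show (-3 : ℤ) - 1 = -4 by norm_num, E3_vm4]; ring)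
      (by rw [h.2.2, show (-3 : ℤ) - 2 = -5 by norm_num, E3_vm5]; ring)⟩
  · exact ⟨-4, E3_refl (-4) (by rw [h.1, show (-4 : ℤ) - 0 = -4 by norm_num, E3_vm4]; ring)
      (by rw [h.2.1, show (-4 : ℤ) - 1 = -5 by norm_num, E3_vm5]; ring)
      (by rw [h.2.2, show (-4 : ℤ) - 2 = -6 by norm_num, E3_vm6]; ring)⟩

/-- extension of a window of two to a periodic sequence -/
def E2 (D x0 x1 : ℤ) (i : ℤ) : ℤ :=
  (if i % 2 = 0 then x0 else x1) + D * (i / 2)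

lemma E2_add (D x0 x1 i q : ℤ) : E2 D x0 x1 (i + 2 * q) = E2 D x0 x1 i + D * q := by
  unfold E2
  have h1 : (i + 2 * q) % 2 = i % 2 := by omega
  have h2 : (i + 2 * q) / 2 = i / 2 + q := by omega
  rw [h1, h2]; ring

lemma E2_refl {D x0 x1 z0 z1 : ℤ} (c : ℤ) (h0 : z0 = -E2 D x0 x1 (c - 0))
    (h1 : z1 = -E2 D x0 x1 (c - 1)) (i : ℤ) :
    E2 D z0 z1 i = -E2 D x0 x1 (c - i) := by
  obtain ⟨q, s, hs, hi⟩ : ∃ q s : ℤ, (s = 0 ∨ s = 1) ∧ i = s + 2 * q :=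
    ⟨i / 2, i % 2, by omega, by omega⟩
  have e1 : c - i = (c - s) + 2 * (-q) := by rw [hi]; ring
  rw [e1, E2_add, hi, E2_add]
  rcases hs with rfl | rfl
  · have : E2 D z0 z1 0 = z0 := by simp [E2]
    rw [this, h0]; ring
  · have : E2 D z0 z1 1 = z1 := by simp [E2]
    rw [this, h1]; ring

lemma leg2_aux {D x0 x1 G0 G1 z0 z1 : ℤ} (m1 : x0 ≤ x1)
    (c0 : (x0 = 0 ∧ G0 = 0) ∨ (x0 = D ∧ G0 = D) ∨ (0 < x0 ∧ x0 < D ∧ G0 = D - x0))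
    (c1 : (x1 = 0 ∧ G1 = 0) ∨ (x1 = D ∧ G1 = D) ∨ (0 < x1 ∧ x1 < D ∧ G1 = D - x1))
    (hD : 0 < D) (m3 : z0 ≤ z1)
    (hp : (z0 = G0 ∧ z1 = G1) ∨ (z0 = G1 ∧ z1 = G0)) :
    (z0 = D - x1 ∧ z1 = D - x0) ∨ (z0 = -x0 ∧ z1 = D - x1) ∨ (z0 = -x1 ∧ z1 = -x0) ∨
    (z0 = D - x0 ∧ z1 = 2 * D - x1) ∨ (z0 = 2 * D - x1 ∧ z1 = 2 * D - x0) := by
  rcases c0 with c0 | c0 | c0 <;> rcases c1 with c1 | c1 | c1 <;> rcases hp with hp | hp <;>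
  first
  | (exfalso; omega)
  | exact Or.inl (by omega)
  | exact Or.inr (Or.inl (by omega))
  | exact Or.inr (Or.inr (Or.inl (by omega)))
  | exact Or.inr (Or.inr (Or.inr (Or.inl (by omega))))
  | exact Or.inr (Or.inr (Or.inr (Or.inr (by omega))))

lemma E2_vm4 (D x0 x1 : ℤ) : E2 D x0 x1 (-4) = x0 + D * (-2) := by
  unfold E2; norm_num

lemma E2_vm3 (D x0 x1 : ℤ) : E2 D x0 x1 (-3) = x1 + D * (-2) := by
  unfold E2; norm_num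

lemma E2_vm2 (D x0 x1 : ℤ) : E2 D x0 x1 (-2) = x0 + D * (-1) := by
  unfold E2; norm_num

lemma E2_vm1 (D x0 x1 : ℤ) : E2 D x0 x1 (-1) = x1 + D * (-1) := by
  unfold E2; norm_num

lemma E2_v0 (D x0 x1 : ℤ) : E2 D x0 x1 (0) = x0 + D * (0) := by
  unfold E2; norm_num

lemma E2_v1 (D x0 x1 : ℤ) : E2 D x0 x1 (1) = x1 + D * (0) := by
  unfold E2; norm_num

/-- relation between the sequences of `a` and `-a`, two exponents -/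
lemma leg2 {D : ℕ} (hD : 0 < D) {a : ℤ} (ha : IsCoprime a (D : ℤ)) (e : Fin 2 → ℤ)
    (σ σ' : Equiv.Perm (Fin 2)) (hσ : Monotone fun l => wI D a (e (σ l)))
    (hσ' : Monotone fun l => wI D (-a) (e (σ' l))) :
    ∃ c : ℤ, ∀ i : ℤ,
      E2 D (wI D (-a) (e (σ' 0))) (wI D (-a) (e (σ' 1))) i =
        -E2 D (wI D a (e (σ 0))) (wI D a (e (σ 1))) (c - i) := by
  have hD' : (0 : ℤ) < D := by exact_mod_cast hD
  set x : Fin 2 → ℤ := fun l => wI D a (e (σ l)) with hx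
  obtain ⟨τ, hτ⟩ : ∃ τ : Equiv.Perm (Fin 2), ∀ l, σ' l = σ (τ l) :=
    ⟨σ'.trans σ.symm, fun l => by simp⟩
  have hz : ∀ l, wI D (-a) (e (σ' l)) = gI D (x (τ l)) := fun l => by
    rw [wI_neg hD ha, hτ]
  have m1 : x 0 ≤ x 1 := hσ (by decide)
  have m3 : gI D (x (τ 0)) ≤ gI D (x (τ 1)) := by
    rw [← hz, ← hz]; exact hσ' (by decide)
  have n1 : τ 0 ≠ τ 1 := fun h => absurd (τ.injective h) (by decide)
  have c0 := gI_cases (D := D) (wI_nonneg hD a (e (σ 0))) (wI_le hD a (e (σ 0)))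
  have c1 := gI_cases (D := D) (wI_nonneg hD a (e (σ 1))) (wI_le hD a (e (σ 1)))
  change (x 0 = 0 ∧ gI D (x 0) = 0) ∨ (x 0 = D ∧ gI D (x 0) = D) ∨
    (0 < x 0 ∧ x 0 < D ∧ gI D (x 0) = D - x 0) at c0
  change (x 1 = 0 ∧ gI D (x 1) = 0) ∨ (x 1 = D ∧ gI D (x 1) = D) ∨
    (0 < x 1 ∧ x 1 < D ∧ gI D (x 1) = D - x 1) at c1
  rw [hz, hz]
  change ∃ c : ℤ, ∀ i : ℤ, E2 D (gI D (x (τ 0))) (gI D (x (τ 1))) i =
    -E2 D (x 0) (x 1) (c - i)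
  have hp : (gI D (x (τ 0)) = gI D (x 0) ∧ gI D (x (τ 1)) = gI D (x 1)) ∨
      (gI D (x (τ 0)) = gI D (x 1) ∧ gI D (x (τ 1)) = gI D (x 0)) := by
    have hh : (τ 0 = 0 ∧ τ 1 = 1) ∨ (τ 0 = 1 ∧ τ 1 = 0) := by
      generalize τ 0 = t0 at *
      generalize τ 1 = t1 at *
      omega
    rcases hh with ⟨h1, h2⟩ | ⟨h1, h2⟩
    · exact Or.inl ⟨by rw [h1], by rw [h2]⟩
    · exact Or.inr ⟨by rw [h1], by rw [h2]⟩
  have hfin := leg2_aux m1 c0 c1 hD' m3 hp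
  rcases hfin with h | h | h | h | h
  · exact ⟨-1, E2_refl (-1) (by rw [h.1, show (-1 : ℤ) - 0 = -1 by norm_num, E2_vm1]; ring)
      (by rw [h.2, show (-1 : ℤ) - 1 = -2 by norm_num, E2_vm2]; ring)⟩
  · exact ⟨0, E2_refl 0 (by rw [h.1, show (0 : ℤ) - 0 = 0 by norm_num, E2_v0]; ring)
      (by rw [h.2, show (0 : ℤ) - 1 = -1 by norm_num, E2_vm1]; ring)⟩
  · exact ⟨1, E2_refl 1 (by rw [h.1, show (1 : ℤ) - 0 = 1 by norm_num, E2_v1]; ring)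
      (by rw [h.2, show (1 : ℤ) - 1 = 0 by norm_num, E2_v0]; ring)⟩
  · exact ⟨-2, E2_refl (-2) (by rw [h.1, show (-2 : ℤ) - 0 = -2 by norm_num, E2_vm2]; ring)
      (by rw [h.2, show (-2 : ℤ) - 1 = -3 by norm_num, E2_vm3]; ring)⟩
  · exact ⟨-3, E2_refl (-3) (by rw [h.1, show (-3 : ℤ) - 0 = -3 by norm_num, E2_vm3]; ring)
      (by rw [h.2, show (-3 : ℤ) - 1 = -4 by norm_num, E2_vm4]; ring)⟩

end Pool.Agent.W280.PC
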