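import Pool.Agent.W432.PC.Final
import Pool.Agent.W280.PC.Arith2

set_option autoImplicit false
set_option maxHeartbeats 4000000

/-!
From the inequalities for Fuchsian systems to the arithmetic theorems.
-/

namespace Pool.Agent.W280.PC

open Finset Pool.Agent.W432.PC Polynomial

universe u

lemma wt_wI {D : ℕ} (hD : 0 < D) {q : ℚ} {e : ℤ} (h : (D : ℚ) * q = e) (a : ℤ) :
    (D : ℚ) * wt a q = wI D a e := by
  have hDq : (0 : ℚ) < D := by exact_mod_cast hD
  have hq : q = (e : ℚ) / D := by rw [← h]; field_simp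
  have h1 : (q < 0 ∧ q.den = 1) ↔ (e < 0 ∧ (D : ℤ) ∣ e) := by
    constructor
    · rintro ⟨h1, h2⟩
      constructor
      · have : (e : ℚ) < 0 := by rw [← h]; exact mul_neg_of_pos_of_neg hDq h1
        exact_mod_cast this
      · have h3 : ((q.num : ℤ) : ℚ) = q := (Rat.den_eq_one_iff q).1 h2
        refine ⟨q.num, ?_⟩
        have h4 : (e : ℚ) = D * ((q.num : ℤ) : ℚ) := by rw [h3, h]
        exact_mod_cast h4
    · rintro ⟨h1, z, hz⟩
      have h3 : q = z := by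
        rw [hq, hz]; push_cast; field_simp
      constructor
      · rw [hq]
        exact div_neg_of_neg_of_pos (by exact_mod_cast h1) hDq
      · rw [h3]; rfl
  unfold wt wI
  by_cases hc : q < 0 ∧ q.den = 1
  · rw [if_pos hc, if_pos (h1.1 hc)]; simp
  · rw [if_neg hc, if_neg (fun h2 => hc (h1.2 h2))]
    have h2 : (a : ℚ) * q = ((a * e : ℤ) : ℚ) / (D : ℚ) := by
      rw [hq]; push_cast; ring
    rw [h2, Int.fract_div_intCast_eq_div_intCast_mod]
    field_simp

lemma exists_sorted {r : ℕ} (a : ℤ) (lam : Fin r → ℚ) :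
    ∃ σ : Equiv.Perm (Fin r), ∀ l l', l ≤ l' → lexLE a (lam (σ l)) (lam (σ l')) := by
  refine ⟨Tuple.sort (fun l => toLex (wt a (lam l), lam l)), fun l l' h => ?_⟩
  have h1 := Tuple.monotone_sort (fun l => toLex (wt a (lam l), lam l)) h
  simp only [Function.comp_apply] at h1
  rw [Prod.Lex.toLex_le_toLex] at h1
  exact h1

section

variable {R : Type u} [CommRing R] [IsDomain R] [CharZero R] {n r : ℕ}

omit [CharZero R] in
lemma hasExponents_perm {A : Matrix (Fin r) (Fin r) R} {lam : Fin r → ℚ} (h : HasExponents A lam)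
    (σ : Equiv.Perm (Fin r)) : HasExponents A (fun l => lam (σ l)) := by
  unfold HasExponents at *
  rw [h]
  exact (Equiv.prod_comp σ (fun l => (X - C ((lam l : ℚ) : FractionRing R)))).symm

theorem ineq_of_not (α : Fin n → R) (hα : ∀ i j, i ≠ j → IsUnit (α i - α j))
    (A : Fin n → Matrix (Fin r) (Fin r) R)
    (lam : Fin n → Fin r → ℚ) (phi : Fin r → ℚ)
    (hlam : ∀ j, HasExponents (A j) (lam j)) (hphi : HasExponents (∑ j, A j) phi)
    (N : ℕ) (hN : 1 < N) (e : Fin n → Fin r → ℤ) (e' : Fin r → ℤ)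
    (he : ∀ j l, (N : ℚ) * lam j l = e j l) (he' : ∀ l, (N : ℚ) * phi l = e' l)
    (a : ℤ) (ha : IsCoprime a (N : ℤ))
    (hres : ∀ (κ : Fin n → Fin r) (s : Fin r), ¬ (N : ℤ) ∣ ∑ j, e j (κ j) - e' s)
    (hno : ¬ ∃ P₀ : ℕ, ∀ p : ℕ, p.Prime → P₀ < p → (N : ℤ) ∣ a * p + 1 →
      ∀ (𝔪 : Ideal R) [𝔪.IsMaximal], (p : R) ∈ 𝔪 → ¬ PCurvZeroAt α A 𝔪) :
    ∃ (σ : Fin n → Equiv.Perm (Fin r)) (τ : Equiv.Perm (Fin r)),
      (∀ j, Monotone fun l => wI N a (e j (σ j l))) ∧ (Monotone fun l => wI N a (e' (τ l))) ∧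
      ∀ (m q : ℤ) (κ : Fin n → Fin r) (s : Fin r),
        ∑ j, ∑ l, wI N a (e j l) - ∑ l, wI N a (e' l) = m * N →
        m + ∑ j, ((κ j : ℕ) : ℤ) = r * q + (s : ℕ) →
        ∑ j, wI N a (e j (σ j (κ j))) < q * N + wI N a (e' (τ s)) := by
  have hN0 : 0 < N := by omega
  have hNq : (0 : ℚ) < N := by exact_mod_cast hN0
  choose σ hσ using fun j => exists_sorted a (lam j)
  obtain ⟨τ, hτ⟩ := exists_sorted a phi
  have hmono : ∀ {x y : ℚ} {u v : ℤ}, (N : ℚ) * x = u → (N : ℚ) * y = v → lexLE a x y →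
      wI N a u ≤ wI N a v := by
    intro x y u v hx hy hxy
    have h1 : wt a x ≤ wt a y := by
      rcases hxy with h | h
      · exact h.le
      · exact h.1.le
    have h2 := mul_le_mul_of_nonneg_left h1 hNq.le
    rw [wt_wI hN0 hx, wt_wI hN0 hy] at h2
    exact_mod_cast h2
  refine ⟨σ, τ, fun j l l' h => hmono (he j _) (he j _) (hσ j l l' h),
    fun l l' h => hmono (he' _) (he' _) (hτ l l' h), ?_⟩
  intro m q κ s hm hq
  by_contra hcon
  push Not at hcon
  apply hno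
  have hw : ∀ j l, wt a (lam j l) = (wI N a (e j l) : ℚ) / N := fun j l => by
    rw [← wt_wI hN0 (he j l)]; field_simp
  have hw' : ∀ l, wt a (phi l) = (wI N a (e' l) : ℚ) / N := fun l => by
    rw [← wt_wI hN0 (he' l)]; field_simp
  have hq' : ∑ j, ∑ l, wt a (lam j (σ j l)) - ∑ l, wt a (phi (τ l)) + ∑ j, ((κ j : ℕ) : ℚ) =
      q * r + (s : ℕ) := by
    have h1 : ∀ j, ∑ l, wt a (lam j (σ j l)) = ∑ l, wt a (lam j l) := fun j =>
      Equiv.sum_comp (σ j) (fun l => wt a (lam j l))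
    have h2 : ∑ l, wt a (phi (τ l)) = ∑ l, wt a (phi l) :=
      Equiv.sum_comp τ (fun l => wt a (phi l))
    rw [Finset.sum_congr rfl (fun j _ => h1 j), h2]
    simp only [hw, hw']
    have h3 := congrArg (fun x : ℤ => (x : ℚ)) hm
    have h4 := congrArg (fun x : ℤ => (x : ℚ)) hq
    push_cast at h3 h4
    simp only [← Finset.sum_div]
    rw [← sub_div, h3]
    have h5 : (m : ℚ) * N / N = m := by field_simp
    rw [h5]
    linarith
  have hle' : q + wt a (phi (τ s)) ≤ ∑ j, wt a (lam j (σ j (κ j))) := by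
    simp only [hw, hw']
    rw [← Finset.sum_div, le_div_iff₀ hNq]
    have h3 : ((q * N + wI N a (e' (τ s)) : ℤ) : ℚ) ≤ ((∑ j, wI N a (e j (σ j (κ j))) : ℤ) : ℚ) := by
      exact_mod_cast hcon
    push_cast at h3
    calc ((q : ℚ) + (wI N a (e' (τ s)) : ℚ) / N) * N = q * N + wI N a (e' (τ s)) := by field_simp
      _ ≤ _ := h3
  have hne : q + wt a (phi (τ s)) ≠ ∑ j, wt a (lam j (σ j (κ j))) := by
    intro heq
    simp only [hw, hw'] at heq
    rw [← Finset.sum_div, eq_div_iff hNq.ne'] at heq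
    have h3 : ((q * N + wI N a (e' (τ s)) : ℤ) : ℚ) = ((∑ j, wI N a (e j (σ j (κ j))) : ℤ) : ℚ) := by
      push_cast
      rw [← heq]
      field_simp
    have h4 : q * N + wI N a (e' (τ s)) = ∑ j, wI N a (e j (σ j (κ j))) := by exact_mod_cast h3
    apply hres (fun j => σ j (κ j)) (τ s)
    rw [← coprime_scale ha]
    have h5 : (N : ℤ) ∣ ∑ j, wI N a (e j (σ j (κ j))) - a * ∑ j, e j (σ j (κ j)) := by
      rw [Finset.mul_sum, ← Finset.sum_sub_distrib]
      exact Finset.dvd_sum fun j _ => wI_mod a _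
    obtain ⟨y1, hy1⟩ := h5
    obtain ⟨y2, hy2⟩ := wI_mod (D := N) a (e' (τ s))
    exact ⟨q - y1 + y2, by linear_combination -h4 - hy1 + hy2⟩
  obtain ⟨g, -, hg1, P₀, hP⟩ := main α hα A A (Or.inl rfl) (fun j l => lam j (σ j l))
    (fun l => phi (τ l)) (fun j => hasExponents_perm (hlam j) (σ j))
    (hasExponents_perm hphi τ) N hN0
    (fun j l => ⟨_, he j _⟩) (fun l => ⟨_, he' _⟩) a hσ hτ κ s q hq' hle'
    (fun heq => absurd heq hne)
  have hg : g = 1 := hg1 (lt_of_le_of_ne hle' hne)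
  refine ⟨P₀, fun p hp hpP hap 𝔪 h𝔪 hpm => hP p hp hpP hap 𝔪 hpm ?_⟩
  rw [hg]
  exact fun h1 => h𝔪.ne_top ((Ideal.eq_top_iff_one _).2 h1)

end

end Pool.Agent.W280.PC
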